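import Mathlib

/-!
# Block PQ-ROLLE: small values at many separated points give small derivatives; a covering lemma

PROOF.
* `rolle`: induction on `i` (for all `k, t, F, η`): for `i = 0` take `ξ = t 0`.  Step: let `k = k' + 1`, `i = i' + 1`.  For `j < 2^k'` the mean value theorem on
  `[t (2j), t (2j+1)]` (length `≥ ρ`, `exists_hasDerivAt_eq_slope`) gives `τ j` in the open interval with `|F 1 (τ j)| ≤ 2 η / ρ`.  The `τ j` are in `[a, b]` and
  `τ j + ρ ≤ t (2j+1) + ρ ≤ t (2j+2) ≤ τ (j+1)`.  Apply the induction hypothesis to `k'`, `i'`, `F (· + 1)`, `η' = 2 η / ρ`: `η' (2/ρ)^i' = η (2/ρ)^(i'+1)`.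
* `cover`: consider the finite subsets `c` of `S` whose elements are pairwise at distance `≥ ρ` (for `x ≠ y` in `c`: `ρ ≤ |x - y|`).  Such a `c` has fewer than `K` elements: otherwise list
  `K` of its elements in increasing order (`Finset.exists_subset_card_eq`, `Finset.orderEmbOfFin`) and extend by anything to a function on `ℕ`; this contradicts `h`.  Choose
  one with the largest cardinality (`Nat.findGreatest` or `Nat.sSup`, or induction).  Every `y ∈ S` is within `ρ` of some element of `c`, otherwise `insert y c` would be larger.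
-/

namespace Pool.Agent.Helper59.PQ

open Finset

theorem rolle (i : ℕ) : ∀ (k : ℕ), i ≤ k → ∀ (F : ℕ → ℝ → ℝ),
    (∀ i z, HasDerivAt (F i) (F (i + 1) z) z) → ∀ (a b ρ η : ℝ), 0 < ρ → 0 ≤ η →
    ∀ t : ℕ → ℝ, (∀ j < 2 ^ k, t j ∈ Set.Icc a b ∧ |F 0 (t j)| ≤ η) →
      (∀ j, j + 1 < 2 ^ k → t j + ρ ≤ t (j + 1)) →
      ∃ ξ ∈ Set.Icc a b, |F i ξ| ≤ η * (2 / ρ) ^ i := by
  induction i with
  | zero =>
    intro k _ F _ a b ρ η hρ hη t ht _
    obtain ⟨h1, h2⟩ := ht 0 (by positivity)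
    exact ⟨t 0, h1, by simpa using h2⟩
  | succ i ih =>
    intro k hk F hF a b ρ η hρ hη t ht hsep
    obtain ⟨k', rfl⟩ : ∃ k', k = k' + 1 := ⟨k - 1, by omega⟩
    have hpow : 2 ^ (k' + 1) = 2 * 2 ^ k' := by ring
    have key : ∀ j, ∃ x : ℝ, j < 2 ^ k' → x ∈ Set.Ioo (t (2 * j)) (t (2 * j + 1)) ∧
        |F 1 x| ≤ 2 * η / ρ := by
      intro j
      by_cases hj : j < 2 ^ k'
      · have h1 : 2 * j + 1 < 2 ^ (k' + 1) := by omega
        have h0 : 2 * j < 2 ^ (k' + 1) := by omega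
        have hs := hsep (2 * j) h1
        have hlt : t (2 * j) < t (2 * j + 1) := by linarith
        obtain ⟨c, hc, hc'⟩ := exists_hasDerivAt_eq_slope (F 0) (F 1) hlt
          (fun x _ => (hF 0 x).continuousAt.continuousWithinAt) (fun x _ => hF 0 x)
        refine ⟨c, fun _ => ⟨hc, ?_⟩⟩
        rw [hc', abs_div, abs_of_pos (by linarith : 0 < t (2 * j + 1) - t (2 * j))]
        have hn : |F 0 (t (2 * j + 1)) - F 0 (t (2 * j))| ≤ 2 * η := by
          have e1 := (ht _ h1).2
          have e0 := (ht _ h0).2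
          have e2 := abs_sub (F 0 (t (2 * j + 1))) (F 0 (t (2 * j)))
          linarith
        exact div_le_div₀ (by linarith) hn hρ (by linarith)
      · exact ⟨0, fun h => absurd h hj⟩
    choose τ hτ using key
    obtain ⟨ξ, hξ, hξ'⟩ := ih k' (by omega) (fun n => F (n + 1)) (fun n z => hF (n + 1) z)
      a b ρ (2 * η / ρ) hρ (by positivity) τ (fun j hj => by
        obtain ⟨h1, h2⟩ := hτ j hj
        have e0 := (ht (2 * j) (by omega)).1
        have e1 := (ht (2 * j + 1) (by omega)).1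
        exact ⟨⟨by linarith [e0.1, h1.1], by linarith [e1.2, h1.2]⟩, h2⟩)
      (fun j hj => by
        obtain ⟨h1, -⟩ := hτ j (by omega)
        obtain ⟨h2, -⟩ := hτ (j + 1) hj
        have hs := hsep (2 * j + 1) (by omega)
        have e : 2 * j + 1 + 1 = 2 * (j + 1) := by ring
        rw [e] at hs
        linarith [h1.2, h2.1])
    refine ⟨ξ, hξ, hξ'.trans (le_of_eq ?_)⟩
    rw [pow_succ]
    ring

theorem cover (S : Set ℝ) (ρ : ℝ) (hρ : 0 < ρ) (K : ℕ) (hK : 1 ≤ K)
    (h : ¬ ∃ t : ℕ → ℝ, (∀ j < K, t j ∈ S) ∧ ∀ j, j + 1 < K → t j + ρ ≤ t (j + 1)) :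
    ∃ c : Finset ℝ, c.card ≤ K ∧ ∀ y ∈ S, ∃ x ∈ c, y ∈ Set.Icc (x - ρ) (x + ρ) := by
  classical
  let good : Finset ℝ → Prop := fun c =>
    (∀ x ∈ c, x ∈ S) ∧ ∀ x ∈ c, ∀ y ∈ c, x ≠ y → ρ ≤ |x - y|
  have hcard : ∀ c, good c → c.card < K := by
    intro c hc
    by_contra hcon
    push Not at hcon
    apply h
    obtain ⟨c', hc'1, hc'2⟩ := Finset.exists_subset_card_eq hcon
    refine ⟨fun j => if hj : j < K then c'.orderEmbOfFin hc'2 ⟨j, hj⟩ else 0, ?_, ?_⟩
    · intro j hj
      simp only [hj, dif_pos]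
      exact hc.1 _ (hc'1 (Finset.orderEmbOfFin_mem c' hc'2 _))
    · intro j hj
      have hj0 : j < K := by omega
      simp only [hj, hj0, dif_pos]
      have hlt : c'.orderEmbOfFin hc'2 ⟨j, hj0⟩ < c'.orderEmbOfFin hc'2 ⟨j + 1, hj⟩ :=
        (c'.orderEmbOfFin hc'2).strictMono (by simp [Fin.lt_def])
      have hd := hc.2 _ (hc'1 (Finset.orderEmbOfFin_mem c' hc'2 ⟨j + 1, hj⟩)) _
        (hc'1 (Finset.orderEmbOfFin_mem c' hc'2 ⟨j, hj0⟩)) hlt.ne'
      rw [abs_of_pos (by linarith)] at hd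
      linarith
  let P : ℕ → Prop := fun n => ∃ c, good c ∧ c.card = n
  have hP0 : P 0 := ⟨∅, ⟨by simp, by simp⟩, rfl⟩
  obtain ⟨c, hc, hcn⟩ : P (Nat.findGreatest P K) := Nat.findGreatest_spec (Nat.zero_le K) hP0
  refine ⟨c, (hcard c hc).le, ?_⟩
  intro y hy
  by_contra hcon
  push Not at hcon
  have hfar : ∀ x ∈ c, ρ < |y - x| := by
    intro x hx
    by_contra h'
    push Not at h'
    rw [abs_le] at h'
    exact hcon x hx ⟨by linarith [h'.1], by linarith [h'.2]⟩
  have hyc : y ∉ c := by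
    intro hyc
    have := hfar y hyc
    simp at this
    linarith
  have hgood : good (insert y c) := by
    refine ⟨?_, ?_⟩
    · intro x hx
      rcases Finset.mem_insert.1 hx with rfl | hx
      · exact hy
      · exact hc.1 x hx
    · intro x hx z hz hxz
      rcases Finset.mem_insert.1 hx with hx' | hx'
      · rcases Finset.mem_insert.1 hz with hz' | hz'
        · exact absurd (hx'.trans hz'.symm) hxz
        · rw [hx']
          exact (hfar z hz').le
      · rcases Finset.mem_insert.1 hz with hz' | hz'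
        · rw [hz', abs_sub_comm]
          exact (hfar x hx').le
        · exact hc.2 x hx' z hz' hxz
  have hlt := hcard _ hgood
  have hle := Nat.le_findGreatest (P := P) hlt.le ⟨insert y c, hgood, rfl⟩
  rw [Finset.card_insert_of_notMem hyc] at hle
  omega

end Pool.Agent.Helper59.PQ
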