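import Pool.Agent.Helper59.RG.Mix
import Pool.Agent.Helper59.RG.Ser
import Pool.Agent.Helper59.RG.SerM

/-!
# Block PQ-ANTIA: anti-concentration of the series, one step

PROOF.
* `anti_one`: let `I = Icc c (c + x/2)`.  The sets `I ×ˢ I` and `{p | |p.1 - p.2 - x| ≤ η}` are disjoint (`|p.1 - p.2| ≤ x/2` and `η < x/2`), so `(ν I)² + w ≤ 1`
  (`Measure.prod_prod`, `measureReal_union`, probability measure `ν.prod ν`), and `(ν I)² ≤ 1 - w ≤ (1 - w/2)²` with `1 - w/2 ≥ 0` (`w ≤ 1`).
* `anti_mono`: for `q ≤ q'`: `mix` at `q'` for the indicator function of `{z | |ser N q z - y| ≤ ρ}` (as a complex function; or directly the independence of the coordinates `< q'` and `≥ q'`):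
  for the mixed sequence `u` of `y'` and `z` one has `ser N q u = ∑_(k ∈ Ico q q') y' k / N k + ser N q' z` (`ser_split`; almost surely all coordinates are bounded by `B`), so the probability is
  `∫ P(|ser N q' z - (y - ∑)| ≤ ρ) dP(y') ≤ κ`.
* `anti_step`: the same with `q' = q + g`; moreover the inner probability is `0` unless `|y' q / N q - (y - ∑_(k ∈ Ioo q q') y' k / N k)| ≤ ρ + ser N q' B` (`ser_abs`), i.e. unless `y' q` lies in an
  interval `I` of length `2 (ρ + ser N q' B) N q ≤ x / 2`, which depends on the other coordinates only.  So the probability is at most `κ P(y' q ∈ I)`.  Use `mix` once more at `q + 1`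
  (the coordinates `≤ q` and the coordinates `> q` are independent), the integral over the first part being `ν_q (I) ≤ 1 - w/2`: the coordinate `q` of `infinitePi ν` has the law `ν q`
  (`Measure.infinitePi_map_eval` / `measurePreserving_eval_infinitePi`).
-/

namespace Pool.Agent.Helper59.PQ

open Finset MeasureTheory
open Pool.Agent.Helper59.RG (ser)

theorem anti_one (ν : Measure ℝ) [IsProbabilityMeasure ν] (x η w : ℝ) (hη : η < x / 2)
    (h : w ≤ (ν.prod ν).real {p : ℝ × ℝ | |p.1 - p.2 - x| ≤ η}) (c : ℝ) :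
    ν.real (Set.Icc c (c + x / 2)) ≤ 1 - w / 2 := by
  have hm : MeasurableSet {p : ℝ × ℝ | |p.1 - p.2 - x| ≤ η} :=
    measurableSet_le (by fun_prop) measurable_const
  have hd : Disjoint (Set.Icc c (c + x / 2) ×ˢ Set.Icc c (c + x / 2))
      {p : ℝ × ℝ | |p.1 - p.2 - x| ≤ η} := by
    rw [Set.disjoint_left]
    rintro ⟨a, b⟩ ⟨h1, h2⟩ h3
    have h1' : c ≤ a ∧ a ≤ c + x / 2 := h1
    have h2' : c ≤ b ∧ b ≤ c + x / 2 := h2
    have h3' : |a - b - x| ≤ η := h3
    have h4 := (abs_le.1 h3').1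
    linarith [h1'.2, h2'.1]
  have h1 := measureReal_union (μ := ν.prod ν) hd hm
  have h2 : (ν.prod ν).real (Set.Icc c (c + x / 2) ×ˢ Set.Icc c (c + x / 2)) =
      ν.real (Set.Icc c (c + x / 2)) * ν.real (Set.Icc c (c + x / 2)) := by
    rw [measureReal_def, Measure.prod_prod, ENNReal.toReal_mul]
    rfl
  have h3 : (ν.prod ν).real ((Set.Icc c (c + x / 2) ×ˢ Set.Icc c (c + x / 2)) ∪
      {p : ℝ × ℝ | |p.1 - p.2 - x| ≤ η}) ≤ 1 := measureReal_le_one
  have h4 : (ν.prod ν).real {p : ℝ × ℝ | |p.1 - p.2 - x| ≤ η} ≤ 1 := measureReal_le_one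
  rw [h1, h2] at h3
  have h5 : 0 ≤ ν.real (Set.Icc c (c + x / 2)) := measureReal_nonneg
  nlinarith [sq_nonneg w]

/-- The first coordinates of `y`, the others of `z`. -/
private def mx45 (q : ℕ) (y z : ℕ → ℝ) : ℕ → ℝ := fun k => if k < q then y k else z k

private theorem meas_mx45 (q : ℕ) :
    Measurable (fun p : (ℕ → ℝ) × (ℕ → ℝ) => mx45 q p.1 p.2) := by
  refine measurable_pi_lambda _ (fun k => ?_)
  unfold mx45
  by_cases hk : k < q
  · simp only [hk, if_true]
    exact (measurable_pi_apply k).comp measurable_fst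
  · simp only [hk, if_false]
    exact (measurable_pi_apply k).comp measurable_snd

private theorem map_mx45 (ν : ℕ → Measure ℝ) [∀ k, IsProbabilityMeasure (ν k)] (q : ℕ) :
    ((Measure.infinitePi ν).prod (Measure.infinitePi ν)).map
      (fun p : (ℕ → ℝ) × (ℕ → ℝ) => mx45 q p.1 p.2) = Measure.infinitePi ν := by
  refine Measure.eq_infinitePi ν (fun s t ht => ?_)
  rw [Measure.map_apply (meas_mx45 q)
    (MeasurableSet.pi (Finset.countable_toSet s) (fun i _ => ht i))]
  have hpre : (fun p : (ℕ → ℝ) × (ℕ → ℝ) => mx45 q p.1 p.2) ⁻¹' (Set.pi (s : Set ℕ) t) =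
      (Set.pi ((s.filter (fun k => k < q) : Finset ℕ) : Set ℕ) t) ×ˢ
        (Set.pi ((s.filter (fun k => ¬ k < q) : Finset ℕ) : Set ℕ) t) := by
    ext p
    constructor
    · intro h
      refine ⟨fun k hk => ?_, fun k hk => ?_⟩
      · have hk' := Finset.mem_filter.1 (Finset.mem_coe.1 hk)
        have h1 := h k (Finset.mem_coe.2 hk'.1)
        simpa only [mx45, hk'.2, if_true] using h1
      · have hk' := Finset.mem_filter.1 (Finset.mem_coe.1 hk)
        have h1 := h k (Finset.mem_coe.2 hk'.1)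
        simpa only [mx45, hk'.2, if_false] using h1
    · rintro ⟨h1, h2⟩ k hk
      by_cases hq : k < q
      · have h3 := h1 k (Finset.mem_coe.2 (Finset.mem_filter.2 ⟨Finset.mem_coe.1 hk, hq⟩))
        simpa only [mx45, hq, if_true] using h3
      · have h3 := h2 k (Finset.mem_coe.2 (Finset.mem_filter.2 ⟨Finset.mem_coe.1 hk, hq⟩))
        simpa only [mx45, hq, if_false] using h3
  rw [hpre, Measure.prod_prod, Measure.infinitePi_pi ν (fun i _ => ht i),
    Measure.infinitePi_pi ν (fun i _ => ht i), Finset.prod_filter_mul_prod_filter_not]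

/-- The probability of an event as an integral over the first coordinates. -/
private theorem prob_fst45 (ν : ℕ → Measure ℝ) [∀ k, IsProbabilityMeasure (ν k)] (q : ℕ)
    {E : Set (ℕ → ℝ)} (hE : MeasurableSet E) :
    Measure.infinitePi ν E = ∫⁻ y, Measure.infinitePi ν {z | mx45 q y z ∈ E}
      ∂(Measure.infinitePi ν) := by
  conv_lhs => rw [← map_mx45 ν q]
  rw [Measure.map_apply (meas_mx45 q) hE, Measure.prod_apply (meas_mx45 q hE)]
  rfl

/-- The probability of an event as an integral over the last coordinates. -/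
private theorem prob_snd45 (ν : ℕ → Measure ℝ) [∀ k, IsProbabilityMeasure (ν k)] (q : ℕ)
    {E : Set (ℕ → ℝ)} (hE : MeasurableSet E) :
    Measure.infinitePi ν E = ∫⁻ z, Measure.infinitePi ν {y | mx45 q y z ∈ E}
      ∂(Measure.infinitePi ν) := by
  conv_lhs => rw [← map_mx45 ν q]
  rw [Measure.map_apply (meas_mx45 q) hE, Measure.prod_apply_symm (meas_mx45 q hE)]
  rfl

private theorem ae_bdd45 {B : ℕ → ℝ} (ν : ℕ → Measure ℝ) [∀ k, IsProbabilityMeasure (ν k)]
    (hνB : ∀ k, ∀ᵐ z ∂(ν k), |z| ≤ B k) : ∀ᵐ z ∂(Measure.infinitePi ν), ∀ k, |z k| ≤ B k :=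
  ae_all_iff.2 fun k => (measurePreserving_eval_infinitePi ν k).quasiMeasurePreserving.ae (hνB k)

private theorem measE45 (N : ℕ → ℝ) (q : ℕ) (y ρ : ℝ) :
    MeasurableSet {z : ℕ → ℝ | |ser N q z - y| ≤ ρ} := by
  refine measurableSet_le ?_ measurable_const
  exact (((RG.measurable_ser N q).sub_const y)).abs

/-- The value at a mixed sequence. -/
private theorem ser_mx45 {N B : ℕ → ℝ} (hN : ∀ k, 0 < N k) (hB : Summable fun k => B k / N k)
    {q q' : ℕ} (hq : q ≤ q') {y z : ℕ → ℝ} (hy : ∀ k, |y k| ≤ B k) (hz : ∀ k, |z k| ≤ B k) :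
    ser N q (mx45 q' y z) = ∑ k ∈ Ico q q', y k / N k + ser N q' z := by
  have h1 : ∀ k, |mx45 q' y z k| ≤ B k := by
    intro k
    unfold mx45
    split_ifs
    · exact hy k
    · exact hz k
  rw [RG.ser_split hN hB h1 q q' hq]
  congr 1
  · refine Finset.sum_congr rfl fun k hk => ?_
    rw [Finset.mem_Ico] at hk
    unfold mx45
    rw [if_pos hk.2]
  · unfold ser
    refine tsum_congr fun k => ?_
    by_cases hk : q' ≤ k
    · rw [if_pos hk, if_pos hk]
      unfold mx45
      rw [if_neg (by omega)]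
    · rw [if_neg hk, if_neg hk]

/-- The inner probability. -/
private theorem inner45 {N B : ℕ → ℝ} (hN : ∀ k, 0 < N k) (hB : Summable fun k => B k / N k)
    (ν : ℕ → Measure ℝ) [∀ k, IsProbabilityMeasure (ν k)] (hνB : ∀ k, ∀ᵐ z ∂(ν k), |z| ≤ B k)
    {q q' : ℕ} (hq : q ≤ q') (ρ : ℝ) (y : ℝ) {u : ℕ → ℝ} (hu : ∀ k, |u k| ≤ B k) :
    Measure.infinitePi ν {z | mx45 q' u z ∈ {z : ℕ → ℝ | |ser N q z - y| ≤ ρ}} ≤
      Measure.infinitePi ν {z | |ser N q' z - (y - ∑ k ∈ Ico q q', u k / N k)| ≤ ρ} := by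
  refine measure_mono_ae ?_
  filter_upwards [ae_bdd45 ν hνB] with z hz h
  have h1 : |ser N q (mx45 q' u z) - y| ≤ ρ := h
  rw [ser_mx45 hN hB hq hu hz] at h1
  change |ser N q' z - (y - ∑ k ∈ Ico q q', u k / N k)| ≤ ρ
  have h2 : ser N q' z - (y - ∑ k ∈ Ico q q', u k / N k) =
      ∑ k ∈ Ico q q', u k / N k + ser N q' z - y := by ring
  rw [h2]
  exact h1

private theorem le_ofReal45 {P : Measure (ℕ → ℝ)} [IsProbabilityMeasure P] {s : Set (ℕ → ℝ)}
    {κ : ℝ} (h : P.real s ≤ κ) : P s ≤ ENNReal.ofReal κ := by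
  rw [← ofReal_measureReal (μ := P) (s := s)]
  exact ENNReal.ofReal_le_ofReal h

theorem anti_mono {N B : ℕ → ℝ} (hN : ∀ k, 0 < N k) (hB : Summable fun k => B k / N k)
    (ν : ℕ → Measure ℝ) [∀ k, IsProbabilityMeasure (ν k)] (hνB : ∀ k, ∀ᵐ z ∂(ν k), |z| ≤ B k)
    (q q' : ℕ) (hq : q ≤ q') (ρ κ : ℝ)
    (h : ∀ y : ℝ, (Measure.infinitePi ν).real {z | |ser N q' z - y| ≤ ρ} ≤ κ) (y : ℝ) :
    (Measure.infinitePi ν).real {z | |ser N q z - y| ≤ ρ} ≤ κ := by
  have hκ : 0 ≤ κ := measureReal_nonneg.trans (h y)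
  refine ENNReal.toReal_le_of_le_ofReal hκ ?_
  rw [prob_fst45 ν q' (measE45 N q y ρ)]
  have h1 : ∀ᵐ u ∂(Measure.infinitePi ν),
      Measure.infinitePi ν {z | mx45 q' u z ∈ {z : ℕ → ℝ | |ser N q z - y| ≤ ρ}} ≤
        ENNReal.ofReal κ := by
    filter_upwards [ae_bdd45 ν hνB] with u hu
    exact (inner45 hN hB ν hνB hq ρ y hu).trans (le_ofReal45 (h _))
  refine (lintegral_mono_ae h1).trans ?_
  rw [lintegral_const, measure_univ, mul_one]

theorem anti_step {N B : ℕ → ℝ} (hN : ∀ k, 0 < N k) (hB : Summable fun k => B k / N k)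
    (ν : ℕ → Measure ℝ) [∀ k, IsProbabilityMeasure (ν k)] (hνB : ∀ k, ∀ᵐ z ∂(ν k), |z| ≤ B k)
    (q g : ℕ) (hg : 1 ≤ g) (x ρ κ w : ℝ) (hw : w ≤ 1) (hκ : 0 ≤ κ)
    (h : ∀ y : ℝ, (Measure.infinitePi ν).real {z | |ser N (q + g) z - y| ≤ ρ} ≤ κ)
    (hI : 2 * (ρ + ser N (q + g) B) * N q ≤ x / 2)
    (h1 : ∀ c : ℝ, (ν q).real (Set.Icc c (c + x / 2)) ≤ 1 - w / 2) (y : ℝ) :
    (Measure.infinitePi ν).real {z | |ser N q z - y| ≤ ρ} ≤ (1 - w / 2) * κ := by
  have hw0 : 0 ≤ 1 - w / 2 := by linarith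
  refine ENNReal.toReal_le_of_le_ofReal (mul_nonneg hw0 hκ) ?_
  -- the event on which the inner probability is not zero
  obtain ⟨G, hG⟩ : ∃ G : Set (ℕ → ℝ), G = {u : ℕ → ℝ |
      |y - ∑ k ∈ Ico q (q + g), u k / N k| ≤ ρ + ser N (q + g) B} := ⟨_, rfl⟩
  have hGm : MeasurableSet G := by
    rw [hG]
    refine measurableSet_le ?_ measurable_const
    refine (Measurable.const_sub ?_ y).abs
    exact Finset.measurable_fun_sum _ fun k _ => (measurable_pi_apply k).div_const _
  have h2 : ∀ᵐ u ∂(Measure.infinitePi ν),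
      Measure.infinitePi ν {z | mx45 (q + g) u z ∈ {z : ℕ → ℝ | |ser N q z - y| ≤ ρ}} ≤
        G.indicator (fun _ => ENNReal.ofReal κ) u := by
    filter_upwards [ae_bdd45 ν hνB] with u hu
    have h3 := inner45 hN hB ν hνB (show q ≤ q + g by omega) ρ y hu
    by_cases huG : u ∈ G
    · rw [Set.indicator_of_mem huG]
      exact h3.trans (le_ofReal45 (h _))
    · rw [Set.indicator_of_notMem huG]
      refine h3.trans (le_of_eq ?_)
      have h4 : ∀ᵐ z ∂(Measure.infinitePi ν),
          ¬ |ser N (q + g) z - (y - ∑ k ∈ Ico q (q + g), u k / N k)| ≤ ρ := by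
        filter_upwards [ae_bdd45 ν hνB] with z hz h5
        apply huG
        rw [hG]
        change |y - ∑ k ∈ Ico q (q + g), u k / N k| ≤ ρ + ser N (q + g) B
        have h6 := RG.ser_abs hN hB hz (q + g)
        have h7 := abs_le.1 h5
        have h8 := abs_le.1 h6
        rw [abs_le]
        constructor <;> linarith [h7.1, h7.2, h8.1, h8.2]
      exact ae_iff.1 h4 |>.symm ▸ (by simp)
  have h3 : Measure.infinitePi ν G ≤ ENNReal.ofReal (1 - w / 2) := by
    rw [prob_snd45 ν (q + 1) hGm]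
    have h4 : ∀ z : ℕ → ℝ, Measure.infinitePi ν {u | mx45 (q + 1) u z ∈ G} ≤
        ENNReal.ofReal (1 - w / 2) := by
      intro z
      obtain ⟨s, hs⟩ : ∃ s : ℝ, s = y - ∑ k ∈ Ico (q + 1) (q + g), z k / N k := ⟨_, rfl⟩
      obtain ⟨R, hR⟩ : ∃ R : ℝ, R = ρ + ser N (q + g) B := ⟨_, rfl⟩
      have h5 : {u : ℕ → ℝ | mx45 (q + 1) u z ∈ G} ⊆ Function.eval q ⁻¹'
          Set.Icc (N q * (s - R)) (N q * (s - R) + x / 2) := by
        intro u hu
        have h6 : mx45 (q + 1) u z ∈ G := hu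
        rw [hG] at h6
        have h7 : |y - ∑ k ∈ Ico q (q + g), mx45 (q + 1) u z k / N k| ≤ ρ + ser N (q + g) B := h6
        rw [Finset.sum_eq_sum_Ico_succ_bot (show q < q + g by omega)] at h7
        have h8 : mx45 (q + 1) u z q = u q := by
          unfold mx45
          rw [if_pos (by omega)]
        have h9 : ∑ k ∈ Ico (q + 1) (q + g), mx45 (q + 1) u z k / N k =
            ∑ k ∈ Ico (q + 1) (q + g), z k / N k := by
          refine Finset.sum_congr rfl fun k hk => ?_
          rw [Finset.mem_Ico] at hk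
          unfold mx45
          rw [if_neg (by omega)]
        rw [h8, h9, ← hR] at h7
        have h10 : y - (u q / N q + ∑ k ∈ Ico (q + 1) (q + g), z k / N k) = s - u q / N q := by
          rw [hs]
          ring
        rw [h10] at h7
        have h11 := abs_le.1 h7
        have hNq := hN q
        have h12 : u q = N q * (u q / N q) := by
          field_simp
        have h13 : N q * (s - R) ≤ u q := by
          rw [h12]
          exact mul_le_mul_of_nonneg_left (by linarith [h11.2]) hNq.le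
        have h14 : u q ≤ N q * (s + R) := by
          rw [h12]
          exact mul_le_mul_of_nonneg_left (by linarith [h11.1]) hNq.le
        refine ⟨h13, h14.trans ?_⟩
        have h15 : 2 * R * N q ≤ x / 2 := by
          rw [hR]
          exact hI
        linarith
      refine (measure_mono h5).trans ?_
      have h6 : Measure.infinitePi ν (Function.eval q ⁻¹'
          Set.Icc (N q * (s - R)) (N q * (s - R) + x / 2)) =
          ν q (Set.Icc (N q * (s - R)) (N q * (s - R) + x / 2)) :=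
        (measurePreserving_eval_infinitePi ν q).measure_preimage
          measurableSet_Icc.nullMeasurableSet
      rw [h6, ← ofReal_measureReal (μ := ν q)]
      exact ENNReal.ofReal_le_ofReal (h1 _)
    refine (lintegral_mono h4).trans ?_
    rw [lintegral_const, measure_univ, mul_one]
  rw [prob_fst45 ν (q + g) (measE45 N q y ρ)]
  refine (lintegral_mono_ae h2).trans ?_
  rw [lintegral_indicator_const hGm, mul_comm, ENNReal.ofReal_mul hw0]
  exact mul_le_mul_left h3 _

end Pool.Agent.Helper59.PQ
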