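import Pool.Agent.Helper59.RG.Tail

/-!
# Block PQ-TAILQ: more on the tails of the series

`B k = C (k+1)^A`, `N k` grows at least like `θ^k`.

PROOF.  `θ` from `hN.dbl`, `N (q + j) ≥ θ^j N q` for `q ≥ 1` (`Bs.grow` in `RF/Bas.lean`, or induction).
* `tail_exp`: for `q = sqrt m ≥ 1`: `ser N q B = ∑_(k ≥ q) B k / N k ≤ ∑_(j ≥ 0) C (q+j+1)^A / (θ^j N q)`, `N q ≥ θ^(q-1) N 1`, `(q+j+1)^A ≤ (q+1)^A (j+1)^A`; so it is
  `≤ K (q+1)^A / θ^q`, `K = C θ / N 1 * ∑_j (j+1)^A / θ^j`, and with `q ≥ √m - 1` this is `≤ exp (- m^(1/3))` for `m` large.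
* `tail_gap`: with `θ' = √θ`: `ser N (q+g) B * N q ≤ ∑_(j ≥ g) C (q+j+1)^A / θ^j ≤ C (q+1)^A ∑_(j ≥ g) (j+1)^A / θ^j ≤ C (q+1)^A θ'^(-g) ∑_j (j+1)^A / θ'^j`.
(`ser N q B` is a `tsum` of `if q ≤ k then .. else 0`; `Summable.tsum_le_tsum` against the corresponding function.)
-/

namespace Pool.Agent.Helper59.PQ

open Finset
open Pool.Agent.Helper59.RF (Bs)
open Pool.Agent.Helper59.RG (ser)

private theorem grow40 {N : ℕ → ℝ} {θ : ℝ} (hθ : 1 < θ)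
    (h : ∀ k, 1 ≤ k → θ * N k ≤ N (k + 1)) (q : ℕ) (hq : 1 ≤ q) (j : ℕ) :
    θ ^ j * N q ≤ N (q + j) := by
  induction j with
  | zero => simp
  | succ j ih =>
    have h1 := h (q + j) (by omega)
    have h2 := mul_le_mul_of_nonneg_left ih (by linarith : 0 ≤ θ)
    calc θ ^ (j + 1) * N q = θ * (θ ^ j * N q) := by ring
      _ ≤ θ * N (q + j) := h2
      _ ≤ N (q + (j + 1)) := h1

private theorem summ40 {θ' : ℝ} (hθ : 1 < θ') (A : ℕ) :
    Summable fun j : ℕ => ((j : ℝ) + 1) ^ A / θ' ^ j := by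
  have hθ0 : (0 : ℝ) < θ' := by linarith
  have hr : ‖(1 / θ' : ℝ)‖ < 1 := by
    rw [Real.norm_eq_abs, abs_of_pos (by positivity)]
    exact (div_lt_one hθ0).2 hθ
  have h1 := summable_pow_mul_geometric_of_norm_lt_one A hr
  have h2 := (summable_nat_add_iff 1).2 h1
  have h3 := h2.mul_left θ'
  refine h3.congr fun j => ?_
  have h4 : (((j + 1 : ℕ) : ℝ)) = (j : ℝ) + 1 := by push_cast; ring
  rw [h4, one_div, inv_pow, pow_succ]
  field_simp

theorem tail_gap {N : ℕ → ℝ} (hN : Bs N) (C : ℝ) (hC : 0 ≤ C) (A : ℕ) :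
    ∃ K θ' : ℝ, 0 ≤ K ∧ 1 < θ' ∧ ∀ q g : ℕ, 1 ≤ q →
      ser N (q + g) (fun k => C * ((k : ℝ) + 1) ^ A) * N q ≤ K * ((q : ℝ) + 1) ^ A / θ' ^ g := by
  obtain ⟨θ, hθ1, hθ⟩ := hN.dbl
  have hθ0 : (0 : ℝ) < θ := by linarith
  obtain ⟨t, ht⟩ : ∃ t : ℝ, t = Real.sqrt θ := ⟨_, rfl⟩
  have ht2 : t * t = θ := by rw [ht]; exact Real.mul_self_sqrt hθ0.le
  have ht1 : 1 < t := by
    rw [ht]
    exact Real.lt_sqrt_of_sq_lt (by linarith)
  have ht0 : (0 : ℝ) < t := by linarith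
  have hf := summ40 ht1 A
  have hf0 : ∀ j : ℕ, 0 ≤ ((j : ℝ) + 1) ^ A / t ^ j := fun j => by positivity
  refine ⟨C * ∑' j : ℕ, ((j : ℝ) + 1) ^ A / t ^ j, t, mul_nonneg hC (tsum_nonneg hf0), ht1, ?_⟩
  intro q g hq
  have hNq := hN.pos q
  obtain ⟨c, hc⟩ : ∃ c : ℝ, c = C * ((q : ℝ) + 1) ^ A / (N q * t ^ g) := ⟨_, rfl⟩
  have hc0 : 0 ≤ c := by rw [hc]; positivity
  have hh : HasSum (fun k : ℕ => if q ≤ k then c * ((((k - q : ℕ) : ℝ) + 1) ^ A / t ^ (k - q)) else 0)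
      (c * ∑' j : ℕ, ((j : ℝ) + 1) ^ A / t ^ j) := by
    have hinj : Function.Injective fun j : ℕ => j + q := fun a b hab => by
      simpa using hab
    refine (hinj.hasSum_iff ?_).1 ?_
    · intro k hk
      rw [if_neg]
      intro hqk
      exact hk ⟨k - q, by simp only; omega⟩
    · have h1 := hf.hasSum.mul_left c
      have h2 : ((fun k : ℕ => if q ≤ k then c * ((((k - q : ℕ) : ℝ) + 1) ^ A / t ^ (k - q)) else 0) ∘
          fun j : ℕ => j + q) = fun j : ℕ => c * (((j : ℝ) + 1) ^ A / t ^ j) := by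
        funext j
        simp only [Function.comp]
        rw [if_pos (by omega), Nat.add_sub_cancel]
      rw [h2]
      exact h1
  have hB : Summable fun k : ℕ => (C * ((k : ℝ) + 1) ^ A) / N k := RG.tail_summable hN C A
  have hs := RG.ser_summable (B := fun k : ℕ => C * ((k : ℝ) + 1) ^ A)
    (y := fun k : ℕ => C * ((k : ℝ) + 1) ^ A) hN.pos hB
    (fun k => (abs_of_nonneg (by positivity)).le) (q + g)
  have hle : ser N (q + g) (fun k => C * ((k : ℝ) + 1) ^ A) ≤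
      c * ∑' j : ℕ, ((j : ℝ) + 1) ^ A / t ^ j := by
    unfold ser
    refine hasSum_le (fun k => ?_) hs.hasSum hh
    by_cases h1 : q + g ≤ k
    · rw [if_pos h1, if_pos (by omega : q ≤ k)]
      obtain ⟨j, hj⟩ : ∃ j : ℕ, j = k - q := ⟨_, rfl⟩
      have hk : k = q + j := by omega
      have hgj : g ≤ j := by omega
      rw [← hj, hk, hc]
      have h2 := grow40 hθ1 hθ q hq j
      have h3 : (0 : ℝ) < θ ^ j * N q := by positivity
      have h4 : (((q + j : ℕ) : ℝ) + 1) ^ A ≤ (((q : ℝ) + 1) * ((j : ℝ) + 1)) ^ A := by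
        refine pow_le_pow_left₀ (by positivity) ?_ A
        push_cast
        have h5 : (0 : ℝ) ≤ (q : ℝ) * j := by positivity
        linarith [h5, mul_add ((q : ℝ) + 1) (j : ℝ) 1, add_mul (q : ℝ) 1 (j : ℝ)]
      have h6 : θ ^ j = t ^ j * t ^ j := by rw [← mul_pow, ht2]
      have h7 : t ^ g ≤ t ^ j := pow_le_pow_right₀ ht1.le hgj
      calc C * (((q + j : ℕ) : ℝ) + 1) ^ A / N (q + j)
          ≤ C * (((q : ℝ) + 1) * ((j : ℝ) + 1)) ^ A / (θ ^ j * N q) :=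
            div_le_div₀ (by positivity) (mul_le_mul_of_nonneg_left h4 hC) h3 h2
        _ = C * ((q : ℝ) + 1) ^ A / (N q * t ^ j) * ((((j : ℝ) + 1)) ^ A / t ^ j) := by
            rw [h6, mul_pow]
            field_simp
        _ ≤ C * ((q : ℝ) + 1) ^ A / (N q * t ^ g) * ((((j : ℝ) + 1)) ^ A / t ^ j) := by
            refine mul_le_mul_of_nonneg_right ?_ (hf0 j)
            refine div_le_div_of_nonneg_left (by positivity) (by positivity) ?_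
            exact mul_le_mul_of_nonneg_left h7 hNq.le
    · rw [if_neg h1]
      split_ifs
      · exact mul_nonneg hc0 (hf0 _)
      · exact le_rfl
  calc ser N (q + g) (fun k => C * ((k : ℝ) + 1) ^ A) * N q
      ≤ (c * ∑' j : ℕ, ((j : ℝ) + 1) ^ A / t ^ j) * N q :=
        mul_le_mul_of_nonneg_right hle hNq.le
    _ = C * (∑' j : ℕ, ((j : ℝ) + 1) ^ A / t ^ j) * ((q : ℝ) + 1) ^ A / t ^ g := by
        rw [hc]
        field_simp

theorem tail_exp {N : ℕ → ℝ} (hN : Bs N) (C : ℝ) (hC : 0 ≤ C) (A : ℕ) :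
    ∃ m₀ : ℕ, ∀ m : ℕ, m₀ ≤ m → ser N (Nat.sqrt m) (fun k => C * ((k : ℝ) + 1) ^ A) ≤
      Real.exp (-(m : ℝ) ^ (1 / 3 : ℝ)) := by
  obtain ⟨K, t, hK, ht, h⟩ := tail_gap hN C hC A
  have ht0 : (0 : ℝ) < t := by linarith
  have hN1 := hN.pos 1
  have hL : 0 < Real.log t := Real.log_pos ht
  obtain ⟨L, hLd⟩ : ∃ L : ℝ, L = Real.log t := ⟨_, rfl⟩
  rw [← hLd] at hL
  obtain ⟨D, hD⟩ : ∃ D : ℝ, D = K * (((1 : ℕ) : ℝ) + 1) ^ A / N 1 + 1 := ⟨_, rfl⟩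
  have hD0 : 0 < D := by rw [hD]; positivity
  have hD1 : 1 ≤ D := by
    rw [hD]
    have : 0 ≤ K * (((1 : ℕ) : ℝ) + 1) ^ A / N 1 := by positivity
    linarith
  have hlD : 0 ≤ Real.log D := Real.log_nonneg hD1
  obtain ⟨X, hX⟩ : ∃ X : ℝ, X = (Real.log D + 2 * L + 1) / L + 1 := ⟨_, rfl⟩
  have hX1 : 1 ≤ X := by
    rw [hX]
    have : 0 ≤ (Real.log D + 2 * L + 1) / L := by positivity
    linarith
  refine ⟨Nat.ceil (X ^ 6) + 1, fun m hm => ?_⟩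
  have hm1 : X ^ 6 ≤ m := by
    have h1 := Nat.le_ceil (X ^ 6)
    have h2 : ((Nat.ceil (X ^ 6) : ℕ) : ℝ) ≤ m := by exact_mod_cast (by omega : Nat.ceil (X ^ 6) ≤ m)
    linarith
  have hm0 : (0 : ℝ) ≤ m := Nat.cast_nonneg m
  obtain ⟨x, hx⟩ : ∃ x : ℝ, x = (m : ℝ) ^ (1 / 6 : ℝ) := ⟨_, rfl⟩
  have hx0 : 0 ≤ x := by rw [hx]; positivity
  have hx6 : x ^ 6 = m := by
    rw [hx, ← Real.rpow_natCast, ← Real.rpow_mul hm0]
    norm_num
  have hx2 : (m : ℝ) ^ (1 / 3 : ℝ) = x ^ 2 := by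
    rw [hx, ← Real.rpow_natCast, ← Real.rpow_mul hm0]
    norm_num
  have hXx : X ≤ x := by
    by_contra hc
    push Not at hc
    have := pow_lt_pow_left₀ hc hx0 (by norm_num : (6 : ℕ) ≠ 0)
    linarith
  have hx1 : 1 ≤ x := hX1.trans hXx
  have hsq : x ^ 3 < (Nat.sqrt m : ℝ) + 1 := by
    have h1 : m < (Nat.sqrt m + 1) ^ 2 := Nat.lt_succ_sqrt' m
    have h2 : (m : ℝ) < ((Nat.sqrt m : ℝ) + 1) ^ 2 := by exact_mod_cast h1
    have h3 : (x ^ 3) ^ 2 < ((Nat.sqrt m : ℝ) + 1) ^ 2 := by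
      rw [← pow_mul]
      norm_num
      rw [hx6]
      exact h2
    exact lt_of_pow_lt_pow_left₀ 2 (by positivity) h3
  have hs1 : 1 ≤ Nat.sqrt m := by
    have h1 : (1 : ℝ) ≤ x ^ 3 := one_le_pow₀ hx1
    have h2 : (0 : ℝ) < Nat.sqrt m := by linarith
    exact_mod_cast h2
  obtain ⟨g, hg⟩ : ∃ g : ℕ, Nat.sqrt m = 1 + g := ⟨Nat.sqrt m - 1, by omega⟩
  have h1 := h 1 g le_rfl
  rw [hg]
  have hgx : x ^ 3 - 2 ≤ (g : ℝ) := by
    have h2 : (Nat.sqrt m : ℝ) = 1 + g := by rw [hg]; push_cast; ring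
    linarith
  have h2 : ser N (1 + g) (fun k => C * ((k : ℝ) + 1) ^ A) ≤ D / t ^ g := by
    have h3 : ser N (1 + g) (fun k => C * ((k : ℝ) + 1) ^ A) ≤
        K * (((1 : ℕ) : ℝ) + 1) ^ A / t ^ g / N 1 := (le_div_iff₀ hN1).2 h1
    refine h3.trans ?_
    rw [div_right_comm]
    refine div_le_div_of_nonneg_right ?_ (by positivity)
    rw [hD]
    linarith
  refine h2.trans ?_
  rw [hx2, div_le_iff₀ (by positivity)]
  have e1 : t ^ g = Real.exp (L * g) := by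
    rw [hLd, mul_comm, Real.exp_nat_mul, Real.exp_log ht0]
  rw [e1, ← Real.exp_add, ← Real.log_le_iff_le_exp hD0]
  have e2 : L * (x ^ 3 - 2) ≤ L * g := mul_le_mul_of_nonneg_left hgx hL.le
  have e3 : Real.log D + 2 * L + 1 ≤ L * x := by
    have : (Real.log D + 2 * L + 1) / L ≤ x := by
      have := hXx
      rw [hX] at this
      linarith
    rw [div_le_iff₀ hL] at this
    linarith [mul_comm x L]
  have e4 : (Real.log D + 2 * L + 1) * x ^ 2 ≤ L * x * x ^ 2 :=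
    mul_le_mul_of_nonneg_right e3 (by positivity)
  have e5 : (1 : ℝ) ≤ x ^ 2 := one_le_pow₀ hx1
  have e6 : Real.log D + 2 * L ≤ (Real.log D + 2 * L) * x ^ 2 :=
    le_mul_of_one_le_right (by positivity) e5
  have e7 : L * x * x ^ 2 = L * x ^ 3 := by ring
  have e8 : (Real.log D + 2 * L + 1) * x ^ 2 = (Real.log D + 2 * L) * x ^ 2 + x ^ 2 := by ring
  have e9 : L * (x ^ 3 - 2) = L * x ^ 3 - 2 * L := by ring
  linarith

end Pool.Agent.Helper59.PQ
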