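import Pool.Agent.Helper59.PQ.AntiA
import Pool.Agent.Helper59.PQ.TailQ
import Pool.Agent.Helper59.RG.Defs

/-!
# Block PQ-ANTIB: anti-concentration of the series

PROOF of `anti`.  `B k = C (k+1)^A`, `ρ = exp (- m^(1/5))`, `K = ⌊m^(1/6)⌋₊`, `g = ⌈G log K⌉₊` with a large constant `G`, and `q_j = ⌈K/2⌉ + j g` for `j ≤ M`, `M = ⌊K / (2 g)⌋₊ - 1`, so that `q_j ∈ [K/2, K]`,
`q_j ≥ q`, `q_j ≥ k₀` for `m` large (`k₀` from `hνx` with `η = x / 4`).
1. `2 (ρ + ser N (q_j + g) B) N (q_j) ≤ x / 2`: `ρ N (q_j) ≤ exp (- m^(1/5)) K^(D K) ≤ x / 8` by `hN.gr` (`D K log K ≤ D m^(1/6) log m`), and by `tail_gap`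
   `ser N (q_j + g) B * N (q_j) ≤ K' (q_j + 1)^A / θ'^g ≤ x / 8` if `θ'^g ≥ K^(A+1)`, i.e. `G log θ' ≥ A + 1`, and `K` is large.
2. `anti_one` with `w = k^(-1+δ) ≥ K^(-1+δ) =: w` for `k = q_j` (`k ≤ K`), and `anti_step`, descending induction on `j` from `κ = 1` at `j = M`: the probability for `q_0` is at most
   `(1 - w/2)^M ≤ exp (- M w / 2)`, and `M w ≥ (K / (4 g)) K^(-1+δ) = K^δ / (4 g) ≥ K^(δ/2)` for `K` large.
3. `anti_mono` from `q_0` to `q`.  `exp (- K^(δ/2) / 2) ≤ 1 / m^D` for `m` large (`K ≥ m^(1/6) / 2`).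
-/

namespace Pool.Agent.Helper59.PQ

open Finset MeasureTheory
open Pool.Agent.Helper59.RG (ser NT)

private theorem anti_iter1 {N B : ℕ → ℝ} (hN : ∀ k, 0 < N k) (hB : Summable fun k => B k / N k)
    (ν : ℕ → Measure ℝ) [∀ k, IsProbabilityMeasure (ν k)] (hνB : ∀ k, ∀ᵐ z ∂(ν k), |z| ≤ B k)
    (q q0 g M : ℕ) (hq : q ≤ q0) (hg : 1 ≤ g) (x ρ w : ℝ) (hw : w ≤ 1)
    (hI : ∀ j < M, 2 * (ρ + ser N (q0 + j * g + g) B) * N (q0 + j * g) ≤ x / 2)
    (h1 : ∀ j < M, ∀ c : ℝ, (ν (q0 + j * g)).real (Set.Icc c (c + x / 2)) ≤ 1 - w / 2) (y : ℝ) :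
    (Measure.infinitePi ν).real {z | |ser N q z - y| ≤ ρ} ≤ (1 - w / 2) ^ M := by
  have key : ∀ i ≤ M, ∀ y : ℝ,
      (Measure.infinitePi ν).real {z | |ser N (q0 + (M - i) * g) z - y| ≤ ρ} ≤
        (1 - w / 2) ^ i := by
    intro i
    induction i with
    | zero =>
      intro _ y
      rw [pow_zero]
      exact measureReal_le_one
    | succ i ih =>
      intro hi y
      have h2 := ih (by omega)
      have e1 : q0 + (M - i) * g = q0 + (M - (i + 1)) * g + g := by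
        have : M - i = (M - (i + 1)) + 1 := by omega
        rw [this]
        ring
      rw [e1] at h2
      have h3 := anti_step hN hB ν hνB (q0 + (M - (i + 1)) * g) g hg x ρ ((1 - w / 2) ^ i) w hw
        (pow_nonneg (by linarith) _) h2 (hI _ (by omega)) (h1 _ (by omega)) y
      rw [pow_succ, mul_comm _ (1 - w / 2)]
      exact h3
  refine anti_mono hN hB ν hνB q q0 hq ρ _ (fun y => ?_) y
  have h4 := key M le_rfl y
  rw [Nat.sub_self, zero_mul, add_zero] at h4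
  exact h4

private theorem log_small1 (c s : ℝ) (hs : 0 < s) :
    ∀ᶠ t : ℝ in Filter.atTop, c * Real.log t ≤ t ^ s := by
  have h1 := (isLittleO_log_rpow_atTop hs).bound (c := 1 / (|c| + 1)) (by positivity)
  filter_upwards [h1, Filter.eventually_ge_atTop (1 : ℝ)] with t h2 ht
  have h3 : 0 ≤ Real.log t := Real.log_nonneg ht
  have h4 : 0 ≤ t ^ s := Real.rpow_nonneg (by linarith) _
  rw [Real.norm_eq_abs, Real.norm_eq_abs, abs_of_nonneg h3, abs_of_nonneg h4] at h2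
  have h5 : (|c| + 1) * Real.log t ≤ t ^ s := by
    have h6 := mul_le_mul_of_nonneg_left h2 (by positivity : 0 ≤ |c| + 1)
    have h7 : (|c| + 1) * (1 / (|c| + 1) * t ^ s) = t ^ s := by
      field_simp
    rw [h7] at h6
    exact h6
  have h8 : c * Real.log t ≤ (|c| + 1) * Real.log t :=
    mul_le_mul_of_nonneg_right ((le_abs_self c).trans (by linarith)) h3
  exact h8.trans h5

private theorem log_sq_small1 (c s : ℝ) (hc : 0 ≤ c) (hs : 0 < s) :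
    ∀ᶠ t : ℝ in Filter.atTop, c * Real.log t ^ 2 ≤ t ^ s := by
  filter_upwards [log_small1 (c + 1) (s / 2) (by positivity), Filter.eventually_ge_atTop (1 : ℝ)]
    with t h1 ht
  have h3 : 0 ≤ Real.log t := Real.log_nonneg ht
  have h2 : ((c + 1) * Real.log t) ^ 2 ≤ (t ^ (s / 2)) ^ 2 :=
    pow_le_pow_left₀ (by positivity) h1 2
  have h4 : (t ^ (s / 2)) ^ 2 = t ^ s := by
    rw [← Real.rpow_natCast, ← Real.rpow_mul (by linarith)]
    congr 1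
    push_cast
    ring
  rw [h4] at h2
  have h5 : c * Real.log t ^ 2 ≤ ((c + 1) * Real.log t) ^ 2 := by
    rw [mul_pow]
    refine mul_le_mul_of_nonneg_right ?_ (by positivity)
    nlinarith
  exact h5.trans h2

private theorem anti_asy1 {N : ℕ → ℝ} (hN : NT N) (C : ℝ) (hC : 0 ≤ C) (A : ℕ) (x δ : ℝ)
    (hx : 0 < x) (hδ0 : 0 < δ) (hδ1 : δ ≤ 1 / 4) (ν : ℕ → Measure ℝ)
    [∀ k, IsProbabilityMeasure (ν k)]
    (hνB : ∀ k : ℕ, ∀ᵐ z ∂(ν k), |z| ≤ C * ((k : ℝ) + 1) ^ A)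
    (hνx : ∀ η : ℝ, 0 < η → ∃ k₀ : ℕ, ∀ k : ℕ, k₀ ≤ k →
      (k : ℝ) ^ (-1 + δ) ≤ ((ν k).prod (ν k)).real {p : ℝ × ℝ | |p.1 - p.2 - x| ≤ η})
    (q D : ℕ) : ∃ K₀ : ℕ, ∀ K : ℕ, K₀ ≤ K → ∀ ρ : ℝ,
      ρ ≤ Real.exp (-(K : ℝ) ^ (6 / 5 : ℝ)) → ∀ y : ℝ,
      (Measure.infinitePi ν).real {z | |ser N q z - y| ≤ ρ} ≤ 1 / ((K : ℝ) + 1) ^ (6 * D) := by
  obtain ⟨D1, k₁, hgr⟩ := hN.gr
  obtain ⟨K', θ', hK', hθ', hgap⟩ := tail_gap hN.bs C hC A
  obtain ⟨k₀, hk₀⟩ := hνx (x / 4) (by positivity)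
  have hlθ : 0 < Real.log θ' := Real.log_pos hθ'
  obtain ⟨G, hG⟩ : ∃ G : ℝ, G = ((A : ℝ) + 1) / Real.log θ' := ⟨_, rfl⟩
  have hG0 : 0 < G := by
    rw [hG]
    positivity
  have hGθ : G * Real.log θ' = (A : ℝ) + 1 := by
    rw [hG]
    field_simp
  have hev : ∀ᶠ t : ℝ in Filter.atTop, (2 * D1 : ℝ) * Real.log t ≤ t ^ (1 / 5 : ℝ) ∧
      -2 * Real.log (x / 8) ≤ t ∧ 8 * (K' * 2 ^ A) / x ≤ t ∧
      (16 * G) * Real.log t ≤ t ^ (1 : ℝ) ∧
      (192 * D * (G + 1)) * Real.log t ^ 2 ≤ t ^ δ ∧ Real.exp 1 ≤ t ∧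
      (2 * k₀ + 2 * k₁ + 2 * q + 16 : ℝ) ≤ t := by
    filter_upwards [log_small1 (2 * D1 : ℝ) (1 / 5) (by norm_num),
      Filter.eventually_ge_atTop (-2 * Real.log (x / 8)),
      Filter.eventually_ge_atTop (8 * (K' * 2 ^ A) / x),
      log_small1 (16 * G) 1 (by norm_num),
      log_sq_small1 (192 * D * (G + 1)) δ (by positivity) hδ0,
      Filter.eventually_ge_atTop (Real.exp 1),
      Filter.eventually_ge_atTop (2 * k₀ + 2 * k₁ + 2 * q + 16 : ℝ)] with t h1 h2 h3 h4 h5 h6 h7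
    exact ⟨h1, h2, h3, h4, h5, h6, h7⟩
  have hev' := (tendsto_natCast_atTop_atTop (R := ℝ)).eventually hev
  obtain ⟨K₀, hK₀⟩ := Filter.eventually_atTop.1 hev'
  refine ⟨K₀, fun K hK ρ hρ y => ?_⟩
  obtain ⟨e1, e2, e3, e4, e5, e6, e7⟩ := hK₀ K hK
  have hk₀0 : (0 : ℝ) ≤ k₀ := Nat.cast_nonneg _
  have hk₁0 : (0 : ℝ) ≤ k₁ := Nat.cast_nonneg _
  have hq0 : (0 : ℝ) ≤ q := Nat.cast_nonneg _
  have hK16 : (16 : ℝ) ≤ K := by linarith
  have hKpos : (0 : ℝ) < K := by linarith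
  have hK1 : (1 : ℝ) ≤ K := by linarith
  have hlK : 1 ≤ Real.log K := by
    rw [← Real.log_exp 1]
    exact Real.log_le_log (Real.exp_pos 1) e6
  have hKn : 2 * k₀ + 2 * k₁ + 2 * q + 16 ≤ K := by exact_mod_cast e7
  rw [Real.rpow_one] at e4
  -- the gap
  obtain ⟨g, hg⟩ : ∃ g : ℕ, g = ⌈G * Real.log K⌉₊ := ⟨_, rfl⟩
  have hGl : 0 < G * Real.log K := by positivity
  have hg1 : G * Real.log K ≤ g := by
    rw [hg]
    exact Nat.le_ceil _
  have hg2 : (g : ℝ) < G * Real.log K + 1 := by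
    rw [hg]
    exact Nat.ceil_lt_add_one hGl.le
  have hg0 : 1 ≤ g := by
    have : (0 : ℝ) < g := lt_of_lt_of_le hGl hg1
    exact_mod_cast this
  have hgpos : (0 : ℝ) < g := by exact_mod_cast hg0
  have hg3 : (g : ℝ) ≤ (G + 1) * Real.log K := by nlinarith
  have hg8 : 8 * (g : ℝ) ≤ K := by nlinarith
  obtain ⟨M, hM⟩ : ∃ M : ℕ, M = K / (4 * g) := ⟨_, rfl⟩
  have hM1 : M * g * 4 ≤ K := by
    have := Nat.div_mul_le_self K (4 * g)
    rw [← hM] at this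
    calc M * g * 4 = M * (4 * g) := by ring
      _ ≤ K := this
  have hM2 : (K : ℝ) < 4 * g * (M + 1) := by
    have := Nat.lt_mul_div_succ K (show 0 < 4 * g by omega)
    rw [← hM] at this
    exact_mod_cast this
  have hM3 : (K : ℝ) ≤ 8 * g * M := by nlinarith
  obtain ⟨w, hw⟩ : ∃ w : ℝ, w = (K : ℝ) ^ (-1 + δ) := ⟨_, rfl⟩
  have hwpos : 0 < w := by
    rw [hw]
    positivity
  have hw1 : w ≤ 1 := by
    rw [hw]
    exact Real.rpow_le_one_of_one_le_of_nonpos hK1 (by linarith)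
  have hKw : (K : ℝ) * w = (K : ℝ) ^ δ := by
    rw [hw]
    nth_rewrite 1 [← Real.rpow_one (K : ℝ)]
    rw [← Real.rpow_add hKpos]
    congr 1
    ring
  -- the final estimate
  have hfin : (1 - w / 2) ^ M ≤ 1 / ((K : ℝ) + 1) ^ (6 * D) := by
    have h1 : (1 - w / 2) ^ M ≤ Real.exp (-(w / 2)) ^ M :=
      pow_le_pow_left₀ (by linarith) (Real.one_sub_le_exp_neg _) M
    rw [← Real.exp_nat_mul] at h1
    refine h1.trans ?_
    have h2 : Real.log ((K : ℝ) + 1) ≤ 2 * Real.log K := by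
      have h3 : Real.log ((K : ℝ) + 1) ≤ Real.log ((K : ℝ) ^ 2) :=
        Real.log_le_log (by positivity) (by nlinarith)
      rw [Real.log_pow] at h3
      push_cast at h3
      exact h3
    have h4 : (6 * D : ℝ) * Real.log ((K : ℝ) + 1) ≤ M * (w / 2) := by
      have hD : (0 : ℝ) ≤ D := Nat.cast_nonneg _
      have h5 : (6 * D : ℝ) * Real.log ((K : ℝ) + 1) ≤ 12 * D * Real.log K := by nlinarith
      have h6 : 16 * g * (12 * D * Real.log K) ≤ (K : ℝ) ^ δ := by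
        have h7 : 16 * (g : ℝ) * (12 * D * Real.log K) ≤
            16 * ((G + 1) * Real.log K) * (12 * D * Real.log K) :=
          mul_le_mul_of_nonneg_right (by linarith) (by positivity)
        refine h7.trans (le_trans (le_of_eq ?_) e5)
        ring
      have h8 : (K : ℝ) ^ δ ≤ 16 * g * (M * (w / 2)) := by
        rw [← hKw]
        have := mul_le_mul_of_nonneg_right hM3 hwpos.le
        linarith
      have h9 : 16 * (g : ℝ) * (12 * D * Real.log K) ≤ 16 * g * (M * (w / 2)) := h6.trans h8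
      exact h5.trans (le_of_mul_le_mul_left h9 (by positivity))
    have h10 : (M : ℝ) * -(w / 2) ≤ -((6 * D : ℕ) * Real.log ((K : ℝ) + 1)) := by
      push_cast
      linarith
    refine (Real.exp_le_exp.mpr h10).trans (le_of_eq ?_)
    rw [Real.exp_neg, Real.exp_nat_mul, Real.exp_log (by positivity), one_div]
  have hT := RG.tail_summable hN.bs C A
  refine (anti_iter1 (B := fun k => C * ((k : ℝ) + 1) ^ A) hN.bs.pos hT ν hνB q ((K + 1) / 2) g M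
    (by omega) hg0 x ρ w hw1 ?_ ?_ y).trans hfin
  · intro j hj
    have hjM : (j + 1) * g ≤ M * g := Nat.mul_le_mul_right g hj
    rw [add_mul, one_mul] at hjM
    obtain ⟨Q, hQ⟩ : ∃ Q : ℕ, Q = (K + 1) / 2 + j * g := ⟨_, rfl⟩
    rw [← hQ]
    have hQK : Q + g ≤ K := by omega
    have hQ1 : 1 ≤ Q := by omega
    have hQk : k₁ ≤ Q := by omega
    have hQr : (Q : ℝ) + 1 ≤ 2 * K := by
      have : (Q : ℝ) ≤ K := by exact_mod_cast (by omega : Q ≤ K)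
      linarith
    have hNQ := hN.bs.pos Q
    have h1 : ρ * N Q ≤ x / 8 := by
      have h2 : N Q ≤ (K : ℝ) ^ (D1 * K) := by
        refine (hgr Q hQk).trans ?_
        have h3 : (Q : ℝ) ^ (D1 * Q) ≤ (K : ℝ) ^ (D1 * Q) :=
          pow_le_pow_left₀ (Nat.cast_nonneg _) (by exact_mod_cast (by omega : Q ≤ K)) _
        exact h3.trans (pow_le_pow_right₀ hK1 (Nat.mul_le_mul_left D1 (by omega)))
      have h4 : (K : ℝ) ^ (D1 * K) = Real.exp ((D1 * K : ℕ) * Real.log K) := by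
        rw [Real.exp_nat_mul, Real.exp_log hKpos]
      have h5 : ρ * N Q ≤ Real.exp (-(K : ℝ) ^ (6 / 5 : ℝ)) * (K : ℝ) ^ (D1 * K) :=
        (mul_le_mul_of_nonneg_right hρ hNQ.le).trans
          (mul_le_mul_of_nonneg_left h2 (Real.exp_pos _).le)
      rw [h4, ← Real.exp_add] at h5
      refine h5.trans ?_
      have h6 : (K : ℝ) ^ (6 / 5 : ℝ) = K * (K : ℝ) ^ (1 / 5 : ℝ) := by
        nth_rewrite 2 [← Real.rpow_one (K : ℝ)]
        rw [← Real.rpow_add hKpos]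
        congr 1
        norm_num
      have h7 : (1 : ℝ) ≤ (K : ℝ) ^ (1 / 5 : ℝ) := Real.one_le_rpow hK1 (by norm_num)
      have h8 : -(K : ℝ) ^ (6 / 5 : ℝ) + (D1 * K : ℕ) * Real.log K ≤ Real.log (x / 8) := by
        rw [h6]
        push_cast
        have h9 := mul_le_mul_of_nonneg_left e1 hKpos.le
        have h10 := mul_le_mul_of_nonneg_left h7 hKpos.le
        nlinarith
      refine (Real.exp_le_exp.mpr h8).trans (le_of_eq ?_)
      exact Real.exp_log (by positivity)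
    have h2 : ser N (Q + g) (fun k => C * ((k : ℝ) + 1) ^ A) * N Q ≤ x / 8 := by
      refine (hgap Q g hQ1).trans ?_
      have h3 : (K : ℝ) ^ (A + 1) ≤ θ' ^ g := by
        have h4 : (K : ℝ) ^ (A + 1) = Real.exp ((A + 1 : ℕ) * Real.log K) := by
          rw [Real.exp_nat_mul, Real.exp_log hKpos]
        have h5 : θ' ^ g = Real.exp ((g : ℕ) * Real.log θ') := by
          rw [Real.exp_nat_mul, Real.exp_log (by linarith)]
        rw [h4, h5]
        refine Real.exp_le_exp.mpr ?_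
        push_cast
        rw [← hGθ]
        have h6 := mul_le_mul_of_nonneg_right hg1 hlθ.le
        linarith
      have h4 : K' * ((Q : ℝ) + 1) ^ A / θ' ^ g ≤ K' * (2 * K) ^ A / (K : ℝ) ^ (A + 1) := by
        refine div_le_div₀ (by positivity) ?_ (by positivity) h3
        exact mul_le_mul_of_nonneg_left (pow_le_pow_left₀ (by positivity) hQr A) hK'
      refine h4.trans ?_
      have h5 : K' * (2 * (K : ℝ)) ^ A / (K : ℝ) ^ (A + 1) = K' * 2 ^ A / K := by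
        rw [mul_pow, pow_succ]
        field_simp
      rw [h5, div_le_iff₀ hKpos]
      rw [div_le_iff₀ hx] at e3
      linarith
    have h3 : 2 * (ρ + ser N (Q + g) (fun k => C * ((k : ℝ) + 1) ^ A)) * N Q =
        2 * (ρ * N Q) + 2 * (ser N (Q + g) (fun k => C * ((k : ℝ) + 1) ^ A) * N Q) := by ring
    rw [h3]
    linarith
  · intro j hj c
    have hjM : (j + 1) * g ≤ M * g := Nat.mul_le_mul_right g hj
    rw [add_mul, one_mul] at hjM
    obtain ⟨Q, hQ⟩ : ∃ Q : ℕ, Q = (K + 1) / 2 + j * g := ⟨_, rfl⟩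
    rw [← hQ]
    have hQK : Q + g ≤ K := by omega
    have hQ1 : 1 ≤ Q := by omega
    have hQk : k₀ ≤ Q := by omega
    have hQpos : (0 : ℝ) < Q := by exact_mod_cast hQ1
    have h1 : w ≤ (Q : ℝ) ^ (-1 + δ) := by
      rw [hw]
      exact Real.rpow_le_rpow_of_nonpos hQpos (by exact_mod_cast (by omega : Q ≤ K))
        (by linarith)
    exact anti_one (ν Q) x (x / 4) w (by linarith) (h1.trans (hk₀ Q hQk)) c

theorem anti {N : ℕ → ℝ} (hN : NT N) (C : ℝ) (hC : 0 ≤ C) (A : ℕ) (x δ : ℝ) (hx : 0 < x)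
    (hδ0 : 0 < δ) (hδ1 : δ ≤ 1 / 4) (ν : ℕ → Measure ℝ) [∀ k, IsProbabilityMeasure (ν k)]
    (hνB : ∀ k : ℕ, ∀ᵐ z ∂(ν k), |z| ≤ C * ((k : ℝ) + 1) ^ A)
    (hνx : ∀ η : ℝ, 0 < η → ∃ k₀ : ℕ, ∀ k : ℕ, k₀ ≤ k →
      (k : ℝ) ^ (-1 + δ) ≤ ((ν k).prod (ν k)).real {p : ℝ × ℝ | |p.1 - p.2 - x| ≤ η})
    (q D : ℕ) : ∃ m₀ : ℕ, ∀ m : ℕ, m₀ ≤ m → ∀ y : ℝ,
      (Measure.infinitePi ν).real {z | |ser N q z - y| ≤ Real.exp (-(m : ℝ) ^ (1 / 5 : ℝ))} ≤
        1 / (m : ℝ) ^ D := by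
  obtain ⟨K₀, hK₀⟩ := anti_asy1 hN C hC A x δ hx hδ0 hδ1 ν hνB hνx q D
  refine ⟨K₀ ^ 6 + 1, fun m hm y => ?_⟩
  have hmpos : (0 : ℝ) < m := by exact_mod_cast (by omega : 0 < m)
  obtain ⟨K, hK⟩ : ∃ K : ℕ, K = ⌊(m : ℝ) ^ (1 / 6 : ℝ)⌋₊ := ⟨_, rfl⟩
  have h0 : 0 ≤ (m : ℝ) ^ (1 / 6 : ℝ) := by positivity
  have h6 : ((m : ℝ) ^ (1 / 6 : ℝ)) ^ 6 = m := by
    rw [← Real.rpow_natCast, ← Real.rpow_mul hmpos.le]
    norm_num
  have h1 : (K : ℝ) ≤ (m : ℝ) ^ (1 / 6 : ℝ) := by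
    rw [hK]
    exact Nat.floor_le h0
  have h2 : (m : ℝ) ^ (1 / 6 : ℝ) < K + 1 := by
    rw [hK]
    exact Nat.lt_floor_add_one _
  have h3 : (K : ℝ) ^ 6 ≤ m := by
    rw [← h6]
    exact pow_le_pow_left₀ (Nat.cast_nonneg _) h1 6
  have h4 : (m : ℝ) ≤ ((K : ℝ) + 1) ^ 6 := by
    rw [← h6]
    exact pow_le_pow_left₀ h0 h2.le 6
  have h5 : K₀ ≤ K := by
    by_contra hcon
    push Not at hcon
    have h7 : m ≤ (K + 1) ^ 6 := by exact_mod_cast h4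
    have h8 : (K + 1) ^ 6 ≤ K₀ ^ 6 := Nat.pow_le_pow_left hcon 6
    omega
  have h7 : Real.exp (-(m : ℝ) ^ (1 / 5 : ℝ)) ≤ Real.exp (-(K : ℝ) ^ (6 / 5 : ℝ)) := by
    refine Real.exp_le_exp.mpr (neg_le_neg ?_)
    have h8 : (K : ℝ) ^ (6 / 5 : ℝ) = ((K : ℝ) ^ 6) ^ (1 / 5 : ℝ) := by
      rw [← Real.rpow_natCast, ← Real.rpow_mul (Nat.cast_nonneg _)]
      norm_num
    rw [h8]
    exact Real.rpow_le_rpow (by positivity) h3 (by norm_num)
  refine (hK₀ K h5 _ h7 y).trans ?_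
  refine one_div_le_one_div_of_le (by positivity) ?_
  rw [pow_mul]
  exact pow_le_pow_left₀ hmpos.le h4 D

end Pool.Agent.Helper59.PQ
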