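import Pool.Agent.Helper59.PQ.DefsW

/-!
# Block PQ-ASYE: the final bound is small

PROOF.  As `asyW` in `RF/AsyW.lean` (copy it), with the exponent `D` in the place of `6` and a number `E ≤ 1 / s^(D+4)` in the place of `1 / s^30`: `c = δ / (8 log (8 d))`,
`b = exp (- (D + 4) / c)`, `η = (b / 4)^(2^d)`, `(1 - κ)^Q ≤ η / 2`; `2 Q (2.02 d Q^d E) ≤ 2 Q (2.02 d Q^d / s^4) ≤ η / 2` for `s` large, so `gamE ≤ b / 4`; the sum is `≤ b / 2`, its `L`-th power is at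
most `b^(c log s - 1) = s^(-(D+4)) / b`, and `(2 d + 7) (L Q)² E ≤ (2 d + 7) Q² / s^(D+2)`.  The total is `≤ 1 / s^D` for `s` large.
* `es_big`: `exp (s^(1/3)) * K * s^D ≤ Es s = s^31 2^(sqrt s)` for `s` large: `s^(1/3) + log K + D log s ≤ (√s - 1) log 2`.
-/

namespace Pool.Agent.Helper59.PQ

open Finset Filter Topology
open Pool.Agent.Helper59.RF (Ln Es)

theorem asyE (δ t0 : ℝ) (hδ0 : 0 < δ) (hδ1 : δ ≤ 1 / 4) (ht0 : 0 < t0) (ht1 : t0 ≤ 6 / 25)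
    (d : ℕ) (hd : 2 ≤ d) (D : ℕ) : ∃ Q : ℕ, 1 ≤ Q ∧ ∃ S₀ : ℕ, ∀ s : ℕ, S₀ ≤ s → ∀ E : ℝ,
      0 ≤ E → E ≤ 1 / (s : ℝ) ^ (D + 4) → gamE t0 E d Q ≤ 1 ∧
      (gamE t0 E d Q + Q * ((s : ℝ) ^ (δ / 8) *
        (2 ^ (d + 1) * (s : ℝ) ^ (-(2 / 3 * δ)) + (s : ℝ) ^ (-δ)))) ^ Ln δ d s +
        (2 * d + 7) * (Ln δ d s * Q) ^ 2 * E ≤ 1 / (s : ℝ) ^ D := by
  classical
  have hd2 : (2 : ℝ) ≤ d := by exact_mod_cast hd
  have hlog : 1 ≤ Real.log (8 * (d : ℝ)) := by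
    have h1 : Real.exp 1 ≤ 8 * (d : ℝ) := by
      have := Real.exp_one_lt_d9
      linarith
    have := Real.log_le_log (Real.exp_pos 1) h1
    rwa [Real.log_exp] at this
  obtain ⟨c, hc⟩ : ∃ c : ℝ, c = δ / (8 * Real.log (8 * (d : ℝ))) := ⟨_, rfl⟩
  have hc0 : 0 < c := by rw [hc]; positivity
  have hc1 : c ≤ 1 := by
    rw [hc, div_le_one (by positivity)]
    linarith
  obtain ⟨m, hm⟩ : ∃ m : ℝ, m = (D : ℝ) + 4 := ⟨_, rfl⟩
  have hm0 : 0 < m := by rw [hm]; positivity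
  obtain ⟨b, hb⟩ : ∃ b : ℝ, b = Real.exp (-(m / c)) := ⟨_, rfl⟩
  have hb0 : 0 < b := by rw [hb]; exact Real.exp_pos _
  have hb1 : b ≤ 1 := by
    rw [hb, Real.exp_le_one_iff]
    have : 0 < m / c := by positivity
    linarith
  obtain ⟨e0, he0⟩ : ∃ e0 : ℝ, e0 = b / 4 := ⟨_, rfl⟩
  have he00 : 0 < e0 := by rw [he0]; positivity
  obtain ⟨η, hη⟩ : ∃ η : ℝ, η = e0 ^ (2 ^ d) := ⟨_, rfl⟩
  have hη0 : 0 < η := by rw [hη]; positivity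
  obtain ⟨κ, hκ⟩ : ∃ κ : ℝ, κ = 2 * t0 ^ 2 / 4 ^ d := ⟨_, rfl⟩
  have hκ0 : 0 < κ := by rw [hκ]; positivity
  have hκ1 : κ < 1 := by
    rw [hκ, div_lt_one (by positivity)]
    have h1 : (1 : ℝ) ≤ 4 ^ d := one_le_pow₀ (by norm_num)
    nlinarith
  obtain ⟨n, hn⟩ := exists_pow_lt_of_lt_one (show 0 < η / 2 by positivity) (show 1 - κ < 1 by linarith)
  refine ⟨n + 1, by omega, ?_⟩
  obtain ⟨Q, hQ⟩ : ∃ Q : ℕ, Q = n + 1 := ⟨_, rfl⟩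
  rw [← hQ]
  have hQp : (1 - κ) ^ Q ≤ η / 2 := by
    rw [hQ, pow_succ]
    have h1 : 0 ≤ (1 - κ) ^ n := pow_nonneg (by linarith) _
    calc (1 - κ) ^ n * (1 - κ) ≤ (1 - κ) ^ n * 1 := by
          apply mul_le_mul_of_nonneg_left _ h1
          linarith
      _ ≤ η / 2 := by rw [mul_one]; exact hn.le
  -- eventually statements
  have hcast : Tendsto (fun s : ℕ => (s : ℝ)) atTop atTop := tendsto_natCast_atTop_atTop
  have t1 : Tendsto (fun s : ℕ => 2 * (Q : ℝ) * (2.02 * d * (Q : ℝ) ^ d *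
      (1 / (s : ℝ) ^ (D + 4)))) atTop (𝓝 0) := by
    have h1 : Tendsto (fun s : ℕ => (1 : ℝ) / (s : ℝ) ^ (D + 4)) atTop (𝓝 0) := by
      have := (tendsto_pow_atTop (α := ℝ) (n := D + 4) (by omega)).comp hcast
      refine this.inv_tendsto_atTop.congr fun s => ?_
      simp [one_div]
    have h2 := (h1.const_mul (2.02 * d * (Q : ℝ) ^ d)).const_mul (2 * (Q : ℝ))
    simpa using h2
  have t2 : Tendsto (fun s : ℕ => (Q : ℝ) * ((s : ℝ) ^ (δ / 8) *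
        (2 ^ (d + 1) * (s : ℝ) ^ (-(2 / 3 * δ)) + (s : ℝ) ^ (-δ)))) atTop (𝓝 0) := by
    have h1 : Tendsto (fun s : ℕ => (s : ℝ) ^ (-(13 / 24 * δ))) atTop (𝓝 0) :=
      (tendsto_rpow_neg_atTop (show 0 < 13 / 24 * δ by positivity)).comp hcast
    have h2 : Tendsto (fun s : ℕ => (s : ℝ) ^ (-(7 / 8 * δ))) atTop (𝓝 0) :=
      (tendsto_rpow_neg_atTop (show 0 < 7 / 8 * δ by positivity)).comp hcast
    have h3 := ((h1.const_mul ((2 : ℝ) ^ (d + 1))).add h2).const_mul (Q : ℝ)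
    have h4 : Tendsto (fun s : ℕ => (Q : ℝ) * (2 ^ (d + 1) * (s : ℝ) ^ (-(13 / 24 * δ)) +
        (s : ℝ) ^ (-(7 / 8 * δ)))) atTop (𝓝 0) := by simpa using h3
    refine h4.congr' ?_
    filter_upwards [eventually_ge_atTop 1] with s hs
    have hs0 : (0 : ℝ) < s := by exact_mod_cast hs
    rw [mul_add ((s : ℝ) ^ (δ / 8)), mul_left_comm ((s : ℝ) ^ (δ / 8)), ← Real.rpow_add hs0,
      ← Real.rpow_add hs0]
    congr 4
    · ring
    · ring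
  have e1 := t1.eventually_le_const (show (0 : ℝ) < η / 2 by positivity)
  have e2 := t2.eventually_le_const he00
  have e3 := hcast.eventually_ge_atTop (2 * Real.exp (m / c))
  have e4 := hcast.eventually_ge_atTop (2 * ((2 * (d : ℝ) + 7) * (Q : ℝ) ^ 2))
  obtain ⟨S₀, hS₀⟩ := eventually_atTop.1 ((e1.and e2).and ((e3.and e4).and (eventually_ge_atTop 1)))
  refine ⟨S₀, fun s hs E hE0 hE1 => ?_⟩
  obtain ⟨⟨h1, h2⟩, ⟨h3, h4⟩, h5⟩ := hS₀ s hs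
  have hs1 : (1 : ℝ) ≤ s := by exact_mod_cast h5
  have hs0 : (0 : ℝ) < s := by linarith
  have h1' : 2 * (Q : ℝ) * (2.02 * d * (Q : ℝ) ^ d * E) ≤ η / 2 := by
    refine le_trans ?_ h1
    apply mul_le_mul_of_nonneg_left _ (by positivity)
    exact mul_le_mul_of_nonneg_left hE1 (by positivity)
  have hgam : gamE t0 E d Q ≤ e0 := by
    unfold gamE
    have hx : (1 - 2 * t0 ^ 2 / 4 ^ d) ^ Q + 2 * Q * (2.02 * d * Q ^ d * E) ≤ η := by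
      rw [← hκ]; linarith
    have hx0 : 0 ≤ (1 - 2 * t0 ^ 2 / 4 ^ d) ^ Q +
        2 * Q * (2.02 * d * Q ^ d * E) := by
      rw [← hκ]
      have : 0 ≤ (1 - κ) ^ Q := pow_nonneg (by linarith) _
      positivity
    have h6 := Real.rpow_le_rpow hx0 hx (show (0 : ℝ) ≤ 1 / 2 ^ d by positivity)
    have h7 : η ^ ((1 : ℝ) / 2 ^ d) = e0 := by
      rw [hη, one_div]
      have := Real.pow_rpow_inv_natCast he00.le (show (2 ^ d : ℕ) ≠ 0 by positivity)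
      push_cast at this
      exact this
    linarith
  have hgam0 : 0 ≤ gamE t0 E d Q := by
    unfold gamE
    apply Real.rpow_nonneg
    rw [← hκ]
    have : 0 ≤ (1 - κ) ^ Q := pow_nonneg (by linarith) _
    positivity
  refine ⟨by linarith, ?_⟩
  obtain ⟨B, hB⟩ : ∃ B : ℝ, B = gamE t0 E d Q + Q * ((s : ℝ) ^ (δ / 8) *
        (2 ^ (d + 1) * (s : ℝ) ^ (-(2 / 3 * δ)) + (s : ℝ) ^ (-δ))) := ⟨_, rfl⟩
  rw [← hB]
  have hB0 : 0 ≤ B := by rw [hB]; positivity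
  have hBb : B ≤ b := by rw [hB]; linarith
  obtain ⟨L, hL⟩ : ∃ L : ℕ, L = Ln δ d s := ⟨_, rfl⟩
  rw [← hL]
  have hlogs : 0 ≤ Real.log s := Real.log_nonneg hs1
  have hLdef : L = ⌊c * Real.log s⌋₊ := by rw [hL, hc, Ln]
  have hL1 : c * Real.log s - 1 ≤ L := by
    have := Nat.lt_floor_add_one (c * Real.log s)
    rw [← hLdef] at this
    linarith
  have hL2 : (L : ℝ) ≤ s := by
    have h6 := Nat.floor_le (show 0 ≤ c * Real.log s by positivity)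
    rw [← hLdef] at h6
    have h7 : c * Real.log s ≤ 1 * Real.log s := mul_le_mul_of_nonneg_right hc1 hlogs
    have h8 := Real.log_le_self hs0.le
    linarith
  have hA : B ^ L ≤ Real.exp (m / c) * (1 / (s : ℝ) ^ (D + 4)) := by
    calc B ^ L ≤ b ^ L := pow_le_pow_left₀ hB0 hBb L
      _ = Real.exp (-(m / c) * L) := by
          rw [hb, ← Real.exp_nat_mul]; ring_nf
      _ ≤ Real.exp (m / c + -(m * Real.log s)) := by
          apply Real.exp_le_exp.2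
          have h6 : (m / c) * (c * Real.log s - 1) ≤ (m / c) * L :=
            mul_le_mul_of_nonneg_left hL1 (by positivity)
          have h7 : (m / c) * (c * Real.log s - 1) = m * Real.log s - m / c := by
            field_simp
          linarith
      _ = Real.exp (m / c) * (1 / (s : ℝ) ^ (D + 4)) := by
          rw [Real.exp_add, Real.exp_neg]
          have : Real.exp (m * Real.log s) = (s : ℝ) ^ (D + 4) := by
            rw [show m * Real.log s = ((D + 4 : ℕ) : ℝ) * Real.log s by rw [hm]; push_cast; ring,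
              Real.exp_nat_mul, Real.exp_log hs0]
          rw [this, one_div]
  have hC : (2 * (d : ℝ) + 7) * (L * Q) ^ 2 * E ≤
      (2 * (d : ℝ) + 7) * (Q : ℝ) ^ 2 * (1 / (s : ℝ) ^ (D + 2)) := by
    have h6 : (L : ℝ) ^ 2 ≤ (s : ℝ) ^ 2 := pow_le_pow_left₀ (by positivity) hL2 2
    calc (2 * (d : ℝ) + 7) * (L * Q) ^ 2 * E
        ≤ (2 * (d : ℝ) + 7) * (L * Q) ^ 2 * (1 / (s : ℝ) ^ (D + 4)) :=
          mul_le_mul_of_nonneg_left hE1 (by positivity)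
      _ = ((2 * (d : ℝ) + 7) * (Q : ℝ) ^ 2 * (1 / (s : ℝ) ^ (D + 4))) * (L : ℝ) ^ 2 := by ring
      _ ≤ ((2 * (d : ℝ) + 7) * (Q : ℝ) ^ 2 * (1 / (s : ℝ) ^ (D + 4))) * (s : ℝ) ^ 2 :=
          mul_le_mul_of_nonneg_left h6 (by positivity)
      _ = (2 * (d : ℝ) + 7) * (Q : ℝ) ^ 2 * (1 / (s : ℝ) ^ (D + 2)) := by
          have h7 : (s : ℝ) ^ (D + 4) = (s : ℝ) ^ (D + 2) * (s : ℝ) ^ 2 := by
            rw [← pow_add]
          rw [h7]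
          field_simp
  have hs3 : (1 : ℝ) ≤ (s : ℝ) ^ 3 := one_le_pow₀ hs1
  have hA2 : Real.exp (m / c) * (1 / (s : ℝ) ^ (D + 4)) ≤ 1 / 2 * (1 / (s : ℝ) ^ D) := by
    rw [mul_one_div, mul_one_div, div_le_div_iff₀ (by positivity) (by positivity)]
    have h6 : 2 * Real.exp (m / c) ≤ (s : ℝ) ^ 4 := by
      calc 2 * Real.exp (m / c) ≤ (s : ℝ) * 1 := by linarith
        _ ≤ (s : ℝ) * (s : ℝ) ^ 3 := mul_le_mul_of_nonneg_left hs3 hs0.le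
        _ = (s : ℝ) ^ 4 := by ring
    calc Real.exp (m / c) * (s : ℝ) ^ D = 1 / 2 * ((2 * Real.exp (m / c)) * (s : ℝ) ^ D) := by ring
      _ ≤ 1 / 2 * ((s : ℝ) ^ 4 * (s : ℝ) ^ D) := by gcongr
      _ = 1 / 2 * (s : ℝ) ^ (D + 4) := by ring
  have hC2 : (2 * (d : ℝ) + 7) * (Q : ℝ) ^ 2 * (1 / (s : ℝ) ^ (D + 2)) ≤
      1 / 2 * (1 / (s : ℝ) ^ D) := by
    rw [mul_one_div, mul_one_div, div_le_div_iff₀ (by positivity) (by positivity)]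
    have h6 : 2 * ((2 * (d : ℝ) + 7) * (Q : ℝ) ^ 2) ≤ (s : ℝ) ^ 2 := by
      calc 2 * ((2 * (d : ℝ) + 7) * (Q : ℝ) ^ 2) ≤ (s : ℝ) * 1 := by linarith
        _ ≤ (s : ℝ) * (s : ℝ) := mul_le_mul_of_nonneg_left hs1 hs0.le
        _ = (s : ℝ) ^ 2 := by ring
    calc (2 * (d : ℝ) + 7) * (Q : ℝ) ^ 2 * (s : ℝ) ^ D
        = 1 / 2 * ((2 * ((2 * (d : ℝ) + 7) * (Q : ℝ) ^ 2)) * (s : ℝ) ^ D) := by ring
      _ ≤ 1 / 2 * ((s : ℝ) ^ 2 * (s : ℝ) ^ D) := by gcongr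
      _ = 1 / 2 * (s : ℝ) ^ (D + 2) := by ring
  calc B ^ L + (2 * (d : ℝ) + 7) * (L * Q) ^ 2 * E
      ≤ 1 / 2 * (1 / (s : ℝ) ^ D) + 1 / 2 * (1 / (s : ℝ) ^ D) := by linarith
    _ = 1 / (s : ℝ) ^ D := by ring

theorem es_big (K : ℝ) (D : ℕ) : ∃ S₀ : ℕ, ∀ s : ℕ, S₀ ≤ s →
    Real.exp ((s : ℝ) ^ (1 / 3 : ℝ)) * K * (s : ℝ) ^ D ≤ Es s := by
  have hcast : Tendsto (fun s : ℕ => (s : ℝ)) atTop atTop := tendsto_natCast_atTop_atTop
  obtain ⟨K', hK'⟩ : ∃ K' : ℝ, K' = max K 1 := ⟨_, rfl⟩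
  have hKK : K ≤ K' := by rw [hK']; exact le_max_left _ _
  have hK1 : 1 ≤ K' := by rw [hK']; exact le_max_right _ _
  have hlog2 : 0 < Real.log 2 := Real.log_pos (by norm_num)
  obtain ⟨l2, hl2⟩ : ∃ l2 : ℝ, l2 = Real.log 2 := ⟨_, rfl⟩
  have hl20 : 0 < l2 := by rw [hl2]; exact hlog2
  -- `s ^ (1/3) ≤ l2/4 * s ^ (1/2)`
  have a1 : ∀ᶠ s : ℕ in atTop, (s : ℝ) ^ (1 / 3 : ℝ) ≤ l2 / 4 * (s : ℝ) ^ (1 / 2 : ℝ) := by
    have h := ((tendsto_rpow_atTop (show (0 : ℝ) < 1 / 6 by norm_num)).comp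
      hcast).eventually_ge_atTop (4 / l2)
    filter_upwards [h, eventually_ge_atTop 1] with s hs hs1
    have hs0 : (0 : ℝ) < s := by exact_mod_cast hs1
    have hs' : 4 / l2 ≤ (s : ℝ) ^ (1 / 6 : ℝ) := hs
    have h5 : (s : ℝ) ^ (1 / 2 : ℝ) = (s : ℝ) ^ (1 / 3 : ℝ) * (s : ℝ) ^ (1 / 6 : ℝ) := by
      rw [← Real.rpow_add hs0]; norm_num
    have h6 : 1 ≤ l2 / 4 * (s : ℝ) ^ (1 / 6 : ℝ) := by
      calc (1 : ℝ) = l2 / 4 * (4 / l2) := by field_simp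
        _ ≤ l2 / 4 * (s : ℝ) ^ (1 / 6 : ℝ) := mul_le_mul_of_nonneg_left hs' (by positivity)
    have h7 : 0 ≤ (s : ℝ) ^ (1 / 3 : ℝ) := Real.rpow_nonneg hs0.le _
    calc (s : ℝ) ^ (1 / 3 : ℝ) = (s : ℝ) ^ (1 / 3 : ℝ) * 1 := by ring
      _ ≤ (s : ℝ) ^ (1 / 3 : ℝ) * (l2 / 4 * (s : ℝ) ^ (1 / 6 : ℝ)) :=
          mul_le_mul_of_nonneg_left h6 h7
      _ = l2 / 4 * (s : ℝ) ^ (1 / 2 : ℝ) := by rw [h5]; ring
  have a2 : ∀ᶠ s : ℕ in atTop, (D : ℝ) * Real.log s ≤ l2 / 4 * (s : ℝ) ^ (1 / 2 : ℝ) := by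
    have h := (isLittleO_log_rpow_atTop (show (0 : ℝ) < 1 / 2 by norm_num)).bound
      (show 0 < l2 / (4 * (D + 1)) by positivity)
    have h' := hcast.eventually h
    filter_upwards [h', eventually_ge_atTop 1] with s hs hs1
    have hs0 : (0 : ℝ) ≤ s := by positivity
    have hs1' : (1 : ℝ) ≤ s := by exact_mod_cast hs1
    have hl : 0 ≤ Real.log s := Real.log_nonneg hs1'
    rw [Real.norm_of_nonneg hl, Real.norm_of_nonneg (Real.rpow_nonneg hs0 _)] at hs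
    have hD : (0 : ℝ) ≤ D := by positivity
    calc (D : ℝ) * Real.log s ≤ (D + 1) * Real.log s := by nlinarith
      _ ≤ (D + 1) * (l2 / (4 * (D + 1)) * (s : ℝ) ^ (1 / 2 : ℝ)) :=
          mul_le_mul_of_nonneg_left hs (by positivity)
      _ = l2 / 4 * (s : ℝ) ^ (1 / 2 : ℝ) := by field_simp
  have a3 : ∀ᶠ s : ℕ in atTop, Real.log K' + l2 ≤ l2 / 4 * (s : ℝ) ^ (1 / 2 : ℝ) := by
    have h : Tendsto (fun s : ℕ => l2 / 4 * (s : ℝ) ^ (1 / 2 : ℝ)) atTop atTop :=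
      ((tendsto_rpow_atTop (show (0 : ℝ) < 1 / 2 by norm_num)).comp hcast).const_mul_atTop
        (by positivity)
    exact h.eventually_ge_atTop _
  obtain ⟨S₀, hS₀⟩ := eventually_atTop.1 ((a1.and a2).and (a3.and (eventually_ge_atTop 1)))
  refine ⟨S₀, fun s hs => ?_⟩
  obtain ⟨⟨h1, h2⟩, h3, h4⟩ := hS₀ s hs
  have hs1 : (1 : ℝ) ≤ s := by exact_mod_cast h4
  have hs0 : (0 : ℝ) < s := by linarith
  have hsq : (s : ℝ) ^ (1 / 2 : ℝ) ≤ Nat.sqrt s + 1 := by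
    rw [← Real.sqrt_eq_rpow]
    have h5 : s < (Nat.sqrt s + 1) * (Nat.sqrt s + 1) := Nat.lt_succ_sqrt s
    have h6 : (s : ℝ) ≤ ((Nat.sqrt s : ℝ) + 1) ^ 2 := by
      rw [sq]; exact_mod_cast h5.le
    calc Real.sqrt s ≤ Real.sqrt (((Nat.sqrt s : ℝ) + 1) ^ 2) := Real.sqrt_le_sqrt h6
      _ = (Nat.sqrt s : ℝ) + 1 := Real.sqrt_sq (by positivity)
  have hp0 : 0 ≤ (s : ℝ) ^ (1 / 2 : ℝ) := Real.rpow_nonneg hs0.le _
  have hexp : (s : ℝ) ^ (1 / 3 : ℝ) + Real.log K' + D * Real.log s ≤ Nat.sqrt s * l2 := by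
    have h5 : l2 * (s : ℝ) ^ (1 / 2 : ℝ) ≤ l2 * (Nat.sqrt s + 1) :=
      mul_le_mul_of_nonneg_left hsq hl20.le
    have h6 : 0 ≤ l2 * (s : ℝ) ^ (1 / 2 : ℝ) := by positivity
    nlinarith
  have hD : Real.exp (D * Real.log s) = (s : ℝ) ^ D := by
    rw [Real.exp_nat_mul, Real.exp_log hs0]
  have h2p : Real.exp (Nat.sqrt s * l2) = 2 ^ (Nat.sqrt s) := by
    rw [Real.exp_nat_mul, hl2, Real.exp_log (by norm_num)]
  calc Real.exp ((s : ℝ) ^ (1 / 3 : ℝ)) * K * (s : ℝ) ^ D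
      ≤ Real.exp ((s : ℝ) ^ (1 / 3 : ℝ)) * K' * (s : ℝ) ^ D := by gcongr
    _ = Real.exp ((s : ℝ) ^ (1 / 3 : ℝ) + Real.log K' + D * Real.log s) := by
        rw [Real.exp_add, Real.exp_add, Real.exp_log (by linarith), hD]
    _ ≤ Real.exp (Nat.sqrt s * l2) := Real.exp_le_exp.2 hexp
    _ = 1 * 2 ^ (Nat.sqrt s) := by rw [h2p, one_mul]
    _ ≤ Es s := by
        unfold Es
        apply mul_le_mul_of_nonneg_right (one_le_pow₀ hs1) (by positivity)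

end Pool.Agent.Helper59.PQ
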