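import Pool.Agent.Helper59.PQ.Suba

/-!
# Block PQ-BADP: the probability that the derivative is small

PROOF of `badp`.  `K1`, `m₁` from `suba`, `ℓ = 1 / m^K1`, `M = ⌈X1⌉₊ * m^K1 + 1` and `x_i = 1 + i ℓ` for `i < M`: the intervals `[x_i, x_i + ℓ]` cover `[1, X1]`.  If `x ∈ [x_i, x_i + ℓ]` then
`x^T ≤ x_i^T exp (2 m ℓ) ≤ 3 x_i^T` (`T ≤ 2 m`, `K1 ≥ 2`, `m` large), so the set in question is contained in the union of the sets
`S_i = {x ∈ [x_i, x_i + ℓ] | |Dq Q (d+1) x| ≤ exp (..) x_i^T}` (for the `i` with `x_i ≤ X1 + 1`; use `suba` with `X1 + 1`).  By `suba` and `cover` (`K = 2^J`) `S_i` is covered by `2^J` intervals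
`[x - ρ, x + ρ]`, so its measure is at most `2^J κ`.  Total `M 2^J κ ≤ m^K2 κ` with `K2 = K1 + 1` for `m` large (`κ ≥ 0`).
-/

namespace Pool.Agent.Helper59.PQ

open Finset Polynomial MeasureTheory

private theorem pow77 {m K1 T : ℕ} (hK : 2 ≤ K1) (hm : 2 ≤ m) (hT : T ≤ 2 * m) {x0 x : ℝ} (h1 : 1 ≤ x0)
    (h2 : x0 ≤ x) (h3 : x ≤ x0 + 1 / (m : ℝ) ^ K1) : x ^ T ≤ 3 * x0 ^ T := by
  have hm0 : (2 : ℝ) ≤ m := by exact_mod_cast hm
  have hl : 1 / (m : ℝ) ^ K1 ≤ 1 / (m : ℝ) ^ 2 :=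
    one_div_le_one_div_of_le (by positivity) (pow_le_pow_right₀ (by linarith) hK)
  have hx : x ≤ x0 * Real.exp (1 / (m : ℝ) ^ 2) := by
    have h4 := Real.add_one_le_exp (1 / (m : ℝ) ^ 2)
    have h5 : (0 : ℝ) ≤ 1 / (m : ℝ) ^ 2 := by positivity
    nlinarith
  have h6 : x ^ T ≤ (x0 * Real.exp (1 / (m : ℝ) ^ 2)) ^ T := pow_le_pow_left₀ (by linarith) hx T
  have h7 : Real.exp (1 / (m : ℝ) ^ 2) ^ T ≤ 3 := by
    rw [← Real.exp_nat_mul]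
    have h8 : (T : ℝ) * (1 / (m : ℝ) ^ 2) ≤ 1 := by
      rw [mul_one_div, div_le_one (by positivity)]
      have h9 : (T : ℝ) ≤ 2 * m := by exact_mod_cast hT
      nlinarith
    have h10 := Real.exp_le_exp.2 h8
    have h11 := Real.exp_one_lt_d9
    linarith
  rw [mul_pow] at h6
  have h12 : 0 ≤ x0 ^ T := pow_nonneg (by linarith) T
  nlinarith

theorem badp (J B d : ℕ) (c0 X1 : ℝ) (hc0 : 0 < c0) :
    ∃ K2 m₁ : ℕ, ∀ m : ℕ, m₁ ≤ m → ∀ Q : ℝ[X], QC J B m c0 Q →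
      ∀ (lam : Measure ℝ) [IsProbabilityMeasure lam] (κ : ℝ),
      (∀ y : ℝ, lam.real {x | |x - y| ≤ Real.exp (-(m : ℝ) ^ (1 / 5 : ℝ))} ≤ κ) →
      lam.real {x | 1 ≤ x ∧ x ≤ X1 ∧
        |Dq Q (d + 1) x| ≤ Real.exp (-(m : ℝ) ^ (1 / 4 : ℝ) / 4) / 3 * x ^ Q.natDegree} ≤
        (m : ℝ) ^ K2 * κ := by
  obtain ⟨K1, m₁, hK1, hs⟩ := suba J B d c0 (X1 + 1) hc0
  refine ⟨K1 + 1, max m₁ (max 2 ((⌈X1⌉₊ + 1) * 2 ^ J)), ?_⟩
  intro m hm Q hQ lam _ κ hκ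
  have hm1 : m₁ ≤ m := (le_max_left _ _).trans hm
  have hm2 : 2 ≤ m := ((le_max_left _ _).trans (le_max_right _ _)).trans hm
  have hm3 : (⌈X1⌉₊ + 1) * 2 ^ J ≤ m := ((le_max_right _ _).trans (le_max_right _ _)).trans hm
  have hmR : (2 : ℝ) ≤ m := by exact_mod_cast hm2
  set ρ := Real.exp (-(m : ℝ) ^ (1 / 5 : ℝ)) with hρ
  set η := Real.exp (-(m : ℝ) ^ (1 / 4 : ℝ) / 4) with hη
  have hρ0 : 0 < ρ := Real.exp_pos _
  have hη0 : 0 < η := Real.exp_pos _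
  have hκ0 : 0 ≤ κ := le_trans measureReal_nonneg (hκ 0)
  have hmK : (0 : ℝ) < (m : ℝ) ^ K1 := by positivity
  set xi : ℕ → ℝ := fun i => 1 + i * (1 / (m : ℝ) ^ K1) with hxi
  set S : ℕ → Set ℝ := fun i => {x | x ∈ Set.Icc (xi i) (xi i + 1 / (m : ℝ) ^ K1) ∧
    |Dq Q (d + 1) x| ≤ η * (xi i) ^ Q.natDegree} with hS
  have hx1 : ∀ i, 1 ≤ xi i := fun i => by
    have : (0 : ℝ) ≤ i * (1 / (m : ℝ) ^ K1) := by positivity
    simp only [hxi]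
    linarith
  have hSi : ∀ i, lam.real (S i ∩ {x | x ≤ X1}) ≤ 2 ^ J * κ := by
    intro i
    by_cases hi : xi i ≤ X1 + 1
    · obtain ⟨c, hc1, hc2⟩ := cover (S i) ρ hρ0 (2 ^ J) Nat.one_le_two_pow (by
        rintro ⟨t, ht1, ht2⟩
        exact hs m hm1 Q hQ (xi i) (hx1 i) hi t (fun j hj => ht1 j hj) ht2)
      have h1 : S i ∩ {x | x ≤ X1} ⊆ ⋃ y ∈ c, {x | |x - y| ≤ ρ} := by
        intro x hx
        obtain ⟨y, hy, hxy⟩ := hc2 x hx.1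
        simp only [Set.mem_iUnion]
        have g1 := hxy.1
        have g2 := hxy.2
        have g3 : |x - y| ≤ ρ := abs_le.2 ⟨by linarith, by linarith⟩
        exact ⟨y, hy, g3⟩
      calc lam.real (S i ∩ {x | x ≤ X1}) ≤ lam.real (⋃ y ∈ c, {x | |x - y| ≤ ρ}) := measureReal_mono h1 (measure_ne_top lam _)
        _ ≤ ∑ y ∈ c, lam.real {x | |x - y| ≤ ρ} := measureReal_biUnion_finset_le _ _
        _ ≤ ∑ _y ∈ c, κ := Finset.sum_le_sum fun y _ => hκ y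
        _ = c.card * κ := by rw [Finset.sum_const, nsmul_eq_mul]
        _ ≤ 2 ^ J * κ := mul_le_mul_of_nonneg_right (by exact_mod_cast hc1) hκ0
    · have h1 : S i ∩ {x | x ≤ X1} = ∅ := by
        ext x
        simp only [Set.mem_inter_iff, Set.mem_ofPred_eq, Set.mem_empty_iff_false, iff_false, not_and]
        intro hx hxX
        have := hx.1.1
        linarith
      rw [h1, measureReal_empty]
      positivity
  have hsub : {x | 1 ≤ x ∧ x ≤ X1 ∧ |Dq Q (d + 1) x| ≤ η / 3 * x ^ Q.natDegree} ⊆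
      ⋃ i ∈ Finset.range (⌈X1⌉₊ * m ^ K1 + 1), (S i ∩ {x | x ≤ X1}) := by
    rintro x ⟨h1, h2, h3⟩
    have hX0 : 0 ≤ (x - 1) * (m : ℝ) ^ K1 := by
      have : 0 ≤ x - 1 := by linarith
      positivity
    have hf1 := Nat.floor_le hX0
    have hf2 := Nat.lt_floor_add_one ((x - 1) * (m : ℝ) ^ K1)
    set i := ⌊(x - 1) * (m : ℝ) ^ K1⌋₊ with hi
    have g1 : xi i ≤ x := by
      simp only [hxi]
      rw [mul_one_div]
      have : (i : ℝ) / (m : ℝ) ^ K1 ≤ x - 1 := by rw [div_le_iff₀ hmK]; exact hf1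
      linarith
    have g2 : x ≤ xi i + 1 / (m : ℝ) ^ K1 := by
      simp only [hxi]
      rw [mul_one_div, add_assoc, ← add_div]
      have : x - 1 ≤ ((i : ℝ) + 1) / (m : ℝ) ^ K1 := by rw [le_div_iff₀ hmK]; exact hf2.le
      linarith
    simp only [Set.mem_iUnion]
    refine ⟨i, ?_, ⟨⟨g1, g2⟩, ?_⟩, h2⟩
    · rw [Finset.mem_range]
      have : (i : ℝ) < (⌈X1⌉₊ * m ^ K1 + 1 : ℕ) := by
        push_cast
        have h4 := Nat.le_ceil X1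
        have h5 : (x - 1) * (m : ℝ) ^ K1 ≤ ⌈X1⌉₊ * (m : ℝ) ^ K1 :=
          mul_le_mul_of_nonneg_right (by linarith) hmK.le
        linarith
      exact_mod_cast this
    · have h4 := pow77 hK1 hm2 hQ.d2 (hx1 i) g1 g2
      calc |Dq Q (d + 1) x| ≤ η / 3 * x ^ Q.natDegree := h3
        _ ≤ η / 3 * (3 * xi i ^ Q.natDegree) := mul_le_mul_of_nonneg_left h4 (by positivity)
        _ = η * xi i ^ Q.natDegree := by ring
  calc lam.real {x | 1 ≤ x ∧ x ≤ X1 ∧ |Dq Q (d + 1) x| ≤ η / 3 * x ^ Q.natDegree}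
      ≤ lam.real (⋃ i ∈ Finset.range (⌈X1⌉₊ * m ^ K1 + 1), (S i ∩ {x | x ≤ X1})) :=
        measureReal_mono hsub (measure_ne_top lam _)
    _ ≤ ∑ i ∈ Finset.range (⌈X1⌉₊ * m ^ K1 + 1), lam.real (S i ∩ {x | x ≤ X1}) :=
        measureReal_biUnion_finset_le _ _
    _ ≤ ∑ _i ∈ Finset.range (⌈X1⌉₊ * m ^ K1 + 1), (2 : ℝ) ^ J * κ := Finset.sum_le_sum fun i _ => hSi i
    _ = ((⌈X1⌉₊ : ℝ) * (m : ℝ) ^ K1 + 1) * 2 ^ J * κ := by
        rw [Finset.sum_const, Finset.card_range, nsmul_eq_mul]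
        push_cast
        ring
    _ ≤ (m : ℝ) ^ (K1 + 1) * κ := by
        refine mul_le_mul_of_nonneg_right ?_ hκ0
        have h1 : (1 : ℝ) ≤ (m : ℝ) ^ K1 := one_le_pow₀ (by linarith)
        have h2 : ((⌈X1⌉₊ : ℝ) + 1) * 2 ^ J ≤ m := by exact_mod_cast hm3
        have h3 : (0 : ℝ) < 2 ^ J := by positivity
        calc ((⌈X1⌉₊ : ℝ) * (m : ℝ) ^ K1 + 1) * 2 ^ J
            ≤ ((⌈X1⌉₊ : ℝ) * (m : ℝ) ^ K1 + (m : ℝ) ^ K1) * 2 ^ J :=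
              mul_le_mul_of_nonneg_right (by linarith) h3.le
          _ = (((⌈X1⌉₊ : ℝ) + 1) * 2 ^ J) * (m : ℝ) ^ K1 := by ring
          _ ≤ m * (m : ℝ) ^ K1 := mul_le_mul_of_nonneg_right h2 (by positivity)
          _ = (m : ℝ) ^ (K1 + 1) := by ring

end Pool.Agent.Helper59.PQ
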