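import Pool.Agent.Helper59.PQ.PtE
import Pool.Agent.Helper59.RG.CorrE

/-!
# Block PQ-CORREE: the average over all digits

PROOF.  As `corrE` in `RG/CorrE.lean` (copy it), with `ptE` in the place of `pt`, `gamE (t0/2) E d Q` in the place of `gam (t0/2) s d Q` (`0 ≤ gamE`: the base is
`≥ 0` because `2 t0² / 4^d ≤ 1` and `E ≥ 0`), and `E` in the place of `1 / s^30`; `0 ≤ 1 / Es s ≤ E`.
-/

namespace Pool.Agent.Helper59.PQ

open Finset MeasureTheory
open Pool.Agent.Helper59.RE (av e)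
open Pool.Agent.Helper59.RF (Bs WS WT hf Tay Dif Es)
open Pool.Agent.Helper59.RG (DE sel fs ser Ok dec prd lawU good_avg measurable_ser)

private lemma isl34 : Measurable (fun c : DE => c.isLeft) := by
  refine measurable_fun_sum ?_ ?_
  · exact measurable_const
  · exact measurable_const

private lemma meas34 (S : Finset ℕ) (H : Finset ℕ → ℝ) : Measurable (fun c : ℕ → DE => H (fs S c)) := by
  classical
  have h1 : Measurable (fun (c : ℕ → DE) (k : S) => (c k).isLeft) :=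
    measurable_pi_lambda _ fun k => isl34.comp (measurable_pi_apply _)
  have h2 : Measurable (fun b : S → Bool => H ((univ.filter (fun k : S => b k = true)).image (fun k : S => (k : ℕ)))) :=
    measurable_of_finite _
  have h3 : (fun c : ℕ → DE => H (fs S c)) =
      (fun b : S → Bool => H ((univ.filter (fun k : S => b k = true)).image (fun k : S => (k : ℕ)))) ∘
        (fun (c : ℕ → DE) (k : S) => (c k).isLeft) := by
    funext c
    simp only [Function.comp]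
    congr 1
    ext k
    simp only [fs, Finset.mem_filter, Finset.mem_image, Finset.mem_univ, true_and]
    constructor
    · rintro ⟨hk, h⟩
      exact ⟨⟨k, hk⟩, h, rfl⟩
    · rintro ⟨⟨k', hk'⟩, h, rfl⟩
      exact ⟨hk', h⟩
  rw [h3]
  exact h2.comp h1

private lemma norm_e34 (t : ℝ) : ‖e t‖ = 1 := by
  unfold Pool.Agent.Helper59.RE.e
  rw [show (2 * Real.pi * Complex.I * (t : ℂ)) = ((2 * Real.pi * t : ℝ) : ℂ) * Complex.I by push_cast; ring]
  exact Complex.norm_exp_ofReal_mul_I _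

theorem corrEE {N B : ℕ → ℝ} (hN : ∀ k, 0 < N k) (hBs : Summable fun k => B k / N k)
    {θ x ε δ Z Z0 t0 Lam E : ℝ} {s d Q L q : ℕ} (hθN : ∀ k, 1 ≤ k → θ * N k ≤ N (k + 1))
    (hx : 0 < x) (hε0 : 0 ≤ ε) (hε1 : ε < 1) (hε2 : (1 + ε) ^ (d + 1) ≤ 11 / 10)
    (hε3 : 10 / 11 ≤ (1 - ε) ^ (d + 1)) (hεθ : 1 + ε < θ * (1 - ε))
    (hδ0 : 0 < δ) (hδ1 : δ ≤ 1 / 4) (hdδ : 2 ≤ δ * d)
    (hs : 2 ≤ s) (hd : 2 ≤ d) (w : WT N δ Z0 t0 s d Q L)
    (ht0 : 0 < t0) (ht1 : t0 ≤ 6 / 25) (hLam : 1 ≤ Lam)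
    (hE1 : Lam * (1 / x) ^ (d - 1) / Es s ≤ E) (hE2 : 1 / Es s ≤ E)
    (hγ : gamE (t0 / 2) E d Q ≤ 1) (hZ : 0 ≤ Z)
    (hZ0 : Z0 * (1 / x) ^ (d + 1) = 6 / 5 * Z) (hqs : (q : ℝ) ≤ (s : ℝ) ^ (1 - δ / 4))
    (f g : ℝ → ℝ) (hfm : Measurable f) (y : ℝ)
    (hT : Tay f g (y - ser N q B) (y + ser N q B) (Lam * Z))
    (hD : Dif d g (y - ser N q B) (y + ser N q B) Z)
    (ν : ℕ → Measure ℝ) [∀ k, IsProbabilityMeasure (ν k)] (hνB : ∀ k, ∀ᵐ z ∂(ν k), |z| ≤ B k)
    (hνx : ∀ k : ℕ, (s : ℝ) ^ (1 - δ / 4) ≤ k → k ≤ s →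
      (s : ℝ) ^ (-1 + δ) ≤ ((ν k).prod (ν k)).real {p : ℝ × ℝ | |p.1 - p.2 - x| ≤ ε / 2 * x}) :
    ‖∫ z, e (f (y + ser N q z)) ∂(Measure.infinitePi ν)‖ ≤
      (gamE (t0 / 2) E d Q + Q * ((s : ℝ) ^ (δ / 8) *
        (2 ^ (d + 1) * (s : ℝ) ^ (-(2 / 3 * δ)) + (s : ℝ) ^ (-δ)))) ^ L +
        (2 * d + 7) * (L * Q) ^ 2 * E := by
  classical
  have hs1 : (1 : ℝ) < s := by exact_mod_cast (by omega : 1 < s)
  have hs0 : (0 : ℝ) < s := by linarith
  have ht0' : 0 < (s : ℝ) ^ (-1 + δ) := Real.rpow_pos_of_pos hs0 _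
  have ht1' : (s : ℝ) ^ (-1 + δ) < 1 := Real.rpow_lt_one_of_one_lt_of_neg hs1 (by linarith)
  obtain ⟨S, hSd⟩ : ∃ S : Finset ℕ, S = (range (s + 1)).filter (fun k : ℕ => (s : ℝ) ^ (1 - δ / 4) ≤ k) := ⟨_, rfl⟩
  have hmem : ∀ k : ℕ, k ∈ S ↔ k ≤ s ∧ (s : ℝ) ^ (1 - δ / 4) ≤ k := by
    intro k
    rw [hSd, Finset.mem_filter, Finset.mem_range, Nat.lt_succ_iff]
  have hSq : ∀ k ∈ S, q ≤ k := by
    intro k hk
    have h1 : (q : ℝ) ≤ (k : ℝ) := hqs.trans ((hmem k).1 hk).2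
    exact_mod_cast h1
  obtain ⟨wt, hwt⟩ : ∃ wt : ℕ → ℝ, wt = fun k => if k ∈ S then (s : ℝ) ^ (-1 + δ) else 0 := ⟨_, rfl⟩
  have hwt0 : ∀ k, 0 ≤ wt k := by
    intro k
    rw [hwt]
    dsimp only
    split_ifs
    · exact ht0'.le
    · exact le_rfl
  have hwt1 : ∀ k, wt k ≤ 1 := by
    intro k
    rw [hwt]
    dsimp only
    split_ifs
    · exact ht1'.le
    · exact zero_le_one
  have hwt2 : ∀ k, wt k ≤ ((ν k).prod (ν k)).real {p : ℝ × ℝ | |p.1 - p.2 - x| ≤ ε / 2 * x} := by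
    intro k
    rw [hwt]
    dsimp only
    split_ifs with h
    · exact hνx k ((hmem k).1 h).2 ((hmem k).1 h).1
    · exact measureReal_nonneg
  choose lam hprob hlw hae hdec using fun k => dec (ν k) x (ε / 2 * x) (wt k) (hwt0 k) (hwt1 k) (hwt2 k) (B k) (hνB k)
  have : ∀ k, IsProbabilityMeasure (lam k) := hprob
  have hS0 : ∀ k, k ∉ S → (lam k).real {c | c.isLeft = true} = 0 := by
    intro k hk
    rw [hlw k, hwt]
    dsimp only
    rw [if_neg hk]
  have hFm : Measurable (fun z : ℕ → ℝ => e (f (y + ser N q z))) := by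
    have h1 : Measurable (fun t : ℝ => e t) := by
      unfold Pool.Agent.Helper59.RE.e
      fun_prop
    exact h1.comp (hfm.comp ((measurable_ser N q).const_add y))
  have hFb : ∀ z : ℕ → ℝ, ‖e (f (y + ser N q z))‖ ≤ 1 := fun z => (norm_e34 _).le
  have h1 := prd ν lam S hS0 hdec (fun z : ℕ → ℝ => e (f (y + ser N q z))) hFm 1 hFb
  rw [h1]
  obtain ⟨H, hH⟩ : ∃ H : Finset ℕ → ℝ, H = fun U => ∏ i ∈ range L, if w.toWS.Good U i then gamE (t0 / 2) E d Q else 1 := ⟨_, rfl⟩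
  obtain ⟨M, hM⟩ : ∃ M : ℝ, M = (2 * d + 7) * (L * Q) ^ 2 * E := ⟨_, rfl⟩
  have hOk : ∀ᵐ c ∂(Measure.infinitePi lam), Ok B x ε c := by
    have h2 : ∀ᵐ c ∂(Measure.infinitePi lam), ∀ k, (∀ p, c k = Sum.inl p → |p.1 - p.2 - x| ≤ ε / 2 * x) ∧
        ∀ t, |sel (c k) t| ≤ B k :=
      ae_all_iff.2 fun k => (measurePreserving_eval_infinitePi lam k).quasiMeasurePreserving.ae (hae k)
    filter_upwards [h2] with c hc
    exact ⟨fun k p hp => (hc k).1 p hp, fun k t => (hc k).2 t⟩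
  have hpt : ∀ᵐ c ∂(Measure.infinitePi lam),
      ‖av hf S (fun T => e (f (y + ser N q (fun k => sel (c k) (decide (k ∈ T))))))‖ ≤ H (fs S c) + M := by
    filter_upwards [hOk] with c hc
    rw [hH, hM]
    exact ptE hN hBs hθN hx hε0 hε1 hε2 hε3 hεθ (by omega) hd w ht0 ht1 hLam hE1 hE2 hγ hZ hZ0 f g y hT hD S hSq c hc
  have hg0 : 0 ≤ gamE (t0 / 2) E d Q := by
    unfold gamE
    apply Real.rpow_nonneg
    have hE0 : (0 : ℝ) ≤ E := by
      refine le_trans ?_ hE2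
      unfold Pool.Agent.Helper59.RF.Es
      positivity
    have h4 : (1 : ℝ) ≤ 4 ^ d := one_le_pow₀ (by norm_num)
    have h5 : 2 * (t0 / 2) ^ 2 / 4 ^ d ≤ 1 := by
      rw [div_le_one (by positivity)]
      nlinarith
    have h6 : (0 : ℝ) ≤ (1 - 2 * (t0 / 2) ^ 2 / 4 ^ d) ^ Q := pow_nonneg (by linarith) _
    positivity
  have hHb : ∀ U, ‖H U‖ ≤ 1 := by
    intro U
    rw [hH]
    dsimp only
    rw [Real.norm_eq_abs, Finset.abs_prod]
    refine Finset.prod_le_one (fun i _ => abs_nonneg _) fun i _ => ?_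
    split_ifs
    · rw [abs_of_nonneg hg0]
      exact hγ
    · simp
  have hHint : Integrable (fun c : ℕ → DE => H (fs S c)) (Measure.infinitePi lam) := by
    refine Integrable.of_bound (meas34 S H).aestronglyMeasurable 1 ?_
    exact Filter.Eventually.of_forall fun c => hHb _
  calc ‖∫ c, av hf S (fun T => e (f (y + ser N q (fun k => sel (c k) (decide (k ∈ T)))))) ∂(Measure.infinitePi lam)‖
      ≤ ∫ c, ‖av hf S (fun T => e (f (y + ser N q (fun k => sel (c k) (decide (k ∈ T))))))‖ ∂(Measure.infinitePi lam) :=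
        norm_integral_le_integral_norm _
    _ ≤ ∫ c, (H (fs S c) + M) ∂(Measure.infinitePi lam) := by
        refine integral_mono_of_nonneg (Filter.Eventually.of_forall fun c => norm_nonneg _) (hHint.add (integrable_const M)) hpt
    _ = av (fun k => (lam k).real {c | c.isLeft = true}) S H + M := by
        rw [integral_add hHint (integrable_const M), lawU lam S H]
        simp
    _ ≤ _ := by
        rw [hM]
        refine add_le_add ?_ le_rfl
        rw [hH]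
        refine good_avg hδ0 hδ1 hs hd hdδ w.toWS (fun k => (lam k).real {c | c.isLeft = true}) ?_ ?_ ?_ S ?_ _ hg0
        · intro k
          exact measureReal_nonneg
        · intro k
          rw [hlw k]
          exact hwt1 k
        · intro k hk1 hk2
          rw [hlw k, hwt]
          dsimp only
          rw [if_pos ((hmem k).2 ⟨hk2, hk1⟩)]
        · intro i hi j l k hk
          obtain ⟨h2, h3⟩ := w.range i hi j l k hk
          exact (hmem k).2 ⟨h3, h2⟩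

end Pool.Agent.Helper59.PQ
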