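import Pool.Agent.Helper59.PQ.CorrEE
import Pool.Agent.Helper59.PQ.AsyE
import Pool.Agent.Helper59.RG.CorrG

/-!
# Block PQ-CORRJ: the correlations for one value of the first digits, general functions

PROOF.  As `corrG` in `RG/CorrG.lean` (copy and simplify; the function is now given by its derivatives `F i`).  `B k = C (k+1)^A`, `q' = Nat.sqrt m`, `W = ser N q' B`.
`d` with `2 ≤ d`, `2 ≤ δ d`; `ε`, `k₀` as there (`exists_eps` is private, copy it).  `asyE δ (t0/2) .. d .. (2 D)` gives `Q`, `S1`; the windows `S2`.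
For `m` large, `F`, `Z`, `y` as stated: `Z0 = 6/5 Z x^(d+1) ≥ (6/5 x^(d+1)) ρ^m`; `exists_s` gives `s ≥ S` with `N s ≤ Z0 < N (s+1)`, and `s_geN` with `b' = ρ` gives `m^(3/4) ≤ s`.
`Lam = exp (m^(1/4)) ≤ exp (s^(1/3))`; `E = max (Lam (1/x)^(d-1)) 1 / Es s ≤ 1 / s^(2D+4)` by `es_big` with `K = max ((1/x)^(d-1)) 1` for `s` large.
`Tay (F 0) (F 1) .. (Lam Z)` by `tay_of_deriv` (`g2 = F 2`), `Dif d (F 1) .. Z` by `dif_of_deriv` with `G i = F (i + 1)`.  `corrEE` with `f = F 0` (continuous), `g = F 1`, and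
`1 / s^(2D) ≤ 1 / m^D`.  `hqs` as in `corrG`.
-/

namespace Pool.Agent.Helper59.PQ

open Finset MeasureTheory
open Pool.Agent.Helper59.RE (e)
open Pool.Agent.Helper59.RG (ser NT tail_summable)
open Pool.Agent.Helper59.RF (Es Tay Dif tay_of_deriv dif_of_deriv s_geN exists_s)

/-- the choice of `ε` -/
private theorem exists_eps74 (d : ℕ) (θ : ℝ) (hθ : 1 < θ) : ∃ ε : ℝ, 0 < ε ∧ ε < 1 ∧
    (1 + ε) ^ (d + 1) ≤ 11 / 10 ∧ 10 / 11 ≤ (1 - ε) ^ (d + 1) ∧ 1 + ε < θ * (1 - ε) := by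
  have h1 : ∀ᶠ ε : ℝ in nhds 0, (1 + ε) ^ (d + 1) < 11 / 10 := by
    have hc : Continuous fun ε : ℝ => (1 + ε) ^ (d + 1) := by fun_prop
    have := hc.tendsto 0
    refine this.eventually (gt_mem_nhds ?_)
    norm_num
  have h2 : ∀ᶠ ε : ℝ in nhds 0, 10 / 11 < (1 - ε) ^ (d + 1) := by
    have hc : Continuous fun ε : ℝ => (1 - ε) ^ (d + 1) := by fun_prop
    have := hc.tendsto 0
    refine this.eventually (lt_mem_nhds ?_)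
    norm_num
  have h3 : ∀ᶠ ε : ℝ in nhds 0, 0 < θ * (1 - ε) - (1 + ε) := by
    have hc : Continuous fun ε : ℝ => θ * (1 - ε) - (1 + ε) := by fun_prop
    have := hc.tendsto 0
    refine this.eventually (lt_mem_nhds ?_)
    linarith
  have h4 : ∀ᶠ ε : ℝ in nhds 0, ε < 1 := gt_mem_nhds (by norm_num)
  have h5 := ((h1.and (h2.and (h3.and h4))).filter_mono
    (nhdsWithin_le_nhds (a := (0 : ℝ)) (s := Set.Ioi 0))).and
    (eventually_nhdsWithin_of_forall (s := Set.Ioi (0 : ℝ)) (a := 0)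
      (p := fun ε => 0 < ε) fun ε hε => hε)
  obtain ⟨ε, ⟨a1, a2, a3, a4⟩, a5⟩ := h5.exists
  exact ⟨ε, a5, a4, a1.le, a2.le, by linarith⟩

theorem corrJ {N : ℕ → ℝ} (hN : NT N) (C : ℝ) (hC : 0 ≤ C) (A : ℕ) (x δ : ℝ) (hx : 0 < x)
    (hδ0 : 0 < δ) (hδ1 : δ ≤ 1 / 4) (ν : ℕ → Measure ℝ) [∀ k, IsProbabilityMeasure (ν k)]
    (hνB : ∀ k : ℕ, ∀ᵐ z ∂(ν k), |z| ≤ C * ((k : ℝ) + 1) ^ A)
    (hνx : ∀ η : ℝ, 0 < η → ∃ k₀ : ℕ, ∀ k : ℕ, k₀ ≤ k →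
      (k : ℝ) ^ (-1 + δ) ≤ ((ν k).prod (ν k)).real {p : ℝ × ℝ | |p.1 - p.2 - x| ≤ η})
    (ρ : ℝ) (hρ : 1 < ρ) :
    ∃ d : ℕ, 2 ≤ d ∧ ∀ D : ℕ, ∃ m₀ : ℕ, ∀ m : ℕ, m₀ ≤ m → ∀ F : ℕ → ℝ → ℝ,
      (∀ i z, HasDerivAt (F i) (F (i + 1) z) z) → ∀ Z y : ℝ, ρ ^ m ≤ Z →
      (∀ z ∈ Set.Icc (y - ser N (Nat.sqrt m) (fun k => C * ((k : ℝ) + 1) ^ A))
          (y + ser N (Nat.sqrt m) (fun k => C * ((k : ℝ) + 1) ^ A)),
        Z ≤ F (d + 1) z ∧ F (d + 1) z ≤ 1.01 * Z ∧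
          |F 2 z| ≤ Real.exp ((m : ℝ) ^ (1 / 4 : ℝ)) * Z) →
      ‖∫ z, e (F 0 (y + ser N (Nat.sqrt m) z)) ∂(Measure.infinitePi ν)‖ ≤ 1 / (m : ℝ) ^ D := by
  obtain ⟨t0, ht0, ht1, hWin⟩ := hN.win
  obtain ⟨D₀, k₁, hgr⟩ := hN.gr
  obtain ⟨θ, hθ1, hθN⟩ := hN.bs.dbl
  obtain ⟨d, hd, hdδ⟩ : ∃ d : ℕ, 2 ≤ d ∧ 2 ≤ δ * d := by
    refine ⟨max 2 ⌈2 / δ⌉₊, le_max_left _ _, ?_⟩
    have h1 : 2 / δ ≤ (max 2 ⌈2 / δ⌉₊ : ℕ) :=
      (Nat.le_ceil _).trans (by exact_mod_cast le_max_right _ _)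
    rw [div_le_iff₀ hδ0] at h1
    linarith
  refine ⟨d, hd, fun D => ?_⟩
  obtain ⟨ε, hε0, hε1, hε2, hε3, hεθ⟩ := exists_eps74 d θ hθ1
  obtain ⟨k₀, hk₀⟩ := hνx (ε / 2 * x) (by positivity)
  obtain ⟨Q, hQ, S1, hS1⟩ := asyE δ (t0 / 2) hδ0 hδ1 (by linarith) (by linarith) d hd (2 * D)
  obtain ⟨S2, hS2⟩ := hWin δ hδ0 hδ1 d Q hd hQ
  obtain ⟨S3, hS3⟩ := es_big (max ((1 / x) ^ (d - 1)) 1) (2 * D + 4)
  have hc' : 0 < 6 / 5 * x ^ (d + 1) := by positivity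
  obtain ⟨m3, hsge⟩ := s_geN hN.bs D₀ k₁ hgr (6 / 5 * x ^ (d + 1)) ρ hc' hρ
  obtain ⟨S, hSdef⟩ : ∃ S, S = S1 + S2 + S3 + k₀ ^ 2 + 4 := ⟨_, rfl⟩
  obtain ⟨m5, hm5⟩ : ∃ m5 : ℕ, ∀ m, m5 ≤ m → N S ≤ 6 / 5 * x ^ (d + 1) * ρ ^ m := by
    have ht : Filter.Tendsto (fun m : ℕ => 6 / 5 * x ^ (d + 1) * ρ ^ m) Filter.atTop
        Filter.atTop := (tendsto_pow_atTop_atTop_of_one_lt hρ).const_mul_atTop hc'
    obtain ⟨m5, h5⟩ := (ht.eventually_ge_atTop (N S)).exists_forall_of_atTop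
    exact ⟨m5, h5⟩
  have hsum := tail_summable hN.bs C A
  refine ⟨m3 + m5 + 1, ?_⟩
  intro m hm F hF Z y hZm hFz
  have hm1 : 1 ≤ m := by omega
  obtain ⟨q', hq'def⟩ : ∃ q', q' = Nat.sqrt m := ⟨_, rfl⟩
  rw [← hq'def] at hFz ⊢
  have hmR : (1 : ℝ) ≤ m := by exact_mod_cast hm1
  have hρ0 : 0 < ρ := by linarith
  have hZpos : 0 < Z := lt_of_lt_of_le (by positivity) hZm
  have hxd : 0 < x ^ (d + 1) := by positivity
  obtain ⟨Z0, hZ0def⟩ : ∃ Z0, Z0 = 6 / 5 * Z * x ^ (d + 1) := ⟨_, rfl⟩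
  have hZ0eq : Z0 * (1 / x) ^ (d + 1) = 6 / 5 * Z := by
    rw [hZ0def, one_div, inv_pow, mul_assoc, mul_inv_cancel₀ hxd.ne', mul_one]
  have hZ0ge : 6 / 5 * x ^ (d + 1) * ρ ^ m ≤ Z0 := by
    rw [hZ0def]
    have h2 := mul_le_mul_of_nonneg_left hZm (by positivity : (0 : ℝ) ≤ 6 / 5 * x ^ (d + 1))
    calc 6 / 5 * x ^ (d + 1) * ρ ^ m ≤ 6 / 5 * x ^ (d + 1) * Z := h2
      _ = _ := by ring
  obtain ⟨s, hs, hs1, hs2⟩ := exists_s hN.bs S Z0 ((hm5 m (by omega)).trans hZ0ge)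
  have hsS1 : S1 ≤ s := by omega
  have hsS2 : S2 ≤ s := by omega
  have hsS3 : S3 ≤ s := by omega
  have hs4 : 4 ≤ s := by omega
  have hsm : (m : ℝ) ^ (3 / 4 : ℝ) ≤ s := hsge m (by omega) s (lt_of_le_of_lt hZ0ge hs2)
  have hs0 : (1 : ℝ) ≤ s := by exact_mod_cast (by omega : 1 ≤ s)
  have hspos : (0 : ℝ) < s := by linarith
  obtain ⟨ww⟩ := hS2 s hsS2 Z0 hs1 hs2
  -- the error `E`
  obtain ⟨Lam, hLamdef⟩ : ∃ Lam, Lam = Real.exp ((m : ℝ) ^ (1 / 4 : ℝ)) := ⟨_, rfl⟩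
  rw [← hLamdef] at hFz
  have hLam1 : 1 ≤ Lam := by
    rw [hLamdef]
    exact Real.one_le_exp (by positivity)
  have hLams : Lam ≤ Real.exp ((s : ℝ) ^ (1 / 3 : ℝ)) := by
    rw [hLamdef]
    refine Real.exp_le_exp.mpr ?_
    have e1 : (m : ℝ) ^ (1 / 4 : ℝ) = ((m : ℝ) ^ (3 / 4 : ℝ)) ^ (1 / 3 : ℝ) := by
      rw [← Real.rpow_mul (by positivity)]
      norm_num
    rw [e1]
    exact Real.rpow_le_rpow (by positivity) hsm (by norm_num)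
  obtain ⟨a, hadef⟩ : ∃ a, a = (1 / x) ^ (d - 1) := ⟨_, rfl⟩
  have ha0 : 0 ≤ a := by rw [hadef]; positivity
  have hbig := hS3 s hsS3
  rw [← hadef] at hbig
  have hexp1 : 1 ≤ Real.exp ((s : ℝ) ^ (1 / 3 : ℝ)) := Real.one_le_exp (by positivity)
  have hmax : max (Lam * a) 1 ≤ Real.exp ((s : ℝ) ^ (1 / 3 : ℝ)) * max a 1 := by
    refine max_le ?_ ?_
    · exact mul_le_mul hLams (le_max_left _ _) ha0 (by positivity)
    · have h1 : (1 : ℝ) ≤ max a 1 := le_max_right _ _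
      nlinarith
  have hmax0 : 0 < max (Lam * a) 1 := lt_of_lt_of_le one_pos (le_max_right _ _)
  have hEs : 0 < Es s := by
    refine lt_of_lt_of_le ?_ hbig
    have h1 : (0 : ℝ) < max a 1 := lt_of_lt_of_le one_pos (le_max_right _ _)
    positivity
  obtain ⟨E, hEdef⟩ : ∃ E, E = max (Lam * a) 1 / Es s := ⟨_, rfl⟩
  have hE0 : 0 ≤ E := by rw [hEdef]; positivity
  have hEle : E ≤ 1 / (s : ℝ) ^ (2 * D + 4) := by
    rw [hEdef, div_le_div_iff₀ hEs (by positivity), one_mul]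
    exact (mul_le_mul_of_nonneg_right hmax (by positivity)).trans hbig
  have hE1 : Lam * (1 / x) ^ (d - 1) / Es s ≤ E := by
    rw [hEdef, ← hadef]
    exact div_le_div_of_nonneg_right (le_max_left _ _) hEs.le
  have hE2 : 1 / Es s ≤ E := by
    rw [hEdef]
    exact div_le_div_of_nonneg_right (le_max_right _ _) hEs.le
  obtain ⟨hγ, hfin⟩ := hS1 s hsS1 E hE0 hEle
  have hq's : (q' : ℝ) ≤ (s : ℝ) ^ (1 - δ / 4) := by
    have e1 : (q' : ℝ) ≤ Real.sqrt m := by rw [hq'def]; exact Real.nat_sqrt_le_real_sqrt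
    have e2 : Real.sqrt m = (m : ℝ) ^ (1 / 2 : ℝ) := Real.sqrt_eq_rpow _
    have e3 : (m : ℝ) ^ (1 / 2 : ℝ) ≤ (m : ℝ) ^ ((3 / 4 : ℝ) * (1 - δ / 4)) :=
      Real.rpow_le_rpow_of_exponent_le hmR (by nlinarith)
    have e4 : (m : ℝ) ^ ((3 / 4 : ℝ) * (1 - δ / 4)) = ((m : ℝ) ^ (3 / 4 : ℝ)) ^ (1 - δ / 4) :=
      Real.rpow_mul (by positivity) _ _
    have e5 : ((m : ℝ) ^ (3 / 4 : ℝ)) ^ (1 - δ / 4) ≤ (s : ℝ) ^ (1 - δ / 4) :=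
      Real.rpow_le_rpow (by positivity) hsm (by linarith)
    rw [e2] at e1
    rw [e4] at e3
    linarith
  have hmu : ∀ k : ℕ, (s : ℝ) ^ (1 - δ / 4) ≤ k → k ≤ s →
      (s : ℝ) ^ (-1 + δ) ≤
        ((ν k).prod (ν k)).real {p : ℝ × ℝ | |p.1 - p.2 - x| ≤ ε / 2 * x} := by
    intro k hk1 hk2
    have hk0 : k₀ ≤ k := by
      have e1 : ((k₀ : ℝ) ^ 2) ≤ s := by
        have : k₀ ^ 2 ≤ s := by omega
        exact_mod_cast this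
      have e2 : (s : ℝ) ^ (1 / 2 : ℝ) ≤ (s : ℝ) ^ (1 - δ / 4) :=
        Real.rpow_le_rpow_of_exponent_le hs0 (by linarith)
      have e3 : (k₀ : ℝ) ≤ (s : ℝ) ^ (1 / 2 : ℝ) := by
        rw [← Real.sqrt_eq_rpow]
        exact Real.le_sqrt_of_sq_le e1
      have e4 : (k₀ : ℝ) ≤ k := by linarith
      exact_mod_cast e4
    have hkpos : (0 : ℝ) < k := lt_of_lt_of_le (by positivity) hk1
    have e5 : (s : ℝ) ^ (-1 + δ) ≤ (k : ℝ) ^ (-1 + δ) :=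
      Real.rpow_le_rpow_of_nonpos hkpos (by exact_mod_cast hk2) (by linarith)
    exact e5.trans (hk₀ k hk0)
  have hfin' : 1 / (s : ℝ) ^ (2 * D) ≤ 1 / (m : ℝ) ^ D := by
    refine one_div_le_one_div_of_le (by positivity) ?_
    have e1 : ((m : ℝ) ^ (3 / 4 : ℝ)) ^ (2 * D) ≤ (s : ℝ) ^ (2 * D) :=
      pow_le_pow_left₀ (by positivity) hsm (2 * D)
    have e2 : ((m : ℝ) ^ (3 / 4 : ℝ)) ^ (2 * D) = ((m : ℝ) ^ (3 / 2 : ℝ)) ^ D := by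
      rw [pow_mul]
      congr 1
      rw [← Real.rpow_natCast, ← Real.rpow_mul (by positivity)]
      norm_num
    have e3 : (m : ℝ) ≤ (m : ℝ) ^ (3 / 2 : ℝ) := by
      conv_lhs => rw [← Real.rpow_one (m : ℝ)]
      exact Real.rpow_le_rpow_of_exponent_le hmR (by norm_num)
    have e4 : (m : ℝ) ^ D ≤ ((m : ℝ) ^ (3 / 2 : ℝ)) ^ D :=
      pow_le_pow_left₀ (by positivity) e3 D
    rw [e2] at e1
    exact e4.trans e1
  have hT : Tay (F 0) (F 1) (y - ser N q' (fun k => C * ((k : ℝ) + 1) ^ A))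
      (y + ser N q' (fun k => C * ((k : ℝ) + 1) ^ A)) (Lam * Z) :=
    tay_of_deriv _ _ (F 2) _ _ _ (fun z _ => hF 0 z) (fun z _ => hF 1 z)
      (fun z hz => (hFz z hz).2.2)
  have hD : Dif d (F 1) (y - ser N q' (fun k => C * ((k : ℝ) + 1) ^ A))
      (y + ser N q' (fun k => C * ((k : ℝ) + 1) ^ A)) Z :=
    dif_of_deriv d (fun i => F (i + 1)) _ _ _ (fun i _ z _ => hF (i + 1) z)
      (fun z hz => ⟨(hFz z hz).1, (hFz z hz).2.1⟩)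
  have hfm : Measurable (F 0) := by
    have hc : Continuous (F 0) := by
      rw [continuous_iff_continuousAt]
      intro z
      exact (hF 0 z).continuousAt
    exact hc.measurable
  have hfinal := corrEE (B := fun k : ℕ => C * ((k : ℝ) + 1) ^ A) hN.bs.pos hsum hθN hx hε0.le hε1
    hε2 hε3 hεθ hδ0 hδ1 hdδ (by omega) hd ww ht0 ht1 hLam1 hE1 hE2 hγ hZpos.le hZ0eq hq's
    (F 0) (F 1) hfm y hT hD ν hνB hmu
  exact hfinal.trans (hfin.trans hfin')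

end Pool.Agent.Helper59.PQ
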