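import Pool.Agent.Helper59.PQ.Qpf

/-!
# Block PQ-GOOD: the derivative near a point where it is not small, and near a point where it is small

Notation: `T = Q.natDegree`; all `x, y, z ≥ 1`.

PROOF.
* `goody`: `|Dq Q i z| ≤ m^B (2m)^i 3 y^T` for `z ∈ [y - W, y + W]` (`dq_le`, `z^T ≤ (y + W)^T ≤ y^T exp (T W) ≤ 3 y^T`), so by the mean value theorem
  `|Dq Q (d+1) z - Dq Q (d+1) y| ≤ W m^B (2m)^(d+2) 3 y^T ≤ exp (- m^(1/4) / 2) y^T / 250` for `m` large, and `|Dq Q 2 z| ≤ m^B (2m)^2 3 y^T ≤ exp (m^(1/4)) / 2 * exp (- m^(1/4)/2) y^T`.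
* `bady`: `|Dq Q (d+1) X| ≤ |Dq Q (d+1) Y| + W m^B (2m)^(d+2) 3 X^T`, `Y^T ≤ 3 X^T`, so it is at most `(3 exp (- m^(1/4)/2) + 3 exp (- m^(1/3)) m^B (2m)^(d+2)) X^T`
  `≤ exp (- m^(1/4) / 4) / 3 X^T` for `m` large.
-/

namespace Pool.Agent.Helper59.PQ

open Finset Polynomial

private theorem asy81 (c : ℝ) (k : ℕ) : ∃ m₁ : ℕ, ∀ m : ℕ, m₁ ≤ m →
    c * (m : ℝ) ^ k ≤ Real.exp ((m : ℝ) ^ (1 / 4 : ℝ) / 4) := by
  have h1 := (isLittleO_pow_exp_pos_mul_atTop (k := 4 * k) (b := (1 / 4 : ℝ)) (by norm_num)).def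
    (c := 1 / (|c| + 1)) (by positivity)
  have h2 : Filter.Tendsto (fun m : ℕ => (m : ℝ) ^ (1 / 4 : ℝ)) Filter.atTop Filter.atTop :=
    (tendsto_rpow_atTop (by norm_num)).comp tendsto_natCast_atTop_atTop
  obtain ⟨m₁, hm₁⟩ := Filter.eventually_atTop.1 (h2.eventually h1)
  refine ⟨m₁, fun m hm => ?_⟩
  have h3 := hm₁ m hm
  have h4 : ((m : ℝ) ^ (1 / 4 : ℝ)) ^ (4 * k) = (m : ℝ) ^ k := by
    rw [pow_mul, ← Real.rpow_natCast ((m : ℝ) ^ (1 / 4 : ℝ)) 4, ← Real.rpow_mul (Nat.cast_nonneg m)]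
    norm_num
  rw [h4, Real.norm_of_nonneg (by positivity), Real.norm_of_nonneg (Real.exp_pos _).le] at h3
  have h5 : (|c| + 1) * (m : ℝ) ^ k ≤ Real.exp (1 / 4 * (m : ℝ) ^ (1 / 4 : ℝ)) := by
    have h6 : (|c| + 1) * (m : ℝ) ^ k ≤
        (|c| + 1) * (1 / (|c| + 1) * Real.exp (1 / 4 * (m : ℝ) ^ (1 / 4 : ℝ))) :=
      mul_le_mul_of_nonneg_left h3 (by positivity)
    refine h6.trans_eq ?_
    have h7 : |c| + 1 ≠ 0 := by positivity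
    field_simp
  have h6 : c * (m : ℝ) ^ k ≤ (|c| + 1) * (m : ℝ) ^ k :=
    mul_le_mul_of_nonneg_right (by linarith [le_abs_self c]) (by positivity)
  refine (h6.trans h5).trans_eq ?_
  congr 1
  ring

private theorem key81 (B d : ℕ) : ∃ m₁ : ℕ, ∀ m : ℕ, m₁ ≤ m → 1 ≤ m ∧
    750 * ((m : ℝ) ^ B * (2 * m) ^ (d + 2)) * Real.exp (-(m : ℝ) ^ (1 / 3 : ℝ)) ≤
      Real.exp (-(m : ℝ) ^ (1 / 4 : ℝ) / 2) ∧
    6 * ((m : ℝ) ^ B * (2 * m) ^ 2) ≤ Real.exp ((m : ℝ) ^ (1 / 4 : ℝ) / 2) ∧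
    18 ≤ Real.exp ((m : ℝ) ^ (1 / 4 : ℝ) / 4) := by
  obtain ⟨m1, h1⟩ := asy81 (750 * 2 ^ (d + 2)) (B + (d + 2))
  obtain ⟨m2, h2⟩ := asy81 24 (B + 2)
  obtain ⟨m3, h3⟩ := asy81 18 0
  refine ⟨max 1 (max m1 (max m2 m3)), fun m hm => ?_⟩
  have hm0 : 1 ≤ m := (le_max_left _ _).trans hm
  have hm1 : m1 ≤ m := ((le_max_left _ _).trans (le_max_right _ _)).trans hm
  have hm2 : m2 ≤ m := (((le_max_left _ _).trans (le_max_right _ _)).trans (le_max_right _ _)).trans hm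
  have hm3 : m3 ≤ m := (((le_max_right _ _).trans (le_max_right _ _)).trans (le_max_right _ _)).trans hm
  have h0 : (0 : ℝ) ≤ (m : ℝ) ^ (1 / 4 : ℝ) := Real.rpow_nonneg (Nat.cast_nonneg m) _
  have hle : (m : ℝ) ^ (1 / 4 : ℝ) ≤ (m : ℝ) ^ (1 / 3 : ℝ) :=
    Real.rpow_le_rpow_of_exponent_le (by exact_mod_cast hm0) (by norm_num)
  refine ⟨hm0, ?_, ?_, ?_⟩
  · have e1 := h1 m hm1
    have e2 : 750 * ((m : ℝ) ^ B * (2 * m) ^ (d + 2)) =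
        750 * 2 ^ (d + 2) * (m : ℝ) ^ (B + (d + 2)) := by
      rw [mul_pow, pow_add (m : ℝ) B (d + 2)]
      ring
    rw [e2]
    calc 750 * 2 ^ (d + 2) * (m : ℝ) ^ (B + (d + 2)) * Real.exp (-(m : ℝ) ^ (1 / 3 : ℝ)) ≤
        Real.exp ((m : ℝ) ^ (1 / 4 : ℝ) / 4) * Real.exp (-(m : ℝ) ^ (1 / 3 : ℝ)) :=
          mul_le_mul_of_nonneg_right e1 (Real.exp_pos _).le
      _ = Real.exp ((m : ℝ) ^ (1 / 4 : ℝ) / 4 - (m : ℝ) ^ (1 / 3 : ℝ)) := by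
          rw [← Real.exp_add]
          rfl
      _ ≤ Real.exp (-(m : ℝ) ^ (1 / 4 : ℝ) / 2) := Real.exp_le_exp.2 (by linarith)
  · have e1 := h2 m hm2
    have e2 : 6 * ((m : ℝ) ^ B * (2 * m) ^ 2) = 24 * (m : ℝ) ^ (B + 2) := by
      rw [mul_pow, pow_add (m : ℝ) B 2]
      ring
    rw [e2]
    exact e1.trans (Real.exp_le_exp.2 (by linarith))
  · have e1 := h3 m hm3
    rwa [pow_zero, mul_one] at e1

private theorem pow81 {m T : ℕ} (hT : T ≤ 2 * m) {y z W : ℝ} (hy : 1 ≤ y) (hz : 0 ≤ z) (hW : 0 ≤ W)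
    (hzy : z ≤ y + W) (h : 2 * (m : ℝ) * W ≤ 1) : z ^ T ≤ 3 * y ^ T := by
  have h1 : z ≤ y * (1 + W) := by nlinarith
  have h2 : z ^ T ≤ (y * (1 + W)) ^ T := pow_le_pow_left₀ hz h1 T
  have h3 : (1 + W) ^ T ≤ Real.exp (T * W) := by
    have h4 : 1 + W ≤ Real.exp W := by linarith [Real.add_one_le_exp W]
    have h5 := pow_le_pow_left₀ (by linarith : (0 : ℝ) ≤ 1 + W) h4 T
    rwa [← Real.exp_nat_mul] at h5
  have h4 : (T : ℝ) * W ≤ 1 := by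
    have h5 : (T : ℝ) ≤ 2 * m := by exact_mod_cast hT
    exact (mul_le_mul_of_nonneg_right h5 hW).trans h
  have h5 : Real.exp (T * W) ≤ 3 := by
    refine (Real.exp_le_exp.2 h4).trans ?_
    linarith [Real.exp_one_lt_d9]
  rw [mul_pow] at h2
  have h6 : (0 : ℝ) ≤ y ^ T := by positivity
  nlinarith [mul_le_mul_of_nonneg_left (h3.trans h5) h6]

private theorem dq81 {J B m : ℕ} {c0 : ℝ} {Q : ℝ[X]} (hQ : QC J B m c0 Q) (i : ℕ) {x : ℝ}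
    (hx : 1 ≤ x) : |Dq Q i x| ≤ (m : ℝ) ^ B * (2 * m) ^ i * x ^ Q.natDegree := by
  refine (dq_le Q Q.natDegree le_rfl i x hx).trans ?_
  refine mul_le_mul_of_nonneg_right ?_ (by positivity)
  have h1 : (Q.natDegree : ℝ) ≤ 2 * m := by exact_mod_cast hQ.d2
  exact mul_le_mul hQ.cf (pow_le_pow_left₀ (Nat.cast_nonneg _) h1 i) (by positivity) (by positivity)

private theorem tW81 {B d m : ℕ} (h1 : 1 ≤ m) {W : ℝ} (hW0 : 0 ≤ W)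
    (hW : W ≤ Real.exp (-(m : ℝ) ^ (1 / 3 : ℝ)))
    (h2 : 750 * ((m : ℝ) ^ B * (2 * m) ^ (d + 2)) * Real.exp (-(m : ℝ) ^ (1 / 3 : ℝ)) ≤
      Real.exp (-(m : ℝ) ^ (1 / 4 : ℝ) / 2)) : 2 * (m : ℝ) * W ≤ 1 := by
  have hm : (1 : ℝ) ≤ m := by exact_mod_cast h1
  have e1 : (1 : ℝ) ≤ (m : ℝ) ^ B := one_le_pow₀ hm
  have e2 : 2 * (m : ℝ) ≤ (2 * m) ^ (d + 2) := by
    have := pow_le_pow_right₀ (by linarith : (1 : ℝ) ≤ 2 * m) (by omega : 1 ≤ d + 2)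
    rwa [pow_one] at this
  have e3 : 2 * (m : ℝ) ≤ (m : ℝ) ^ B * (2 * m) ^ (d + 2) := by nlinarith
  have e4 : Real.exp (-(m : ℝ) ^ (1 / 4 : ℝ) / 2) ≤ 1 := by
    have : (0 : ℝ) ≤ (m : ℝ) ^ (1 / 4 : ℝ) := Real.rpow_nonneg (Nat.cast_nonneg m) _
    exact Real.exp_le_one_iff.2 (by linarith)
  have e5 : 2 * (m : ℝ) * W ≤ ((m : ℝ) ^ B * (2 * m) ^ (d + 2)) *
      Real.exp (-(m : ℝ) ^ (1 / 3 : ℝ)) :=
    mul_le_mul e3 hW hW0 (by positivity)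
  have e6 : (0 : ℝ) ≤ ((m : ℝ) ^ B * (2 * m) ^ (d + 2)) * Real.exp (-(m : ℝ) ^ (1 / 3 : ℝ)) := by
    positivity
  nlinarith

theorem goody (J B d : ℕ) (c0 : ℝ) : ∃ m₁ : ℕ, ∀ m : ℕ, m₁ ≤ m → ∀ Q : ℝ[X], QC J B m c0 Q →
    ∀ y W : ℝ, 0 ≤ W → 1 ≤ y - W → W ≤ Real.exp (-(m : ℝ) ^ (1 / 3 : ℝ)) →
      Real.exp (-(m : ℝ) ^ (1 / 4 : ℝ) / 2) * y ^ Q.natDegree ≤ |Dq Q (d + 1) y| →
      ∀ z ∈ Set.Icc (y - W) (y + W), |Dq Q (d + 1) z - Dq Q (d + 1) y| ≤ |Dq Q (d + 1) y| / 250 ∧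
        |Dq Q 2 z| ≤ Real.exp ((m : ℝ) ^ (1 / 4 : ℝ)) * (|Dq Q (d + 1) y| / 2) := by
  obtain ⟨m₁, hm₁⟩ := key81 B d
  refine ⟨m₁, fun m hm Q hQ y W hW0 hyW hW hD z hz => ?_⟩
  obtain ⟨k1, k2, k3, -⟩ := hm₁ m hm
  have hy : 1 ≤ y := by linarith
  have htW := tW81 k1 hW0 hW k2
  have hpow : ∀ x ∈ Set.Icc (y - W) (y + W), x ^ Q.natDegree ≤ 3 * y ^ Q.natDegree := fun x hx =>
    pow81 hQ.d2 hy (by linarith [hx.1]) hW0 hx.2 htW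
  have hy0 : (0 : ℝ) ≤ y ^ Q.natDegree := by positivity
  constructor
  · have hb : ∀ x ∈ Set.Icc (y - W) (y + W), ‖Dq Q (d + 1 + 1) x‖ ≤
        (m : ℝ) ^ B * (2 * m) ^ (d + 2) * (3 * y ^ Q.natDegree) := by
      intro x hx
      rw [Real.norm_eq_abs]
      refine (dq81 hQ (d + 2) (by linarith [hx.1])).trans ?_
      exact mul_le_mul_of_nonneg_left (hpow x hx) (by positivity)
    have h1 := (convex_Icc (y - W) (y + W)).norm_image_sub_le_of_norm_hasDerivWithin_le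
      (f := Dq Q (d + 1)) (f' := Dq Q (d + 1 + 1))
      (fun x _ => (dq_hasDeriv Q (d + 1) x).hasDerivWithinAt) hb
      (x := y) (y := z) ⟨by linarith, by linarith⟩ hz
    rw [Real.norm_eq_abs, Real.norm_eq_abs] at h1
    have h2 : |z - y| ≤ W := abs_le.2 ⟨by linarith [hz.1], by linarith [hz.2]⟩
    have h3 : (m : ℝ) ^ B * (2 * m) ^ (d + 2) * (3 * y ^ Q.natDegree) * |z - y| ≤
        (m : ℝ) ^ B * (2 * m) ^ (d + 2) * (3 * y ^ Q.natDegree) *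
          Real.exp (-(m : ℝ) ^ (1 / 3 : ℝ)) :=
      mul_le_mul_of_nonneg_left (h2.trans hW) (by positivity)
    have h4 := mul_le_mul_of_nonneg_right k2 hy0
    linarith
  · refine (dq81 hQ 2 (by linarith [hz.1])).trans ?_
    have h1 : (m : ℝ) ^ B * (2 * m) ^ 2 * z ^ Q.natDegree ≤
        (m : ℝ) ^ B * (2 * m) ^ 2 * (3 * y ^ Q.natDegree) :=
      mul_le_mul_of_nonneg_left (hpow z hz) (by positivity)
    have h2 := mul_le_mul_of_nonneg_right k3 hy0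
    have h3 : Real.exp ((m : ℝ) ^ (1 / 4 : ℝ)) *
        (Real.exp (-(m : ℝ) ^ (1 / 4 : ℝ) / 2) * y ^ Q.natDegree) =
        Real.exp ((m : ℝ) ^ (1 / 4 : ℝ) / 2) * y ^ Q.natDegree := by
      rw [← mul_assoc, ← Real.exp_add]
      congr 2
      ring
    have h4 := mul_le_mul_of_nonneg_left hD (Real.exp_pos ((m : ℝ) ^ (1 / 4 : ℝ))).le
    linarith

theorem bady (J B d : ℕ) (c0 : ℝ) : ∃ m₁ : ℕ, ∀ m : ℕ, m₁ ≤ m → ∀ Q : ℝ[X], QC J B m c0 Q →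
    ∀ y x W : ℝ, |x - y| ≤ W → 1 ≤ x → 1 ≤ y → W ≤ Real.exp (-(m : ℝ) ^ (1 / 3 : ℝ)) →
      |Dq Q (d + 1) y| < Real.exp (-(m : ℝ) ^ (1 / 4 : ℝ) / 2) * y ^ Q.natDegree →
      |Dq Q (d + 1) x| ≤ Real.exp (-(m : ℝ) ^ (1 / 4 : ℝ) / 4) / 3 * x ^ Q.natDegree := by
  obtain ⟨m₁, hm₁⟩ := key81 B d
  refine ⟨m₁, fun m hm Q hQ y x W hxy hx hy hW hD => ?_⟩
  obtain ⟨k1, k2, -, k4⟩ := hm₁ m hm
  have hW0 : 0 ≤ W := (abs_nonneg _).trans hxy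
  have htW := tW81 k1 hW0 hW k2
  have hxy' := abs_le.1 hxy
  have hx0 : (0 : ℝ) ≤ x ^ Q.natDegree := by positivity
  have hu : ∀ z ∈ Set.uIcc x y, 1 ≤ z ∧ z ≤ x + W := by
    intro z hz
    rw [Set.mem_uIcc] at hz
    rcases hz with h | h
    · exact ⟨by linarith [h.1], by linarith [h.2]⟩
    · exact ⟨by linarith [h.1], by linarith [h.2]⟩
  have hpow : ∀ z ∈ Set.uIcc x y, z ^ Q.natDegree ≤ 3 * x ^ Q.natDegree := fun z hz =>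
    pow81 hQ.d2 hx (by linarith [(hu z hz).1]) hW0 (hu z hz).2 htW
  have hb : ∀ z ∈ Set.uIcc x y, ‖Dq Q (d + 1 + 1) z‖ ≤
      (m : ℝ) ^ B * (2 * m) ^ (d + 2) * (3 * x ^ Q.natDegree) := by
    intro z hz
    rw [Real.norm_eq_abs]
    refine (dq81 hQ (d + 2) (hu z hz).1).trans ?_
    exact mul_le_mul_of_nonneg_left (hpow z hz) (by positivity)
  have h1 := (convex_uIcc x y).norm_image_sub_le_of_norm_hasDerivWithin_le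
    (f := Dq Q (d + 1)) (f' := Dq Q (d + 1 + 1))
    (fun z _ => (dq_hasDeriv Q (d + 1) z).hasDerivWithinAt) hb
    (x := y) (y := x) Set.right_mem_uIcc Set.left_mem_uIcc
  rw [Real.norm_eq_abs, Real.norm_eq_abs] at h1
  have h3 : (m : ℝ) ^ B * (2 * m) ^ (d + 2) * (3 * x ^ Q.natDegree) * |x - y| ≤
      (m : ℝ) ^ B * (2 * m) ^ (d + 2) * (3 * x ^ Q.natDegree) *
        Real.exp (-(m : ℝ) ^ (1 / 3 : ℝ)) :=
    mul_le_mul_of_nonneg_left (hxy.trans hW) (by positivity)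
  have h4 := mul_le_mul_of_nonneg_right k2 hx0
  have h5 : |Dq Q (d + 1) x| ≤ |Dq Q (d + 1) y| + |Dq Q (d + 1) x - Dq Q (d + 1) y| := by
    have := abs_add_le (Dq Q (d + 1) y) (Dq Q (d + 1) x - Dq Q (d + 1) y)
    rwa [add_sub_cancel] at this
  have h6 : Real.exp (-(m : ℝ) ^ (1 / 4 : ℝ) / 2) * y ^ Q.natDegree ≤
      Real.exp (-(m : ℝ) ^ (1 / 4 : ℝ) / 2) * (3 * x ^ Q.natDegree) :=
    mul_le_mul_of_nonneg_left (hpow y Set.right_mem_uIcc) (Real.exp_pos _).le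
  have h7 : 18 * Real.exp (-(m : ℝ) ^ (1 / 4 : ℝ) / 2) ≤ Real.exp (-(m : ℝ) ^ (1 / 4 : ℝ) / 4) := by
    have e1 := mul_le_mul_of_nonneg_right k4 (Real.exp_pos (-(m : ℝ) ^ (1 / 4 : ℝ) / 2)).le
    refine e1.trans_eq ?_
    rw [← Real.exp_add]
    congr 1
    ring
  have h8 := mul_le_mul_of_nonneg_right h7 hx0
  have h9 : (0 : ℝ) ≤ Real.exp (-(m : ℝ) ^ (1 / 4 : ℝ) / 2) * x ^ Q.natDegree := by positivity
  linarith

end Pool.Agent.Helper59.PQ
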