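import Pool.Agent.Helper59.PQ.CorrJ
import Pool.Agent.Helper59.PQ.AntiB
import Pool.Agent.Helper59.PQ.Badp
import Pool.Agent.Helper59.PQ.Good

/-!
# Block PQ-CORRQ: decorrelation on an event of the first digits

`S_q(y) = ∑_(k<q) y k v k`, `X(y) = S_q(y) + ser N q y`, `B k = C (k+1)^A`.

PROOF of `anti_x`: `mix` at `q` and `anti` (for fixed `y'` the function is `S_q(y') + ser N q z`).

PROOF of `corrQ`.  `ρ = (1 + b') / 2`, `1 < ρ < b'`; `d` from `corrJ`, `m₀` from `corrJ` for `D + 1`; `K2` from `badp` (with `X1 = b' + w`), `anti_x` with `D' = D + K2 + 1`; `goody`, `bady`, `tail_exp`; `m` large.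
`q' = Nat.sqrt m ≥ q`, `W = ser N q' B ≤ exp (- m^(1/3))`, `T = natDegree Q`.  As in `corrH` (`RG/CorrH.lean`): `mix` with `q'`: for almost all `y`, `z` and the mixed sequence `u`:
`u ∈ G ↔ y ∈ G`, `X(u) = Y(y) + ser N q' z`, `Y(y) = S_q(y) + ∑_(k ∈ Ico q q') y k / N k`, and `b' ≤ Y - W`, `Y + W ≤ b' + w` for `y ∈ G` (`ser_mid`).
Call `y` good if `exp (- m^(1/4)/2) Y^T ≤ |Dq Q (d+1) Y|`.
* `y ∈ G` good: the inner integral is at most `1 / m^(D+1)` by `corrJ` with `F i = Dq Q i` (or `F i = Dq (-Q) i` and conjugation, if `Dq Q (d+1) Y < 0`), `Z = 0.996 |Dq Q (d+1) Y|`, by `goody`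
  (`Z ≤ F ≤ 1.004 |..| ≤ 1.01 Z`), and `Z ≥ 0.996 exp (- m^(1/4)/2) b'^m ≥ ρ^m` for `m` large.
* The bad `y ∈ G`: almost surely `|X(y) - Y(y)| ≤ W` (`ser_split`, `ser_abs`), so by `bady` (`x = X(y)`) `y` is in the set `{1 ≤ X ≤ X1, |Dq Q (d+1) X| ≤ exp (- m^(1/4)/4)/3 X^T}`, whose probability is at most
  `m^K2 / m^(D + K2 + 1) = 1 / m^(D+1)` by `badp` for the law of `X` (`Measure.map`).
Total `≤ 2 / m^(D+1) ≤ 1 / m^D`.
-/

namespace Pool.Agent.Helper59.PQ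

open Finset MeasureTheory Polynomial
open Pool.Agent.Helper59.RE (e)
open Pool.Agent.Helper59.RG (ser NT)

private lemma sum_updQ (q q' : ℕ) (hq : q ≤ q') (y z v : ℕ → ℝ) :
    ∑ k ∈ range q, (if k < q' then y k else z k) * v k = ∑ k ∈ range q, y k * v k := by
  refine Finset.sum_congr rfl fun k hk => ?_
  rw [if_pos (lt_of_lt_of_le (Finset.mem_range.1 hk) hq)]

private lemma ser_tailQ (N : ℕ → ℝ) (q' : ℕ) (y z : ℕ → ℝ) :
    ser N q' (fun k => if k < q' then y k else z k) = ser N q' z := by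
  unfold Pool.Agent.Helper59.RG.ser
  refine tsum_congr fun k => ?_
  by_cases h : q' ≤ k
  · rw [if_pos h, if_pos h]
    show (if k < q' then y k else z k) / N k = z k / N k
    rw [if_neg (not_lt.2 h)]
  · rw [if_neg h, if_neg h]

private lemma ser_updQ {N B : ℕ → ℝ} (hN : ∀ k, 0 < N k) (hB : Summable fun k => B k / N k) (q q' : ℕ)
    (hq : q ≤ q') (y z : ℕ → ℝ) (hy : ∀ k, |y k| ≤ B k) (hz : ∀ k, |z k| ≤ B k) :
    ser N q (fun k => if k < q' then y k else z k) = ∑ k ∈ Ico q q', y k / N k + ser N q' z := by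
  have hu : ∀ k, |(if k < q' then y k else z k)| ≤ B k := by
    intro k
    split_ifs
    · exact hy k
    · exact hz k
  rw [Pool.Agent.Helper59.RG.ser_split hN hB hu q q' hq, ser_tailQ]
  congr 1
  refine Finset.sum_congr rfl fun k hk => ?_
  rw [if_pos (Finset.mem_Ico.1 hk).2]

private lemma norm_int_neg (μ : Measure (ℕ → ℝ)) (f : (ℕ → ℝ) → ℝ) :
    ‖∫ z, e (-(f z)) ∂μ‖ = ‖∫ z, e (f z) ∂μ‖ := by
  have h : (∫ z, e (-(f z)) ∂μ) = (starRingEnd ℂ) (∫ z, e (f z) ∂μ) := by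
    rw [← integral_conj]
    congr 1
    funext z
    rw [Pool.Agent.Helper59.RE.conj_e]
  rw [h, RCLike.norm_conj]

private lemma dq_neg (Q : ℝ[X]) (i : ℕ) (x : ℝ) : Dq (-Q) i x = -Dq Q i x := by
  unfold Dq
  rw [Polynomial.iterate_derivative_neg, eval_neg]

private lemma good_int (μ : Measure (ℕ → ℝ)) (m D d : ℕ) (W ρ : ℝ) (sr : (ℕ → ℝ) → ℝ)
    (hJ : ∀ F : ℕ → ℝ → ℝ, (∀ i z, HasDerivAt (F i) (F (i + 1) z) z) → ∀ Z y : ℝ, ρ ^ m ≤ Z →
      (∀ z ∈ Set.Icc (y - W) (y + W), Z ≤ F (d + 1) z ∧ F (d + 1) z ≤ 1.01 * Z ∧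
          |F 2 z| ≤ Real.exp ((m : ℝ) ^ (1 / 4 : ℝ)) * Z) →
      ‖∫ z, e (F 0 (y + sr z)) ∂μ‖ ≤ 1 / (m : ℝ) ^ D)
    (Q : ℝ[X]) (Y : ℝ) (hρ : ρ ^ m ≤ 249 / 250 * |Dq Q (d + 1) Y|)
    (hg : ∀ z ∈ Set.Icc (Y - W) (Y + W),
      |Dq Q (d + 1) z - Dq Q (d + 1) Y| ≤ |Dq Q (d + 1) Y| / 250 ∧
        |Dq Q 2 z| ≤ Real.exp ((m : ℝ) ^ (1 / 4 : ℝ)) * (|Dq Q (d + 1) Y| / 2)) :
    ‖∫ z, e (Q.eval (Y + sr z)) ∂μ‖ ≤ 1 / (m : ℝ) ^ D := by
  have hE : 0 < Real.exp ((m : ℝ) ^ (1 / 4 : ℝ)) := Real.exp_pos _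
  rcases le_total 0 (Dq Q (d + 1) Y) with h | h
  · rw [abs_of_nonneg h] at hρ hg
    refine hJ (Dq Q) (dq_hasDeriv Q) _ Y hρ fun z hz => ?_
    obtain ⟨h1, h2⟩ := hg z hz
    obtain ⟨h3, h4⟩ := abs_le.1 h1
    refine ⟨by linarith, by linarith, h2.trans (mul_le_mul_of_nonneg_left (by linarith) hE.le)⟩
  · rw [abs_of_nonpos h] at hρ hg
    have h5 := hJ (Dq (-Q)) (dq_hasDeriv (-Q)) _ Y hρ fun z hz => ?_
    · have h6 : (fun z : ℕ → ℝ => e (Dq (-Q) 0 (Y + sr z))) = fun z => e (-(Q.eval (Y + sr z))) := by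
        funext z
        congr 1
        rw [dq_neg]
        rfl
      rw [h6, norm_int_neg] at h5
      exact h5
    · obtain ⟨h1, h2⟩ := hg z hz
      obtain ⟨h3, h4⟩ := abs_le.1 h1
      rw [dq_neg, dq_neg, abs_neg]
      refine ⟨by linarith, by linarith, h2.trans (mul_le_mul_of_nonneg_left (by linarith) hE.le)⟩

private lemma rho_large (ρ b : ℝ) (hρ : 1 < ρ) (hb : ρ < b) : ∃ m₀ : ℕ, ∀ m : ℕ, m₀ ≤ m →
    ρ ^ m ≤ 249 / 250 * (Real.exp (-(m : ℝ) ^ (1 / 4 : ℝ) / 2) * b ^ m) := by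
  have hρ0 : 0 < ρ := by linarith
  have hb0 : 0 < b := by linarith
  obtain ⟨c, hc⟩ : ∃ c : ℝ, c = Real.log (b / ρ) := ⟨_, rfl⟩
  have hc0 : 0 < c := by
    rw [hc]
    exact Real.log_pos ((one_lt_div hρ0).2 hb)
  obtain ⟨M, hM⟩ := exists_nat_ge (1 / c ^ 2)
  refine ⟨max M 1, fun m hm => ?_⟩
  have hm1 : (1 : ℝ) ≤ m := by exact_mod_cast (le_max_right M 1).trans hm
  have hm2 : 1 / c ^ 2 ≤ (m : ℝ) := hM.trans (by exact_mod_cast (le_max_left M 1).trans hm)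
  have hm0 : (0 : ℝ) ≤ m := by linarith
  obtain ⟨s, hs⟩ : ∃ s : ℝ, s = Real.sqrt m := ⟨_, rfl⟩
  have hs0 : 0 ≤ s := by rw [hs]; exact Real.sqrt_nonneg _
  have hss : s * s = m := by rw [hs]; exact Real.mul_self_sqrt hm0
  have hs1 : 1 ≤ s := by
    by_contra h
    push Not at h
    nlinarith
  have h1 : (m : ℝ) ^ (1 / 4 : ℝ) ≤ s := by
    rw [hs, Real.sqrt_eq_rpow]
    exact Real.rpow_le_rpow_of_exponent_le hm1 (by norm_num)
  have h2 : s ≤ c * m := by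
    have h3 : 1 ≤ c ^ 2 * m := by
      have := (div_le_iff₀ (by positivity : (0 : ℝ) < c ^ 2)).1 hm2
      linarith
    have h4 : 1 ≤ c * s := by
      by_contra h
      push Not at h
      have h5 : (c * s) * (c * s) < 1 := by
        have : 0 ≤ c * s := by positivity
        nlinarith
      have h6 : (c * s) * (c * s) = c ^ 2 * m := by
        rw [← hss]
        ring
      linarith
    calc s = s * 1 := by ring
      _ ≤ s * (c * s) := mul_le_mul_of_nonneg_left h4 hs0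
      _ = c * m := by rw [← hss]; ring
  have hbe : b ^ m = ρ ^ m * Real.exp (c * m) := by
    rw [hc, mul_comm (Real.log (b / ρ)), Real.exp_nat_mul, Real.exp_log (by positivity), div_pow]
    field_simp
  have h7 : (1 : ℝ) ≤ 249 / 250 * (Real.exp (-(m : ℝ) ^ (1 / 4 : ℝ) / 2) * Real.exp (c * m)) := by
    rw [← Real.exp_add]
    have h8 : (1 / 2 : ℝ) ≤ -(m : ℝ) ^ (1 / 4 : ℝ) / 2 + c * m := by linarith
    have h9 := Real.add_one_le_exp (-(m : ℝ) ^ (1 / 4 : ℝ) / 2 + c * m)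
    linarith
  rw [hbe]
  have h10 : 0 ≤ ρ ^ m := by positivity
  calc ρ ^ m = ρ ^ m * 1 := by ring
    _ ≤ ρ ^ m * (249 / 250 * (Real.exp (-(m : ℝ) ^ (1 / 4 : ℝ) / 2) * Real.exp (c * m))) :=
      mul_le_mul_of_nonneg_left h7 h10
    _ = 249 / 250 * (Real.exp (-(m : ℝ) ^ (1 / 4 : ℝ) / 2) * (ρ ^ m * Real.exp (c * m))) := by ring

theorem anti_x {N : ℕ → ℝ} (hN : NT N) (C : ℝ) (hC : 0 ≤ C) (A : ℕ) (x δ : ℝ) (hx : 0 < x)
    (hδ0 : 0 < δ) (hδ1 : δ ≤ 1 / 4) (ν : ℕ → Measure ℝ) [∀ k, IsProbabilityMeasure (ν k)]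
    (hνB : ∀ k : ℕ, ∀ᵐ z ∂(ν k), |z| ≤ C * ((k : ℝ) + 1) ^ A)
    (hνx : ∀ η : ℝ, 0 < η → ∃ k₀ : ℕ, ∀ k : ℕ, k₀ ≤ k →
      (k : ℝ) ^ (-1 + δ) ≤ ((ν k).prod (ν k)).real {p : ℝ × ℝ | |p.1 - p.2 - x| ≤ η})
    (q D : ℕ) (v : ℕ → ℝ) : ∃ m₀ : ℕ, ∀ m : ℕ, m₀ ≤ m → ∀ y0 : ℝ,
      (Measure.infinitePi ν).real {y | |∑ k ∈ range q, y k * v k + ser N q y - y0| ≤
        Real.exp (-(m : ℝ) ^ (1 / 5 : ℝ))} ≤ 1 / (m : ℝ) ^ D := by
  obtain ⟨m₀, hm₀⟩ := anti hN C hC A x δ hx hδ0 hδ1 ν hνB hνx q D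
  refine ⟨m₀, fun m hm y0 => ?_⟩
  have h0 := hm₀ m hm
  obtain ⟨r, hr⟩ : ∃ r : ℝ, r = Real.exp (-(m : ℝ) ^ (1 / 5 : ℝ)) := ⟨_, rfl⟩
  rw [← hr] at h0 ⊢
  obtain ⟨S, hS⟩ : ∃ S : (ℕ → ℝ) → ℝ, S = fun y => ∑ k ∈ range q, y k * v k := ⟨_, rfl⟩
  have hSm : Measurable S := by
    rw [hS]
    exact Finset.measurable_sum _ fun k _ => (measurable_pi_apply k).mul_const _
  have hser := Pool.Agent.Helper59.RG.measurable_ser N q
  obtain ⟨E, hE⟩ : ∃ E : Set (ℕ → ℝ), E = {y | |S y + ser N q y - y0| ≤ r} := ⟨_, rfl⟩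
  have hEm : MeasurableSet E := by
    rw [hE]
    exact measurableSet_le (((hSm.add hser).sub_const y0).abs) measurable_const
  have hE' : {y : ℕ → ℝ | |∑ k ∈ range q, y k * v k + ser N q y - y0| ≤ r} = E := by
    rw [hE, hS]
  rw [hE']
  have h1 : (((Measure.infinitePi ν).real E : ℝ) : ℂ) =
      ∫ y, E.indicator (fun _ => (1 : ℂ)) y ∂(Measure.infinitePi ν) := by
    rw [integral_indicator_const _ hEm]
    simp
  have hFm : Measurable (E.indicator (fun _ => (1 : ℂ))) := measurable_const.indicator hEm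
  have hFb : ∀ y, ‖E.indicator (fun _ => (1 : ℂ)) y‖ ≤ 1 := by
    intro y
    by_cases hy : y ∈ E
    · rw [Set.indicator_of_mem hy]
      simp
    · rw [Set.indicator_of_notMem hy]
      simp
  rw [Pool.Agent.Helper59.RG.mix ν q (E.indicator (fun _ => (1 : ℂ))) hFm 1 hFb] at h1
  have h2 : ∀ y : ℕ → ℝ, ‖∫ z, E.indicator (fun _ => (1 : ℂ)) (fun k => if k < q then y k else z k)
      ∂(Measure.infinitePi ν)‖ ≤ 1 / (m : ℝ) ^ D := by
    intro y
    obtain ⟨E2, hE2⟩ : ∃ E2 : Set (ℕ → ℝ), E2 = {z | |ser N q z - (y0 - S y)| ≤ r} := ⟨_, rfl⟩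
    have hE2m : MeasurableSet E2 := by
      rw [hE2]
      exact measurableSet_le ((hser.sub_const _).abs) measurable_const
    have h3 : (fun z : ℕ → ℝ => E.indicator (fun _ => (1 : ℂ)) (fun k => if k < q then y k else z k)) =
        fun z => E2.indicator (fun _ => (1 : ℂ)) z := by
      funext z
      have h4 : (fun k => if k < q then y k else z k) ∈ E ↔ z ∈ E2 := by
        rw [hE, hE2]
        show |S (fun k => if k < q then y k else z k) +
          ser N q (fun k => if k < q then y k else z k) - y0| ≤ r ↔ |ser N q z - (y0 - S y)| ≤ r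
        rw [ser_tailQ]
        have h5 : S (fun k => if k < q then y k else z k) = S y := by
          rw [hS]
          exact sum_updQ q q le_rfl y z v
        rw [h5]
        have h6 : S y + ser N q z - y0 = ser N q z - (y0 - S y) := by ring
        rw [h6]
      by_cases hz : z ∈ E2
      · rw [Set.indicator_of_mem hz, Set.indicator_of_mem (h4.2 hz)]
      · rw [Set.indicator_of_notMem hz, Set.indicator_of_notMem (fun h => hz (h4.1 h))]
    rw [h3, integral_indicator_const _ hE2m]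
    have h7 : ‖(Measure.infinitePi ν).real E2 • (1 : ℂ)‖ = (Measure.infinitePi ν).real E2 := by
      rw [norm_smul, norm_one, mul_one, Real.norm_eq_abs, abs_of_nonneg measureReal_nonneg]
    rw [h7, hE2]
    exact h0 _
  have h8 := norm_integral_le_of_norm_le_const (Filter.Eventually.of_forall h2 :
    ∀ᵐ y ∂(Measure.infinitePi ν), _)
  rw [← h1] at h8
  have h9 : ‖(((Measure.infinitePi ν).real E : ℝ) : ℂ)‖ = (Measure.infinitePi ν).real E := by
    rw [Complex.norm_real, Real.norm_eq_abs, abs_of_nonneg measureReal_nonneg]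
  rw [h9] at h8
  simpa using h8

theorem corrQ {N : ℕ → ℝ} (hN : NT N) (C : ℝ) (hC : 0 ≤ C) (A : ℕ) (x δ : ℝ) (hx : 0 < x)
    (hδ0 : 0 < δ) (hδ1 : δ ≤ 1 / 4) (ν : ℕ → Measure ℝ) [∀ k, IsProbabilityMeasure (ν k)]
    (hνB : ∀ k : ℕ, ∀ᵐ z ∂(ν k), |z| ≤ C * ((k : ℝ) + 1) ^ A)
    (hνx : ∀ η : ℝ, 0 < η → ∃ k₀ : ℕ, ∀ k : ℕ, k₀ ≤ k →
      (k : ℝ) ^ (-1 + δ) ≤ ((ν k).prod (ν k)).real {p : ℝ × ℝ | |p.1 - p.2 - x| ≤ η})
    (b' w : ℝ) (hb : 1 < b') (hw : 0 < w) (q : ℕ) (v : ℕ → ℝ) (α β : ℝ)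
    (hα : b' ≤ α - ser N q (fun k => C * ((k : ℝ) + 1) ^ A))
    (hβ : β + ser N q (fun k => C * ((k : ℝ) + 1) ^ A) ≤ b' + w) (J B D : ℕ) (c0 : ℝ)
    (hc0 : 0 < c0) :
    ∃ m₀ : ℕ, ∀ m : ℕ, m₀ ≤ m → ∀ Q : ℝ[X], QC J B m c0 Q →
      ‖∫ y in {y : ℕ → ℝ | α ≤ ∑ k ∈ range q, y k * v k ∧ ∑ k ∈ range q, y k * v k ≤ β},
        e (Q.eval (∑ k ∈ range q, y k * v k + ser N q y)) ∂(Measure.infinitePi ν)‖ ≤
        1 / (m : ℝ) ^ D := by
  obtain ⟨ρ, hρd⟩ : ∃ ρ : ℝ, ρ = (1 + b') / 2 := ⟨_, rfl⟩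
  have hρ : 1 < ρ := by rw [hρd]; linarith
  have hρb : ρ < b' := by rw [hρd]; linarith
  obtain ⟨d, hd2, hd⟩ := corrJ hN C hC A x δ hx hδ0 hδ1 ν hνB hνx ρ hρ
  obtain ⟨m1, hm1⟩ := hd (D + 1)
  obtain ⟨K2, m2, hm2⟩ := badp J B d c0 (b' + w) hc0
  obtain ⟨m3, hm3⟩ := anti_x hN C hC A x δ hx hδ0 hδ1 ν hνB hνx q (D + K2 + 1) v
  obtain ⟨m4, hm4⟩ := goody J B d c0
  obtain ⟨m5, hm5⟩ := bady J B d c0
  obtain ⟨m6, hm6⟩ := tail_exp hN.bs C hC A
  obtain ⟨m7, hm7⟩ := rho_large ρ b' hρ hρb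
  refine ⟨m1 + m2 + m3 + m4 + m5 + m6 + m7 + q ^ 2 + 2, fun m hm Q hQ => ?_⟩
  have hq' : q ≤ Nat.sqrt m := Nat.le_sqrt'.2 (by omega)
  obtain ⟨q', hq'd⟩ : ∃ q' : ℕ, q' = Nat.sqrt m := ⟨_, rfl⟩
  have hJ := hm1 m (by omega)
  have hbad := hm2 m (by omega) Q hQ
  have hant := hm3 m (by omega)
  have hgood := hm4 m (by omega) Q hQ
  have hbady := hm5 m (by omega) Q hQ
  have hW := hm6 m (by omega)
  have hlarge := hm7 m (by omega)
  have hm2' : (2 : ℝ) ≤ m := by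
    have : 2 ≤ m := by omega
    exact_mod_cast this
  have hm0 : (0 : ℝ) < m := by linarith
  rw [← hq'd] at hq' hJ hW
  obtain ⟨Bd, hBd⟩ : ∃ Bd : ℕ → ℝ, Bd = fun k : ℕ => C * ((k : ℝ) + 1) ^ A := ⟨_, rfl⟩
  have hBs : Summable fun k => Bd k / N k := by
    rw [hBd]
    exact Pool.Agent.Helper59.RG.tail_summable hN.bs C A
  rw [← hBd] at hα hβ hJ hW
  have hνB' : ∀ k : ℕ, ∀ᵐ z ∂(ν k), |z| ≤ Bd k := by
    rw [hBd]
    exact hνB
  have hNp := hN.bs.pos
  obtain ⟨S, hS⟩ : ∃ S : (ℕ → ℝ) → ℝ, S = fun y => ∑ k ∈ range q, y k * v k := ⟨_, rfl⟩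
  have hSm : Measurable S := by
    rw [hS]
    exact Finset.measurable_sum _ fun k _ => (measurable_pi_apply k).mul_const _
  obtain ⟨X, hX⟩ : ∃ X : (ℕ → ℝ) → ℝ, X = fun y => S y + ser N q y := ⟨_, rfl⟩
  have hXm : Measurable X := by
    rw [hX]
    exact hSm.add (Pool.Agent.Helper59.RG.measurable_ser N q)
  obtain ⟨G, hG⟩ : ∃ G : Set (ℕ → ℝ), G = {y : ℕ → ℝ | α ≤ S y ∧ S y ≤ β} := ⟨_, rfl⟩
  have hGm : MeasurableSet G := by
    rw [hG]
    exact (measurableSet_le measurable_const hSm).inter (measurableSet_le hSm measurable_const)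
  have hG' : {y : ℕ → ℝ | α ≤ ∑ k ∈ range q, y k * v k ∧ ∑ k ∈ range q, y k * v k ≤ β} = G := by
    rw [hG, hS]
  obtain ⟨F0, hF0⟩ : ∃ F0 : (ℕ → ℝ) → ℂ, F0 = fun y => e (Q.eval (X y)) := ⟨_, rfl⟩
  have hF0' : (fun y : ℕ → ℝ => e (Q.eval (∑ k ∈ range q, y k * v k + ser N q y))) = F0 := by
    rw [hF0, hX, hS]
  rw [hG', hF0', ← integral_indicator hGm]
  have hem : Measurable (fun t : ℝ => e t) := by
    unfold Pool.Agent.Helper59.RE.e
    fun_prop
  have hF0m : Measurable F0 := by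
    rw [hF0]
    exact hem.comp (Q.continuous.measurable.comp hXm)
  have hFm : Measurable (G.indicator F0) := hF0m.indicator hGm
  have hFb : ∀ y, ‖G.indicator F0 y‖ ≤ 1 := by
    intro y
    by_cases hy : y ∈ G
    · rw [Set.indicator_of_mem hy, hF0]
      exact (Pool.Agent.Helper59.RE.norm_e _).le
    · rw [Set.indicator_of_notMem hy]
      simp
  rw [Pool.Agent.Helper59.RG.mix ν q' (G.indicator F0) hFm 1 hFb]
  have hbd : ∀ᵐ y ∂(Measure.infinitePi ν), ∀ k, |y k| ≤ Bd k :=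
    ae_all_iff.2 fun k => (measurePreserving_eval_infinitePi ν k).quasiMeasurePreserving.ae (hνB' k)
  -- the bad event
  obtain ⟨E1, hE1⟩ : ∃ E1 : Set ℝ, E1 = {x : ℝ | 1 ≤ x ∧ x ≤ b' + w ∧
      |Dq Q (d + 1) x| ≤ Real.exp (-(m : ℝ) ^ (1 / 4 : ℝ) / 4) / 3 * x ^ Q.natDegree} := ⟨_, rfl⟩
  have hDqm : Measurable (fun x : ℝ => Dq Q (d + 1) x) := by
    unfold Dq
    exact (derivative^[d + 1] Q).continuous.measurable
  have hE1m : MeasurableSet E1 := by
    rw [hE1]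
    refine (measurableSet_le measurable_const measurable_id).inter
      ((measurableSet_le measurable_id measurable_const).inter
        (measurableSet_le hDqm.abs ((measurable_id.pow_const _).const_mul _)))
  rw [← hE1] at hbad
  have hP : (Measure.infinitePi ν).real (X ⁻¹' E1) ≤ 1 / (m : ℝ) ^ (D + 1) := by
    haveI : IsProbabilityMeasure ((Measure.infinitePi ν).map X) :=
      Measure.isProbabilityMeasure_map hXm.aemeasurable
    have h1 := hbad ((Measure.infinitePi ν).map X) (1 / (m : ℝ) ^ (D + K2 + 1)) ?_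
    · rw [map_measureReal_apply hXm hE1m] at h1
      refine h1.trans (le_of_eq ?_)
      have h2 : (m : ℝ) ^ (D + K2 + 1) = (m : ℝ) ^ K2 * (m : ℝ) ^ (D + 1) := by
        rw [← pow_add]
        congr 1
        ring
      rw [h2]
      have h3 : (m : ℝ) ^ K2 ≠ 0 := by positivity
      have h4 : (m : ℝ) ^ (D + 1) ≠ 0 := by positivity
      field_simp
    · intro y0
      have hms : MeasurableSet {x : ℝ | |x - y0| ≤ Real.exp (-(m : ℝ) ^ (1 / 5 : ℝ))} :=
        measurableSet_le ((measurable_id.sub_const y0).abs) measurable_const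
      rw [map_measureReal_apply hXm hms]
      have h5 := hant y0
      have h6 : X ⁻¹' {x : ℝ | |x - y0| ≤ Real.exp (-(m : ℝ) ^ (1 / 5 : ℝ))} =
          {y | |∑ k ∈ range q, y k * v k + ser N q y - y0| ≤
            Real.exp (-(m : ℝ) ^ (1 / 5 : ℝ))} := by
        rw [hX, hS]
        rfl
      rw [h6]
      exact h5
  have hb1 : (1 : ℝ) ≤ b' := hb.le
  have hmain : ∀ᵐ y ∂(Measure.infinitePi ν),
      ‖∫ z, G.indicator F0 (fun k => if k < q' then y k else z k) ∂(Measure.infinitePi ν)‖ ≤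
        1 / (m : ℝ) ^ (D + 1) + (X ⁻¹' E1).indicator (fun _ => (1 : ℝ)) y := by
    filter_upwards [hbd] with y hy
    have hpos : 0 ≤ 1 / (m : ℝ) ^ (D + 1) := by positivity
    have hind : 0 ≤ (X ⁻¹' E1).indicator (fun _ => (1 : ℝ)) y :=
      Set.indicator_nonneg (fun _ _ => zero_le_one) y
    have hSu : ∀ z : ℕ → ℝ, S (fun k => if k < q' then y k else z k) = S y := by
      intro z
      rw [hS]
      exact sum_updQ q q' hq' y z v
    by_cases hyG : y ∈ G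
    · have hyG' : α ≤ S y ∧ S y ≤ β := by
        rw [hG] at hyG
        exact hyG
      obtain ⟨Y, hY⟩ : ∃ Y : ℝ, Y = S y + ∑ k ∈ Ico q q', y k / N k := ⟨_, rfl⟩
      obtain ⟨W, hWd⟩ : ∃ W : ℝ, W = ser N q' Bd := ⟨_, rfl⟩
      rw [← hWd] at hJ hW
      have h3 := abs_le.1 (Pool.Agent.Helper59.RG.ser_mid hNp hBs hy q q' hq')
      rw [← hWd] at h3
      have hXY : |X y - Y| ≤ W := by
        have h4 : X y - Y = ser N q' y := by
          rw [hX, hY]
          show S y + ser N q y - _ = _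
          rw [Pool.Agent.Helper59.RG.ser_split hNp hBs hy q q' hq']
          ring
        rw [h4, hWd]
        exact Pool.Agent.Helper59.RG.ser_abs hNp hBs hy q'
      have hW0 : 0 ≤ W := (abs_nonneg _).trans hXY
      have hY1 : b' ≤ Y - W := by
        rw [hY]
        linarith [h3.1, hyG'.1]
      have hY2 : Y + W ≤ b' + w := by
        rw [hY]
        linarith [h3.2, hyG'.2]
      by_cases hgd : Real.exp (-(m : ℝ) ^ (1 / 4 : ℝ) / 2) * Y ^ Q.natDegree ≤ |Dq Q (d + 1) Y|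
      · -- good
        have h1 : (∫ z, G.indicator F0 (fun k => if k < q' then y k else z k)
            ∂(Measure.infinitePi ν)) =
            ∫ z, e (Q.eval (Y + ser N q' z)) ∂(Measure.infinitePi ν) := by
          refine integral_congr_ae ?_
          filter_upwards [hbd] with z hz
          have h2 : (fun k => if k < q' then y k else z k) ∈ G := by
            rw [hG]
            change α ≤ S _ ∧ S _ ≤ β
            rw [hSu z]
            exact hyG'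
          rw [Set.indicator_of_mem h2, hF0, hX, hY]
          dsimp only
          rw [hSu z, ser_updQ hNp hBs q q' hq' y z hy hz, add_assoc]
        rw [h1]
        have h5 : ρ ^ m ≤ 249 / 250 * |Dq Q (d + 1) Y| := by
          refine hlarge.trans (mul_le_mul_of_nonneg_left ?_ (by norm_num))
          refine le_trans (mul_le_mul_of_nonneg_left ?_ (Real.exp_pos _).le) hgd
          have h6 : b' ^ m ≤ b' ^ Q.natDegree := pow_le_pow_right₀ hb1 hQ.d1
          have h7 : b' ^ Q.natDegree ≤ Y ^ Q.natDegree :=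
            pow_le_pow_left₀ (by linarith) (by linarith) _
          exact h6.trans h7
        have h8 := good_int (Measure.infinitePi ν) m (D + 1) d W ρ (ser N q') hJ Q Y h5
          (hgood Y W hW0 (by linarith) hW hgd)
        linarith
      · -- bad
        push Not at hgd
        have hXY' := abs_le.1 hXY
        have h1 : y ∈ X ⁻¹' E1 := by
          rw [hE1]
          refine ⟨by linarith, by linarith, ?_⟩
          exact hbady Y (X y) W hXY (by linarith) (by linarith) hW hgd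
        rw [Set.indicator_of_mem h1]
        have h2 := norm_integral_le_of_norm_le_const (Filter.Eventually.of_forall
          (fun z : ℕ → ℝ => hFb (fun k => if k < q' then y k else z k)) :
          ∀ᵐ z ∂(Measure.infinitePi ν), _)
        have h3 : ‖∫ z, G.indicator F0 (fun k => if k < q' then y k else z k)
            ∂(Measure.infinitePi ν)‖ ≤ 1 := by
          simpa using h2
        linarith
    · have h1 : ∀ z : ℕ → ℝ, G.indicator F0 (fun k => if k < q' then y k else z k) = 0 := by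
        intro z
        refine Set.indicator_of_notMem ?_ _
        intro h2
        rw [hG] at h2 hyG
        have h3 : α ≤ S (fun k => if k < q' then y k else z k) ∧
          S (fun k => if k < q' then y k else z k) ≤ β := h2
        rw [hSu z] at h3
        exact hyG h3
      simp only [h1, integral_zero, norm_zero]
      linarith
  have hint : Integrable (fun y => 1 / (m : ℝ) ^ (D + 1) +
      (X ⁻¹' E1).indicator (fun _ => (1 : ℝ)) y) (Measure.infinitePi ν) :=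
    (integrable_const _).add ((integrable_const (1 : ℝ)).indicator (hXm hE1m))
  refine (norm_integral_le_of_norm_le hint hmain).trans ?_
  have h10 : (∫ y, (1 / (m : ℝ) ^ (D + 1) + (X ⁻¹' E1).indicator (fun _ => (1 : ℝ)) y)
      ∂(Measure.infinitePi ν)) = 1 / (m : ℝ) ^ (D + 1) + (Measure.infinitePi ν).real (X ⁻¹' E1) := by
    rw [integral_add (integrable_const _) ((integrable_const (1 : ℝ)).indicator (hXm hE1m)),
      integral_indicator_const _ (hXm hE1m)]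
    simp
  rw [h10]
  have h11 : 1 / (m : ℝ) ^ (D + 1) + 1 / (m : ℝ) ^ (D + 1) ≤ 1 / (m : ℝ) ^ D := by
    rw [pow_succ, ← add_div, div_le_div_iff₀ (by positivity) (by positivity)]
    have h12 : (0 : ℝ) < (m : ℝ) ^ D := by positivity
    nlinarith
  linarith

end Pool.Agent.Helper59.PQ
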