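import Pool.Agent.Helper59.PQ.CorrQ
import Pool.Agent.Helper59.PP.PMain

/-!
# Block PQ-DECORX: the almost sure statement on an event of the first digits

PROOF of `decorX`.  `G = {y | α ≤ S_q(y) ∧ S_q(y) ≤ β}`, `μ' = ProbabilityTheory.cond (infinitePi ν) G = (infinitePi ν G)⁻¹ • restrict`, `K = (infinitePi ν).real G`⁻¹.  Let `B` be given, `p = natDegree P`,
`J = (p + 1) B`, `c0 = |leadingCoeff P| > 0`; `corrQ` with `J`, `B + 1`, `D = B + 1`, `c0` gives `m₀`.  For `n ≥ n₀` and `w` as in `Decor` put `m = a n ≥ n` (`StrictMono.id_le`) and `Q = Qp P a w n`: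
`QC J (B+1) m c0 Q`: `qp_deg` (`m ≤ natDegree Q = m + p ≤ 2 m`, `|lc Q| = |w n| |lc P| ≥ c0` as `w n` is a nonzero integer), `qp_card`, `qp_l1` (`l1 Q ≤ l1 P B n^B ≤ m^(B+1)` for `n` large).
`∑_(l ≤ n) w l (P(X) X^(a l) + c l) = Q(X) + ∑_l w l c l` (`eval_mul`, `eval_finset_sum`), so the integral is `e (const)` times `K ∫_G e (Q(X))`, of norm at most `K / m^(B+1) ≤ 1 / n^B` for `n ≥ K`.
`asX`: if `infinitePi ν G = 0` there is nothing to prove; otherwise `pmain` for `μ'` (a probability measure; the functions are measurable by `measurable_ser`) and `ae_cond..` as in `RG/AsG.lean`.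
-/

namespace Pool.Agent.Helper59.PQ

open Finset MeasureTheory Polynomial ProbabilityTheory
open Pool.Agent.Helper59.RG (ser NT)
open Pool.Agent.Helper59.PP (Decor Poiss GapLaw)

private theorem normcond53 {Ω : Type*} [MeasurableSpace Ω] (μ : Measure Ω) (G : Set Ω) (f : Ω → ℂ) :
    ‖∫ y, f y ∂(ProbabilityTheory.cond μ G)‖ = ((μ G)⁻¹).toReal * ‖∫ y in G, f y ∂μ‖ := by
  have h : ∫ y, f y ∂(ProbabilityTheory.cond μ G) = ((μ G)⁻¹).toReal • ∫ y in G, f y ∂μ :=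
    integral_smul_measure f (μ G)⁻¹
  rw [h, norm_smul, Real.norm_of_nonneg ENNReal.toReal_nonneg]

private theorem evalQ53 (P : ℝ[X]) (a : ℕ → ℕ) (w : ℕ → ℤ) (n : ℕ) (c : ℕ → ℝ) (t : ℝ) :
    ∑ l ∈ range (n + 1), (w l : ℝ) * (P.eval t * t ^ a l + c l) =
      (Qp P a w n).eval t + ∑ l ∈ range (n + 1), (w l : ℝ) * c l := by
  unfold Qp
  rw [eval_mul, eval_finsetSum, Finset.mul_sum, ← Finset.sum_add_distrib]
  refine Finset.sum_congr rfl fun l _ => ?_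
  rw [eval_mul, eval_C, eval_pow, eval_X]
  ring

private theorem qc53 (P : ℝ[X]) (hP : P ≠ 0) (a : ℕ → ℕ) (ha : StrictMono a) (B n : ℕ) (hn1 : 1 ≤ n)
    (hnP : P.natDegree ≤ n) (hnl : l1 P * B ≤ n) (w : ℕ → ℤ) (hw : w n ≠ 0)
    (hc : ((range (n + 1)).filter (fun l => w l ≠ 0)).card ≤ B)
    (hM : ∀ l, |(w l : ℝ)| ≤ (n : ℝ) ^ B) :
    QC ((P.natDegree + 1) * B) (B + 1) (a n) |P.leadingCoeff| (Qp P a w n) := by
  obtain ⟨h1, h2⟩ := qp_deg P hP a ha w n hw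
  have han : n ≤ a n := ha.le_apply
  have hn0 : (0 : ℝ) < n := by exact_mod_cast hn1
  have hanr : (n : ℝ) ≤ (a n : ℝ) := by exact_mod_cast han
  refine ⟨?_, ?_, ?_, ?_, ?_⟩
  · rw [h1]
    omega
  · rw [h1]
    omega
  · rw [h2, abs_mul]
    have h3 : (1 : ℝ) ≤ |((w n : ℤ) : ℝ)| := by
      have h4 : (1 : ℤ) ≤ |w n| := Int.one_le_abs hw
      have h5 : ((1 : ℤ) : ℝ) ≤ ((|w n| : ℤ) : ℝ) := by exact_mod_cast h4
      rwa [Int.cast_one, Int.cast_abs] at h5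
    calc |P.leadingCoeff| = 1 * |P.leadingCoeff| := (one_mul _).symm
      _ ≤ |((w n : ℤ) : ℝ)| * |P.leadingCoeff| := mul_le_mul_of_nonneg_right h3 (abs_nonneg _)
  · exact (qp_card P a w n).trans (Nat.mul_le_mul_left _ hc)
  · refine (qp_l1 P a w n ((n : ℝ) ^ B) hM).trans ?_
    have h3 : (((range (n + 1)).filter (fun l => w l ≠ 0)).card : ℝ) ≤ (B : ℝ) := by exact_mod_cast hc
    calc l1 P * ((((range (n + 1)).filter (fun l => w l ≠ 0)).card : ℝ) * (n : ℝ) ^ B)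
        ≤ l1 P * ((B : ℝ) * (n : ℝ) ^ B) :=
          mul_le_mul_of_nonneg_left (mul_le_mul_of_nonneg_right h3 (by positivity)) (l1_nonneg P)
      _ = (l1 P * B) * (n : ℝ) ^ B := by ring
      _ ≤ (n : ℝ) * (n : ℝ) ^ B := mul_le_mul_of_nonneg_right hnl (by positivity)
      _ = (n : ℝ) ^ (B + 1) := by ring
      _ ≤ (a n : ℝ) ^ (B + 1) := pow_le_pow_left₀ hn0.le hanr _

/-- The abstract form. -/
private theorem decor53 {Ω : Type*} [MeasurableSpace Ω] (μ : Measure Ω) (G : Set Ω) (X : Ω → ℝ)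
    (P : ℝ[X]) (hP : P ≠ 0)
    (hcor : ∀ (J B D : ℕ) (c0 : ℝ), 0 < c0 → ∃ m₀ : ℕ, ∀ m : ℕ, m₀ ≤ m → ∀ Q : ℝ[X], QC J B m c0 Q →
      ‖∫ y in G, Pool.Agent.Helper59.RE.e (Q.eval (X y)) ∂μ‖ ≤ 1 / (m : ℝ) ^ D)
    (a : ℕ → ℕ) (ha : StrictMono a) (c : ℕ → ℝ) :
    Decor (cond μ G) (fun i y => P.eval (X y) * (X y) ^ a i + c i) := by
  intro B
  obtain ⟨m₀, hm₀⟩ := hcor ((P.natDegree + 1) * B) (B + 1) (B + 1) |P.leadingCoeff|
    (abs_pos.2 (leadingCoeff_ne_zero.2 hP))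
  obtain ⟨K, hK⟩ : ∃ K : ℝ, K = ((μ G)⁻¹).toReal := ⟨_, rfl⟩
  have hK0 : 0 ≤ K := by rw [hK]; exact ENNReal.toReal_nonneg
  refine ⟨m₀ + P.natDegree + ⌈l1 P * B⌉₊ + ⌈K⌉₊ + 1, fun n hn w hw hc hM => ?_⟩
  have hn1 : 1 ≤ n := by omega
  have hn0 : (0 : ℝ) < n := by exact_mod_cast hn1
  have han : n ≤ a n := ha.le_apply
  have hanr : (n : ℝ) ≤ (a n : ℝ) := by exact_mod_cast han
  have hnl : l1 P * B ≤ n := by
    have h1 : ⌈l1 P * B⌉₊ ≤ n := by omega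
    exact (Nat.le_ceil _).trans (by exact_mod_cast h1)
  have hnK : K ≤ n := by
    have h1 : ⌈K⌉₊ ≤ n := by omega
    exact (Nat.le_ceil _).trans (by exact_mod_cast h1)
  have hQ := qc53 P hP a ha B n hn1 (by omega) hnl w hw hc hM
  have h1 := hm₀ (a n) (by omega) (Qp P a w n) hQ
  rw [normcond53, ← hK]
  have h2 : ∀ y, Pool.Agent.Helper59.RE.e (∑ l ∈ range (n + 1), (w l : ℝ) * (P.eval (X y) * (X y) ^ a l + c l)) =
      Pool.Agent.Helper59.RE.e ((Qp P a w n).eval (X y)) *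
        Pool.Agent.Helper59.RE.e (∑ l ∈ range (n + 1), (w l : ℝ) * c l) := by
    intro y
    rw [evalQ53, Pool.Agent.Helper59.RE.e_add]
  have h3 : ‖∫ y in G, Pool.Agent.Helper59.RE.e
      (∑ l ∈ range (n + 1), (w l : ℝ) * (P.eval (X y) * (X y) ^ a l + c l)) ∂μ‖ =
      ‖∫ y in G, Pool.Agent.Helper59.RE.e ((Qp P a w n).eval (X y)) ∂μ‖ := by
    simp only [h2]
    rw [integral_mul_const, norm_mul, Pool.Agent.Helper59.RE.norm_e, mul_one]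
  rw [h3]
  calc K * ‖∫ y in G, Pool.Agent.Helper59.RE.e ((Qp P a w n).eval (X y)) ∂μ‖
      ≤ K * (1 / (a n : ℝ) ^ (B + 1)) := mul_le_mul_of_nonneg_left h1 hK0
    _ ≤ n * (1 / (n : ℝ) ^ (B + 1)) := by
        refine mul_le_mul hnK ?_ (by positivity) hn0.le
        exact one_div_le_one_div_of_le (by positivity) (pow_le_pow_left₀ hn0.le hanr _)
    _ = 1 / (n : ℝ) ^ B := by
        rw [pow_succ]
        field_simp

/-- The abstract form of the almost sure statement. -/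
private theorem as53 {Ω : Type*} [MeasurableSpace Ω] (μ : Measure Ω) [IsProbabilityMeasure μ]
    (G : Set Ω) (hG : MeasurableSet G) (u : ℕ → Ω → ℝ) (hu : ∀ n, Measurable (u n))
    (hd : μ G ≠ 0 → Decor (cond μ G) u) :
    ∀ᵐ y ∂μ, y ∈ G → Poiss (fun i => u i y) ∧ GapLaw (fun i => u i y) := by
  by_cases h0 : μ G = 0
  · filter_upwards [measure_eq_zero_iff_ae_notMem.1 h0] with y hy hy2
    exact absurd hy2 hy
  · have hprob : IsProbabilityMeasure (ProbabilityTheory.cond μ G) :=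
      ProbabilityTheory.cond_isProbabilityMeasure h0
    have hfin := Pool.Agent.Helper59.PP.pmain (ProbabilityTheory.cond μ G) u hu (hd h0)
    have hne : (μ G)⁻¹ ≠ 0 := ENNReal.inv_ne_zero.2 (measure_ne_top μ G)
    have h5 : ∀ᵐ y ∂(μ.restrict G), Poiss (fun i => u i y) ∧ GapLaw (fun i => u i y) :=
      (Measure.ae_ennreal_smul_measure_iff hne).1 hfin
    exact (ae_restrict_iff' hG).1 h5

theorem decorX {N : ℕ → ℝ} (hN : NT N) (C : ℝ) (hC : 0 ≤ C) (A : ℕ) (x δ : ℝ) (hx : 0 < x)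
    (hδ0 : 0 < δ) (hδ1 : δ ≤ 1 / 4) (ν : ℕ → Measure ℝ) [∀ k, IsProbabilityMeasure (ν k)]
    (hνB : ∀ k : ℕ, ∀ᵐ z ∂(ν k), |z| ≤ C * ((k : ℝ) + 1) ^ A)
    (hνx : ∀ η : ℝ, 0 < η → ∃ k₀ : ℕ, ∀ k : ℕ, k₀ ≤ k →
      (k : ℝ) ^ (-1 + δ) ≤ ((ν k).prod (ν k)).real {p : ℝ × ℝ | |p.1 - p.2 - x| ≤ η})
    (b' w : ℝ) (hb : 1 < b') (hw : 0 < w) (q : ℕ) (v : ℕ → ℝ) (α β : ℝ)
    (hα : b' ≤ α - ser N q (fun k => C * ((k : ℝ) + 1) ^ A))
    (hβ : β + ser N q (fun k => C * ((k : ℝ) + 1) ^ A) ≤ b' + w)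
    (hG : Measure.infinitePi ν
      {y : ℕ → ℝ | α ≤ ∑ k ∈ range q, y k * v k ∧ ∑ k ∈ range q, y k * v k ≤ β} ≠ 0)
    (P : ℝ[X]) (hP : P ≠ 0) (a : ℕ → ℕ) (ha : StrictMono a) (c : ℕ → ℝ) :
    Decor (cond (Measure.infinitePi ν)
      {y : ℕ → ℝ | α ≤ ∑ k ∈ range q, y k * v k ∧ ∑ k ∈ range q, y k * v k ≤ β})
      (fun i y => P.eval (∑ k ∈ range q, y k * v k + ser N q y) *
        (∑ k ∈ range q, y k * v k + ser N q y) ^ a i + c i) := by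
  refine decor53 (Measure.infinitePi ν) _ (fun y => ∑ k ∈ range q, y k * v k + ser N q y) P hP ?_ a ha c
  intro J B D c0 hc0
  exact corrQ hN C hC A x δ hx hδ0 hδ1 ν hνB hνx b' w hb hw q v α β hα hβ J B D c0 hc0

theorem asX {N : ℕ → ℝ} (hN : NT N) (C : ℝ) (hC : 0 ≤ C) (A : ℕ) (x δ : ℝ) (hx : 0 < x)
    (hδ0 : 0 < δ) (hδ1 : δ ≤ 1 / 4) (ν : ℕ → Measure ℝ) [∀ k, IsProbabilityMeasure (ν k)]
    (hνB : ∀ k : ℕ, ∀ᵐ z ∂(ν k), |z| ≤ C * ((k : ℝ) + 1) ^ A)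
    (hνx : ∀ η : ℝ, 0 < η → ∃ k₀ : ℕ, ∀ k : ℕ, k₀ ≤ k →
      (k : ℝ) ^ (-1 + δ) ≤ ((ν k).prod (ν k)).real {p : ℝ × ℝ | |p.1 - p.2 - x| ≤ η})
    (b' w : ℝ) (hb : 1 < b') (hw : 0 < w) (q : ℕ) (v : ℕ → ℝ) (α β : ℝ)
    (hα : b' ≤ α - ser N q (fun k => C * ((k : ℝ) + 1) ^ A))
    (hβ : β + ser N q (fun k => C * ((k : ℝ) + 1) ^ A) ≤ b' + w)
    (P : ℝ[X]) (hP : P ≠ 0) (a : ℕ → ℕ) (ha : StrictMono a) (c : ℕ → ℝ) :
    ∀ᵐ y ∂(Measure.infinitePi ν), α ≤ ∑ k ∈ range q, y k * v k →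
      ∑ k ∈ range q, y k * v k ≤ β →
      Poiss (fun i => P.eval (∑ k ∈ range q, y k * v k + ser N q y) *
        (∑ k ∈ range q, y k * v k + ser N q y) ^ a i + c i) ∧
      GapLaw (fun i => P.eval (∑ k ∈ range q, y k * v k + ser N q y) *
        (∑ k ∈ range q, y k * v k + ser N q y) ^ a i + c i) := by
  have hSm : Measurable (fun y : ℕ → ℝ => ∑ k ∈ range q, y k * v k) :=
    Finset.measurable_sum _ fun k _ => (measurable_pi_apply k).mul_const _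
  have hGm : MeasurableSet {y : ℕ → ℝ | α ≤ ∑ k ∈ range q, y k * v k ∧
      ∑ k ∈ range q, y k * v k ≤ β} :=
    (measurableSet_le measurable_const hSm).inter (measurableSet_le hSm measurable_const)
  have hXm : Measurable (fun y : ℕ → ℝ => ∑ k ∈ range q, y k * v k + ser N q y) :=
    hSm.add (Pool.Agent.Helper59.RG.measurable_ser N q)
  have hum : ∀ i, Measurable (fun y : ℕ → ℝ => P.eval (∑ k ∈ range q, y k * v k + ser N q y) *
      (∑ k ∈ range q, y k * v k + ser N q y) ^ a i + c i) := by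
    intro i
    have h1 : Measurable (fun y : ℕ → ℝ => P.eval (∑ k ∈ range q, y k * v k + ser N q y)) :=
      P.continuous.measurable.comp hXm
    exact (h1.mul (hXm.pow_const (a i))).add measurable_const
  have h := as53 (Measure.infinitePi ν) _ hGm
    (fun i y => P.eval (∑ k ∈ range q, y k * v k + ser N q y) *
      (∑ k ∈ range q, y k * v k + ser N q y) ^ a i + c i) hum
    (fun h0 => decorX hN C hC A x δ hx hδ0 hδ1 ν hνB hνx b' w hb hw q v α β hα hβ h0 P hP a ha c)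
  filter_upwards [h] with y hy h1 h2
  exact hy ⟨h1, h2⟩

end Pool.Agent.Helper59.PQ
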