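import Mathlib

/-!
# Project PQ (MP_9056e9_nt): Poissonian powers, second half.  Polynomials with few terms

`Q(x) = P(x) ∑_(l ≤ n) w_l x^(a_l)` has few terms, moderate coefficients and a leading coefficient which is bounded below.
-/

namespace Pool.Agent.Helper59.PQ

open Finset Polynomial

/-- The sum of the absolute values of the coefficients. -/
noncomputable def l1 (Q : ℝ[X]) : ℝ := ∑ i ∈ Q.support, |Q.coeff i|

/-- The `i`-th derivative, evaluated. -/
noncomputable def Dq (Q : ℝ[X]) (i : ℕ) (x : ℝ) : ℝ := (derivative^[i] Q).eval x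

/-- `P(x) ∑_(l ≤ n) w_l x^(a_l)`. -/
noncomputable def Qp (P : ℝ[X]) (a : ℕ → ℕ) (w : ℕ → ℤ) (n : ℕ) : ℝ[X] :=
  P * ∑ l ∈ range (n + 1), C (w l : ℝ) * X ^ a l

/-- The conditions on the polynomial: degree between `m` and `2 m`, leading coefficient at least `c0`, at most `J` terms, coefficients of size at most `m^B`. -/
structure QC (J B m : ℕ) (c0 : ℝ) (Q : ℝ[X]) : Prop where
  d1 : m ≤ Q.natDegree
  d2 : Q.natDegree ≤ 2 * m
  lc : c0 ≤ |Q.leadingCoeff|
  sc : Q.support.card ≤ J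
  cf : l1 Q ≤ (m : ℝ) ^ B

theorem dq_hasDeriv (Q : ℝ[X]) (i : ℕ) (x : ℝ) : HasDerivAt (Dq Q i) (Dq Q (i + 1) x) x := by
  unfold Dq
  rw [Function.iterate_succ_apply']
  exact (derivative^[i] Q).hasDerivAt x

end Pool.Agent.Helper59.PQ
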