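import Pool.Agent.Helper59.RF.Win

/-!
# Project PQ (MP_9056e9_nt): windows with an error `E` and a bound `Y` for the second derivative
-/

namespace Pool.Agent.Helper59.PQ

open Finset

/-- The windows used in the proof, `Y` is the bound for the second derivative, `E` the error. -/
structure WE (N : ℕ → ℝ) (Z t0 : ℝ) (d Q L : ℕ) (Y E : ℝ) where
  W : ℕ → Fin Q → Fin (d + 1) → Finset ℕ
  TT : ℕ → Fin Q → Finset (Fin (d + 1) → ℕ)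
  mem : ∀ i < L, ∀ j, ∀ τ ∈ TT i j, ∀ l, τ l ∈ W i j l
  disj : ∀ i < L, ∀ i' < L, ∀ j j' l l', (i ≠ i' ∨ j ≠ j' ∨ l ≠ l') →
    Disjoint (W i j l) (W i' j' l')
  tight : ∀ i < L, ∀ j, ∀ τ ∈ TT i j, t0 ≤ Z / ∏ l, N (τ l) ∧ Z / ∏ l, N (τ l) ≤ 3 / 4
  e1 : ∀ i < L, ∀ j, ∀ K ∈ W i j (Fin.last d), Y / N K ^ 2 ≤ E
  e2 : ∀ i < L, ∀ i' < L, i < i' → ∀ j j', ∀ K ∈ W i j (Fin.last d), ∀ l : Fin d,
    ∀ k ∈ W i' j' l.castSucc, Y / (N K * N k) ≤ E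
  e3 : ∀ i < L, ∀ j, ∀ τ ∈ TT i j, ∀ c : Fin d → Fin Q, (∃ l, j < c l) → ∀ k : Fin d → ℕ,
    (∀ l, k l ∈ W i (c l) l.castSucc) →
    Z / (N (τ (Fin.last d)) * ∏ l, N (k l)) ≤ E

/-- The scale `i` is good for the set `U` of chosen digits. -/
def WE.Good {N : ℕ → ℝ} {Z t0 : ℝ} {d Q L : ℕ} {Y E : ℝ} (w : WE N Z t0 d Q L Y E)
    (U : Finset ℕ) (i : ℕ) : Prop := ∀ j : Fin Q, ∃ τ ∈ w.TT i j, ∀ l, τ l ∈ U

/-- The gain of one good scale. -/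
noncomputable def gamE (t0 E : ℝ) (d Q : ℕ) : ℝ :=
  ((1 - 2 * t0 ^ 2 / 4 ^ d) ^ Q + 2 * Q * (2.02 * d * Q ^ d * E)) ^ ((1 : ℝ) / 2 ^ d)

end Pool.Agent.Helper59.PQ
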