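import Pool.Agent.Helper59.PQ.DefsQ

/-!
# Block PQ-DERL: one of the first derivatives of a polynomial with few terms is large

PROOF.  Induction on `J`, for all `R`.  `J = 0`: `R.support = ∅`, `R = 0`.  Step `J + 1`: if `R.support.card ≤ 1` then `R = C c X^D` (`card_support_le_one_iff_monomial`) and
`|c| x^D = |R(x)| = |Dq R 0 x| ≤ ∑`, and the factor `(2 (x + D + J + 1))^(J+1)` is `≥ 1`.
Otherwise let `e = R.natTrailingDegree < D = R.natDegree` and `G = X * derivative R - C e * R`: `G.coeff j = (j - e) R.coeff j`, so `G.support = R.support.erase e` has at most `J`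
elements, `G.natDegree = D`, `G.leadingCoeff = (D - e) R.leadingCoeff`, of absolute value `≥ |R.leadingCoeff|` (`D - e ≥ 1` integer).
`Dq G i x = x Dq R (i+1) x + (i - e) Dq R i x` (induction on `i`, or `Polynomial.iterate_derivative_X_mul`), and `|i - e| ≤ J + D` for `i < J`, so
`∑_(i < J) |Dq G i x| ≤ (x + D + J) ∑_(i < J+1) |Dq R i x|`: indeed
`∑_(i<J) x |Dq R (i+1) x| ≤ x ∑_(i < J+1) |Dq R i x|`, and similarly for the second sum.  With the induction hypothesis for `G`:
`|lc R| x^D ≤ (2 (x + D + J))^J (x + D + J) ∑_(i < J+1) |Dq R i x| ≤ (2 (x + D + J + 1))^(J+1) ∑`.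
-/

namespace Pool.Agent.Helper59.PQ

open Finset Polynomial

private theorem coeffG26 (R : ℝ[X]) (e : ℝ) (j : ℕ) :
    (X * derivative R - C e * R).coeff j = ((j : ℝ) - e) * R.coeff j := by
  rw [coeff_sub, coeff_C_mul]
  cases j with
  | zero =>
    rw [mul_coeff_zero, coeff_X_zero]
    push_cast
    ring
  | succ j =>
    rw [coeff_X_mul, coeff_derivative]
    push_cast
    ring

private theorem iterG26 (R : ℝ[X]) (e : ℝ) (i : ℕ) :
    derivative^[i] (X * derivative R - C e * R) =
      X * derivative^[i + 1] R + C ((i : ℝ) - e) * derivative^[i] R := by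
  induction i with
  | zero =>
    simp only [Function.iterate_zero, id_eq, Function.iterate_succ, Function.comp_apply, Nat.cast_zero,
      zero_sub, C_neg]
    ring
  | succ i ih =>
    rw [Function.iterate_succ_apply', ih, derivative_add, derivative_mul, derivative_X, derivative_C_mul,
      ← Function.iterate_succ_apply' derivative (i + 1) R, ← Function.iterate_succ_apply' derivative i R]
    push_cast
    rw [C_sub, C_sub, C_add]
    simp only [map_one, map_natCast]
    ring

theorem derl (J : ℕ) : ∀ R : ℝ[X], R ≠ 0 → R.support.card ≤ J → ∀ x : ℝ, 1 ≤ x →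
    |R.leadingCoeff| * x ^ R.natDegree ≤
      (2 * (x + R.natDegree + J)) ^ J * ∑ i ∈ range J, |Dq R i x| := by
  intro R
  induction J generalizing R with
  | zero =>
    intro hR hc
    exact absurd (support_eq_empty.1 (Finset.card_eq_zero.1 (Nat.le_zero.1 hc))) hR
  | succ J ih =>
    intro hR hc x hx
    have hx0 : (0 : ℝ) ≤ x := by linarith
    have hS0 : 0 ≤ ∑ i ∈ range (J + 1), |Dq R i x| := Finset.sum_nonneg fun i _ => abs_nonneg _
    by_cases h1 : R.support.card ≤ 1
    · have hm : R = C R.leadingCoeff * X ^ R.natDegree := by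
        have h2 := (card_support_le_one_iff_monomial).1 h1
        obtain ⟨k, a, ha⟩ := h2
        have ha0 : a ≠ 0 := by
          rintro rfl
          rw [map_zero] at ha
          exact hR ha
        rw [ha, natDegree_monomial_eq _ ha0, leadingCoeff_monomial, C_mul_X_pow_eq_monomial]
      have h2 : |R.leadingCoeff| * x ^ R.natDegree = |Dq R 0 x| := by
        have h3 : Dq R 0 x = R.leadingCoeff * x ^ R.natDegree := by
          have h4 : Dq R 0 x = R.eval x := rfl
          rw [h4]
          conv_lhs => rw [hm]
          rw [eval_mul, eval_C, eval_pow, eval_X]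
        rw [h3, abs_mul, abs_of_nonneg (pow_nonneg hx0 _)]
      rw [h2]
      have h3 : |Dq R 0 x| ≤ ∑ i ∈ range (J + 1), |Dq R i x| :=
        Finset.single_le_sum (f := fun i => |Dq R i x|) (fun i _ => abs_nonneg _)
          (Finset.mem_range.2 (Nat.succ_pos J))
      have h4 : (1 : ℝ) ≤ (2 * (x + R.natDegree + ((J + 1 : ℕ) : ℝ))) ^ (J + 1) := by
        refine one_le_pow₀ ?_
        have h5 : (0 : ℝ) ≤ (R.natDegree : ℝ) := Nat.cast_nonneg _
        have h6 : (0 : ℝ) ≤ ((J + 1 : ℕ) : ℝ) := Nat.cast_nonneg _
        linarith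
      exact h3.trans (le_mul_of_one_le_left hS0 h4)
    · obtain ⟨e, he⟩ : ∃ e, e = R.natTrailingDegree := ⟨_, rfl⟩
      obtain ⟨D, hD⟩ : ∃ D, D = R.natDegree := ⟨_, rfl⟩
      obtain ⟨G, hG⟩ : ∃ G : ℝ[X], G = X * derivative R - C (e : ℝ) * R := ⟨_, rfl⟩
      have hems : e ∈ R.support := by
        rw [he]
        exact natTrailingDegree_mem_support_of_nonzero hR
      have heD : e < D := by
        by_contra hcon
        apply h1
        rw [Finset.card_le_one]
        intro a ha b hb
        have h2 : ∀ a ∈ R.support, a = e := by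
          intro a ha
          have h3 : a ≤ D := by
            rw [hD]
            exact le_natDegree_of_mem_supp a ha
          have h4 : e ≤ a := by
            rw [he]
            exact natTrailingDegree_le_of_mem_supp a ha
          omega
        rw [h2 a ha, h2 b hb]
      have hlc0 : R.leadingCoeff ≠ 0 := leadingCoeff_ne_zero.2 hR
      have hGc : ∀ j, G.coeff j = ((j : ℝ) - e) * R.coeff j := by
        intro j
        rw [hG]
        exact coeffG26 R e j
      have hDe : (1 : ℝ) ≤ (D : ℝ) - e := by
        have h2 : (e : ℝ) + 1 ≤ D := by exact_mod_cast heD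
        linarith
      have hGD : G.coeff D = ((D : ℝ) - e) * R.leadingCoeff := by
        rw [hGc, hD]
        rfl
      have hGD0 : G.coeff D ≠ 0 := by
        rw [hGD]
        exact mul_ne_zero (by linarith) hlc0
      have hGdeg : G.natDegree = D := by
        refine natDegree_eq_of_le_of_coeff_ne_zero ?_ hGD0
        rw [natDegree_le_iff_coeff_eq_zero]
        intro j hj
        rw [hGc, coeff_eq_zero_of_natDegree_lt (by rw [← hD]; exact hj), mul_zero]
      have hGlc : G.leadingCoeff = ((D : ℝ) - e) * R.leadingCoeff := by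
        rw [leadingCoeff, hGdeg, hGD]
      have hG0 : G ≠ 0 := by
        rintro rfl
        rw [coeff_zero] at hGD0
        exact hGD0 rfl
      have hGs : G.support.card ≤ J := by
        have h2 : G.support ⊆ R.support.erase e := by
          intro j hj
          rw [mem_support_iff, hGc] at hj
          rw [Finset.mem_erase, mem_support_iff]
          refine ⟨?_, right_ne_zero_of_mul hj⟩
          rintro rfl
          exact hj (by rw [sub_self, zero_mul])
        have h3 := Finset.card_le_card h2
        rw [Finset.card_erase_of_mem hems] at h3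
        omega
      have h2 := ih G hG0 hGs x hx
      rw [hGdeg, hGlc] at h2
      have h3 : ∑ i ∈ range J, |Dq G i x| ≤ (x + D + J) * ∑ i ∈ range (J + 1), |Dq R i x| := by
        have h4 : ∀ i ∈ range J, |Dq G i x| ≤ x * |Dq R (i + 1) x| + (D + J) * |Dq R i x| := by
          intro i hi
          rw [Finset.mem_range] at hi
          have h5 : Dq G i x = x * Dq R (i + 1) x + ((i : ℝ) - e) * Dq R i x := by
            unfold Dq
            rw [hG, iterG26, eval_add, eval_mul, eval_mul, eval_X, eval_C]
          have h6 : |(i : ℝ) - e| ≤ D + J := by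
            have h7 : (i : ℝ) ≤ J := by exact_mod_cast hi.le
            have h8 : (e : ℝ) ≤ D := by exact_mod_cast heD.le
            have h9 : (0 : ℝ) ≤ (i : ℝ) := Nat.cast_nonneg _
            have h10 : (0 : ℝ) ≤ (e : ℝ) := Nat.cast_nonneg _
            rw [abs_le]
            constructor <;> linarith
          rw [h5]
          refine (abs_add_le _ _).trans ?_
          rw [abs_mul, abs_mul, abs_of_nonneg hx0]
          exact add_le_add le_rfl (mul_le_mul_of_nonneg_right h6 (abs_nonneg _))
        refine (Finset.sum_le_sum h4).trans ?_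
        rw [Finset.sum_add_distrib, ← Finset.mul_sum, ← Finset.mul_sum]
        have h5 : ∑ i ∈ range J, |Dq R (i + 1) x| ≤ ∑ i ∈ range (J + 1), |Dq R i x| := by
          rw [Finset.sum_range_succ' (fun i => |Dq R i x|) J]
          have := abs_nonneg (Dq R 0 x)
          linarith
        have h6 : ∑ i ∈ range J, |Dq R i x| ≤ ∑ i ∈ range (J + 1), |Dq R i x| := by
          rw [Finset.sum_range_succ]
          have := abs_nonneg (Dq R J x)
          linarith
        have h7 : (0 : ℝ) ≤ (D : ℝ) + J := by positivity
        have h8 := mul_le_mul_of_nonneg_left h5 hx0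
        have h9 := mul_le_mul_of_nonneg_left h6 h7
        calc x * ∑ i ∈ range J, |Dq R (i + 1) x| + (D + J) * ∑ i ∈ range J, |Dq R i x|
            ≤ x * ∑ i ∈ range (J + 1), |Dq R i x| + (D + J) * ∑ i ∈ range (J + 1), |Dq R i x| :=
              add_le_add h8 h9
          _ = (x + D + J) * ∑ i ∈ range (J + 1), |Dq R i x| := by ring
      rw [← hD]
      have hDJ : (0 : ℝ) ≤ x + D + J := by positivity
      have h4 : |R.leadingCoeff| ≤ |((D : ℝ) - e) * R.leadingCoeff| := by
        rw [abs_mul, abs_of_nonneg (by linarith : (0 : ℝ) ≤ (D : ℝ) - e)]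
        exact le_mul_of_one_le_left (abs_nonneg _) hDe
      have h5 : (2 * (x + D + J)) ^ J ≤ (2 * (x + D + ((J + 1 : ℕ) : ℝ))) ^ J := by
        refine pow_le_pow_left₀ (by positivity) ?_ J
        push_cast
        linarith
      have h6 : x + D + J ≤ 2 * (x + D + ((J + 1 : ℕ) : ℝ)) := by
        push_cast
        linarith
      calc |R.leadingCoeff| * x ^ D ≤ |((D : ℝ) - e) * R.leadingCoeff| * x ^ D :=
            mul_le_mul_of_nonneg_right h4 (pow_nonneg hx0 _)
        _ ≤ (2 * (x + D + J)) ^ J * ∑ i ∈ range J, |Dq G i x| := h2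
        _ ≤ (2 * (x + D + J)) ^ J * ((x + D + J) * ∑ i ∈ range (J + 1), |Dq R i x|) :=
            mul_le_mul_of_nonneg_left h3 (by positivity)
        _ = ((2 * (x + D + J)) ^ J * (x + D + J)) * ∑ i ∈ range (J + 1), |Dq R i x| := by ring
        _ ≤ ((2 * (x + D + ((J + 1 : ℕ) : ℝ))) ^ J * (2 * (x + D + ((J + 1 : ℕ) : ℝ)))) *
              ∑ i ∈ range (J + 1), |Dq R i x| := by
            refine mul_le_mul_of_nonneg_right ?_ hS0
            exact mul_le_mul h5 h6 hDJ (by positivity)
        _ = (2 * (x + D + ((J + 1 : ℕ) : ℝ))) ^ (J + 1) * ∑ i ∈ range (J + 1), |Dq R i x| := by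
            rw [pow_succ]

end Pool.Agent.Helper59.PQ
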