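import Pool.Agent.Helper59.PQ.DefsW

/-!
# Block PQ-TRAE: the windows for perturbed denominators

PROOF.  As `tra` in `RG/Tra.lean` (copy it).  `w'.W = w.W`, `w'.TT = w.TT`.
* `tight` as there.
* `e1`: `Y / (N' K)² = Lam Z / (N' K)² ≤ Lam a^(d-1) Z0 / (N K)² ≤ Lam a^(d-1) / Es s ≤ E` by `w.f1` (`Z = 5/6 Z0 a^(d+1)`, `(N' K)² ≥ a² (1-ε)² (N K)² ≥ a² 10/11 (N K)²`,
  `5/6 * 11/10 ≤ 1`).  `e2`: the same with `w.f2`.
* `e3`: as there with `w.f3`, and `1 / Es s ≤ E`.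
-/

namespace Pool.Agent.Helper59.PQ

open Finset
open Pool.Agent.Helper59.RF (WS WT Es)

private theorem tra_prod_h17 {N N' : ℕ → ℝ} (hN : ∀ k, 0 < N k) {a ε : ℝ} {d : ℕ} (ha : 0 < a)
    (hε0 : 0 ≤ ε) (hε1 : ε < 1) (hε2 : (1 + ε) ^ (d + 1) ≤ 11 / 10)
    (hε3 : 10 / 11 ≤ (1 - ε) ^ (d + 1))
    (hNN : ∀ k, a * N k * (1 - ε) ≤ N' k ∧ N' k ≤ a * N k * (1 + ε)) (f : Fin (d + 1) → ℕ) :
    10 / 11 * (a ^ (d + 1) * ∏ l, N (f l)) ≤ ∏ l, N' (f l) ∧
      ∏ l, N' (f l) ≤ 11 / 10 * (a ^ (d + 1) * ∏ l, N (f l)) := by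
  have h1 : 0 < 1 - ε := by linarith
  have h2 : 0 < 1 + ε := by linarith
  have hP : 0 < a ^ (d + 1) * ∏ l, N (f l) :=
    mul_pos (pow_pos ha _) (Finset.prod_pos fun l _ => hN _)
  have e1 : ∏ l, (a * N (f l) * (1 - ε)) = (1 - ε) ^ (d + 1) * (a ^ (d + 1) * ∏ l, N (f l)) := by
    rw [Finset.prod_mul_distrib, Finset.prod_mul_distrib, Finset.prod_const, Finset.prod_const,
      Finset.card_univ, Fintype.card_fin]
    ring
  have e2 : ∏ l, (a * N (f l) * (1 + ε)) = (1 + ε) ^ (d + 1) * (a ^ (d + 1) * ∏ l, N (f l)) := by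
    rw [Finset.prod_mul_distrib, Finset.prod_mul_distrib, Finset.prod_const, Finset.prod_const,
      Finset.card_univ, Fintype.card_fin]
    ring
  constructor
  · calc 10 / 11 * (a ^ (d + 1) * ∏ l, N (f l))
        ≤ (1 - ε) ^ (d + 1) * (a ^ (d + 1) * ∏ l, N (f l)) :=
          mul_le_mul_of_nonneg_right hε3 hP.le
      _ = ∏ l, (a * N (f l) * (1 - ε)) := e1.symm
      _ ≤ ∏ l, N' (f l) :=
          Finset.prod_le_prod (fun l _ => by have := hN (f l); positivity) fun l _ => (hNN _).1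
  · calc ∏ l, N' (f l) ≤ ∏ l, (a * N (f l) * (1 + ε)) :=
          Finset.prod_le_prod (fun l _ => le_trans (by have := hN (f l); positivity) (hNN _).1)
            fun l _ => (hNN _).2
      _ = (1 + ε) ^ (d + 1) * (a ^ (d + 1) * ∏ l, N (f l)) := e2
      _ ≤ 11 / 10 * (a ^ (d + 1) * ∏ l, N (f l)) := mul_le_mul_of_nonneg_right hε2 hP.le

theorem traE {N N' : ℕ → ℝ} (hN : ∀ k, 0 < N k) {a ε Z Z0 δ t0 Lam E : ℝ} {s d Q L : ℕ}
    (ha : 0 < a) (hε0 : 0 ≤ ε) (hε1 : ε < 1) (hε2 : (1 + ε) ^ (d + 1) ≤ 11 / 10)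
    (hε3 : 10 / 11 ≤ (1 - ε) ^ (d + 1))
    (hNN : ∀ k, a * N k * (1 - ε) ≤ N' k ∧ N' k ≤ a * N k * (1 + ε)) (hZ : 0 ≤ Z)
    (hZ0 : Z0 * a ^ (d + 1) = 6 / 5 * Z) (hd : 2 ≤ d) (ht0 : 0 < t0) (hs1 : 1 ≤ s)
    (hLam : 1 ≤ Lam) (hE1 : Lam * a ^ (d - 1) / Es s ≤ E) (hE2 : 1 / Es s ≤ E)
    (w : WT N δ Z0 t0 s d Q L) :
    ∃ w' : WE N' Z (t0 / 2) d Q L (Lam * Z) E, w'.TT = w.TT ∧ w'.W = w.W := by
  have h1 : 0 < 1 - ε := by linarith
  have h2 : 0 < 1 + ε := by linarith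
  have had : 0 < a ^ (d + 1) := pow_pos ha _
  have hEs : 0 < Es s := Pool.Agent.Helper59.RF.Es_pos s hs1
  have hZe : Z = 5 / 6 * (Z0 * a ^ (d + 1)) := by rw [hZ0]; ring
  have hZ0n : 0 ≤ Z0 := by
    by_contra hcon
    push Not at hcon
    have := mul_neg_of_neg_of_pos hcon had
    linarith
  have hpr := tra_prod_h17 hN ha hε0 hε1 hε2 hε3 hNN
  -- the comparison for products of d + 1 factors
  have up : ∀ X X' : ℝ, 0 < X → 10 / 11 * (a ^ (d + 1) * X) ≤ X' → Z / X' ≤ 11 / 12 * (Z0 / X) := by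
    intro X X' hX hXX
    have hX' : 0 < 10 / 11 * (a ^ (d + 1) * X) := by positivity
    calc Z / X' ≤ Z / (10 / 11 * (a ^ (d + 1) * X)) := div_le_div_of_nonneg_left hZ hX' hXX
      _ = 11 / 12 * (Z0 / X) := by
          rw [hZe]
          field_simp
          ring
  have lo : ∀ X X' : ℝ, 0 < X → 0 < X' → X' ≤ 11 / 10 * (a ^ (d + 1) * X) →
      25 / 33 * (Z0 / X) ≤ Z / X' := by
    intro X X' hX hX' hXX
    calc 25 / 33 * (Z0 / X) = Z / (11 / 10 * (a ^ (d + 1) * X)) := by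
          rw [hZe]
          field_simp
          ring
      _ ≤ Z / X' := div_le_div_of_nonneg_left hZ hX' hXX
  -- two factors
  have hsq : 10 / 11 ≤ (1 - ε) ^ 2 :=
    le_trans hε3 (pow_le_pow_of_le_one h1.le (by linarith) (by omega))
  have two : ∀ K k : ℕ, Z0 / (N K * N k) ≤ 1 / Es s → Lam * Z / (N' K * N' k) ≤ E := by
    intro K k hKk
    have hK := hN K
    have hk := hN k
    have hKK : 0 < a ^ 2 * (10 / 11) * (N K * N k) := by positivity
    have hlow : a ^ 2 * (10 / 11) * (N K * N k) ≤ N' K * N' k := by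
      calc a ^ 2 * (10 / 11) * (N K * N k) ≤ a ^ 2 * (1 - ε) ^ 2 * (N K * N k) := by
            apply mul_le_mul_of_nonneg_right _ (by positivity)
            exact mul_le_mul_of_nonneg_left hsq (by positivity)
        _ = (a * N K * (1 - ε)) * (a * N k * (1 - ε)) := by ring
        _ ≤ N' K * N' k := by
            apply mul_le_mul (hNN K).1 (hNN k).1 (by positivity)
            exact le_trans (by positivity) (hNN K).1
    have had1 : a ^ (d + 1) = a ^ (d - 1) * a ^ 2 := by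
      rw [← pow_add]
      congr 1
      omega
    have hLZ : 0 ≤ Lam * Z := mul_nonneg (by linarith) hZ
    calc Lam * Z / (N' K * N' k) ≤ Lam * Z / (a ^ 2 * (10 / 11) * (N K * N k)) :=
          div_le_div_of_nonneg_left hLZ hKK hlow
      _ = 11 / 12 * (Lam * a ^ (d - 1)) * (Z0 / (N K * N k)) := by
          rw [hZe, had1]
          field_simp
          ring
      _ ≤ 11 / 12 * (Lam * a ^ (d - 1)) * (1 / Es s) :=
          mul_le_mul_of_nonneg_left hKk (by positivity)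
      _ ≤ 1 * (Lam * a ^ (d - 1)) * (1 / Es s) := by
          apply mul_le_mul_of_nonneg_right _ (by positivity)
          apply mul_le_mul_of_nonneg_right (by norm_num) (by positivity)
      _ = Lam * a ^ (d - 1) / Es s := by ring
      _ ≤ E := hE1
  refine ⟨⟨w.W, w.TT, w.mem, w.disj, ?_, ?_, ?_, ?_⟩, rfl, rfl⟩
  · intro i hi j τ hτ
    obtain ⟨ht1, ht2⟩ := w.tight i hi j τ hτ
    obtain ⟨hp1, hp2⟩ := hpr τ
    have hX : 0 < ∏ l, N (τ l) := Finset.prod_pos fun l _ => hN _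
    have hX' : 0 < ∏ l, N' (τ l) := lt_of_lt_of_le (by positivity) hp1
    have hu := up _ _ hX hp1
    have hl := lo _ _ hX hX' hp2
    constructor
    · linarith
    · linarith
  · intro i hi j K hK
    rw [sq]
    apply two
    rw [← sq]
    exact w.f1 i hi j K hK
  · intro i hi i' hi' hii j j' K hK l k hk
    exact two K k (w.f2 i hi i' hi' hii j j' K hK l k hk)
  · intro i hi j τ hτ c hc k hk
    have h3 := w.f3 i hi j τ hτ c hc k hk
    obtain ⟨hp1, -⟩ := hpr (Fin.snoc (α := fun _ => ℕ) k (τ (Fin.last d)))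
    rw [Fin.prod_univ_castSucc, Fin.prod_univ_castSucc] at hp1
    simp only [Fin.snoc_castSucc, Fin.snoc_last] at hp1
    have hX : 0 < N (τ (Fin.last d)) * ∏ l, N (k l) :=
      mul_pos (hN _) (Finset.prod_pos fun l _ => hN _)
    have hu := up (N (τ (Fin.last d)) * ∏ l, N (k l)) (N' (τ (Fin.last d)) * ∏ l, N' (k l)) hX
      (by rw [mul_comm (N (τ (Fin.last d))), mul_comm (N' (τ (Fin.last d)))]; exact hp1)
    have h4 : 0 ≤ Z0 / (N (τ (Fin.last d)) * ∏ l, N (k l)) := by positivity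
    linarith

end Pool.Agent.Helper59.PQ
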