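import Pool.Agent.Helper59.PQ.FixE
import Pool.Agent.Helper59.PQ.TraE
import Pool.Agent.Helper59.RG.Pt

/-!
# Block PQ-PTE: the estimate for fixed digits

PROOF.  As `pt` in `RG/Pt.lean` (copy it), with `traE`, `fixE` (`Y = Lam Z`) in the place of `tra`, `fixU`.  `w'.Good (fs S c) i ↔ w.toWS.Good (fs S c) i` because `w'.TT = w.TT`.
-/

namespace Pool.Agent.Helper59.PQ

open Finset
open Pool.Agent.Helper59.RE (av e)
open Pool.Agent.Helper59.RF (Bs WS WT hf Tay Dif Es)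
open Pool.Agent.Helper59.RG (DE sel fs ser Ok)

/-- the perturbed denominators -/
private noncomputable def np78 (N : ℕ → ℝ) (x : ℝ) (c : ℕ → DE) : ℕ → ℝ := fun k =>
  if (c k).isLeft = true then N k / (sel (c k) true - sel (c k) false) else 1 / x * N k

private lemma np78_bd {N B : ℕ → ℝ} (hN : ∀ k, 0 < N k) {x ε : ℝ} (hx : 0 < x) (hε0 : 0 ≤ ε) (hε1 : ε < 1)
    (c : ℕ → DE) (hc : Ok B x ε c) (k : ℕ) :
    1 / x * N k * (1 - ε) ≤ np78 N x c k ∧ np78 N x c k ≤ 1 / x * N k * (1 + ε) := by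
  unfold np78
  have hN0 := hN k
  by_cases h : (c k).isLeft = true
  · rw [if_pos h]
    obtain ⟨p, hp⟩ := Sum.isLeft_iff.1 h
    have h1 := hc.pr k p hp
    have h2 : sel (c k) true - sel (c k) false = p.1 - p.2 := by
      rw [hp]
      simp [sel]
    rw [h2]
    exact (Pool.Agent.Helper59.RG.inv_pert hx hε0 hε1 hN0 h1).2
  · rw [if_neg h]
    have h1 : 0 < 1 / x * N k := by positivity
    constructor <;> nlinarith

private lemma xn78 {N : ℕ → ℝ} {x : ℝ} {c : ℕ → DE} (S T : Finset ℕ) (hT : T ⊆ fs S c) :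
    ∑ k ∈ T, (sel (c k) true - sel (c k) false) / N k = Pool.Agent.Helper59.RF.xN (np78 N x c) T := by
  unfold Pool.Agent.Helper59.RF.xN np78
  refine Finset.sum_congr rfl fun k hk => ?_
  have h1 : (c k).isLeft = true := (Finset.mem_filter.1 (hT hk)).2
  rw [if_pos h1, one_div_div]

open Classical in
theorem ptE {N B : ℕ → ℝ} (hN : ∀ k, 0 < N k) (hBs : Summable fun k => B k / N k)
    {θ x ε δ Z Z0 t0 Lam E : ℝ} {s d Q L q : ℕ} (hθN : ∀ k, 1 ≤ k → θ * N k ≤ N (k + 1))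
    (hx : 0 < x) (hε0 : 0 ≤ ε) (hε1 : ε < 1) (hε2 : (1 + ε) ^ (d + 1) ≤ 11 / 10)
    (hε3 : 10 / 11 ≤ (1 - ε) ^ (d + 1)) (hεθ : 1 + ε < θ * (1 - ε))
    (hs : 1 ≤ s) (hd : 2 ≤ d) (w : WT N δ Z0 t0 s d Q L)
    (ht0 : 0 < t0) (ht1 : t0 ≤ 6 / 25) (hLam : 1 ≤ Lam)
    (hE1 : Lam * (1 / x) ^ (d - 1) / Es s ≤ E) (hE2 : 1 / Es s ≤ E)
    (hγ : gamE (t0 / 2) E d Q ≤ 1) (hZ : 0 ≤ Z)
    (hZ0 : Z0 * (1 / x) ^ (d + 1) = 6 / 5 * Z) (f g : ℝ → ℝ) (y : ℝ)
    (hT : Tay f g (y - ser N q B) (y + ser N q B) (Lam * Z))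
    (hD : Dif d g (y - ser N q B) (y + ser N q B) Z)
    (S : Finset ℕ) (hS : ∀ k ∈ S, q ≤ k) (c : ℕ → DE) (hc : Ok B x ε c) :
    ‖av hf S (fun T => e (f (y + ser N q (fun k => sel (c k) (decide (k ∈ T))))))‖ ≤
      (∏ i ∈ range L, if w.toWS.Good (fs S c) i then gamE (t0 / 2) E d Q else 1) +
        (2 * d + 7) * (L * Q) ^ 2 * E := by
  classical
  have ha : 0 < 1 / x := by positivity
  have hNN := np78_bd hN hx hε0 hε1 c hc
  have hBs' : Bs (np78 N x c) := Pool.Agent.Helper59.RG.bs_pert hN ha hε0 hε1 hεθ hθN hNN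
  obtain ⟨w', hTT, -⟩ := traE hN ha hε0 hε1 hε2 hε3 hNN hZ hZ0 hd ht0 hs hLam hE1 hE2 w
  have hEs : 0 ≤ 1 / Es s := by
    unfold Pool.Agent.Helper59.RF.Es
    positivity
  have hE : 0 ≤ E := hEs.trans hE2
  obtain ⟨V, hVU, hV⟩ := fixE hBs' (by omega) w' (by positivity : 0 < t0 / 2)
    (by linarith) hE hγ hZ (by positivity) f g (y - ser N q B) (y + ser N q B) hT hD (fs S c)
  have hgood : ∀ i, w'.Good (fs S c) i ↔ w.toWS.Good (fs S c) i := by
    intro i
    unfold Pool.Agent.Helper59.RF.WS.Good WE.Good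
    rw [hTT]
  have hbound : (∏ i ∈ range L, if w'.Good (fs S c) i then gamE (t0 / 2) E d Q else 1) =
      ∏ i ∈ range L, if w.toWS.Good (fs S c) i then gamE (t0 / 2) E d Q else 1 := by
    refine Finset.prod_congr rfl fun i _ => ?_
    by_cases h : w.toWS.Good (fs S c) i
    · rw [if_pos h, if_pos ((hgood i).2 h)]
    · rw [if_neg h, if_neg (fun h' => h ((hgood i).1 h'))]
  rw [hbound] at hV
  obtain ⟨M, hM⟩ : ∃ M : ℝ, M = (∏ i ∈ range L, if w.toWS.Good (fs S c) i then gamE (t0 / 2) E d Q else 1) +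
        (2 * d + 7) * (L * Q) ^ 2 * E := ⟨_, rfl⟩
  rw [← hM] at hV ⊢
  obtain ⟨base, hbase⟩ : ∃ base : ℝ, base = y + ser N q (fun k => sel (c k) false) := ⟨_, rfl⟩
  have hUS : fs S c ⊆ S := Finset.filter_subset _ _
  have hval : ∀ T, T ⊆ fs S c → y + ser N q (fun k => sel (c k) (decide (k ∈ T))) =
      base + Pool.Agent.Helper59.RF.xN (np78 N x c) T := by
    intro T hTU
    rw [Pool.Agent.Helper59.RG.ser_sel hN hBs c hc.bd q S hS T hTU, xn78 (x := x) S T hTU, hbase]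
    ring
  have hab : ∀ T : Finset ℕ, |ser N q (fun k => sel (c k) (decide (k ∈ T)))| ≤ ser N q B :=
    fun T => Pool.Agent.Helper59.RG.ser_abs hN hBs (fun k => hc.bd k _) q
  have hred : ∀ T, T ⊆ S → (fun k => sel (c k) (decide (k ∈ T))) =
      fun k => sel (c k) (decide (k ∈ T ∩ fs S c)) := by
    intro T hTS
    funext k
    by_cases hk : k ∈ T
    · by_cases hkU : k ∈ fs S c
      · have h1 : k ∈ T ∩ fs S c := Finset.mem_inter.2 ⟨hk, hkU⟩
        rw [decide_eq_true hk, decide_eq_true h1]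
      · have h1 : ¬ (c k).isLeft = true := fun h => hkU (Finset.mem_filter.2 ⟨hTS hk, h⟩)
        cases hck : c k with
        | inl p =>
          rw [hck] at h1
          exact absurd rfl h1
        | inr z => rfl
    · have h1 : k ∉ T ∩ fs S c := fun h => hk (Finset.mem_inter.1 h).1
      rw [decide_eq_false hk, decide_eq_false h1]
  have hSV : S = (S \ V) ∪ V := (Finset.sdiff_union_of_subset (hVU.trans hUS)).symm
  have hsplit : av hf S (fun T => e (f (y + ser N q (fun k => sel (c k) (decide (k ∈ T)))))) =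
      av hf (S \ V) (fun T' => av hf V (fun T => e (f (y + ser N q (fun k => sel (c k) (decide (k ∈ T' ∪ T))))))) := by
    conv_lhs => rw [hSV]
    exact Pool.Agent.Helper59.RE.av_union hf (S \ V) V Finset.sdiff_disjoint _
  rw [hsplit]
  have hhf0 : ∀ k, 0 ≤ hf k := fun k => by unfold hf; norm_num
  have hhf1 : ∀ k, hf k ≤ 1 := fun k => by unfold hf; norm_num
  refine (Pool.Agent.Helper59.RE.av_norm hf hhf0 hhf1 _ _).trans ?_
  rw [← Pool.Agent.Helper59.RE.av_const hf (S \ V) M]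
  refine Pool.Agent.Helper59.RE.av_mono hf hhf0 hhf1 _ _ _ fun T' hT' => ?_
  have hT'S : T' ⊆ S := hT'.trans Finset.sdiff_subset
  have hdis : Disjoint (T' ∩ fs S c) V := by
    rw [Finset.disjoint_left]
    intro k hk
    exact (Finset.mem_sdiff.1 (hT' (Finset.mem_inter.1 hk).1)).2
  have hint : ∀ T, T ⊆ V → (T' ∪ T) ∩ fs S c = (T' ∩ fs S c) ∪ T := by
    intro T hTV
    rw [Finset.union_inter_distrib_right, Finset.inter_eq_left.2 (hTV.trans hVU)]
  have hsub : ∀ T, T ⊆ V → (T' ∩ fs S c) ∪ T ⊆ fs S c := fun T hTV =>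
    Finset.union_subset Finset.inter_subset_right (hTV.trans hVU)
  have hxu : ∀ T, T ⊆ V → Pool.Agent.Helper59.RF.xN (np78 N x c) ((T' ∩ fs S c) ∪ T) =
      Pool.Agent.Helper59.RF.xN (np78 N x c) (T' ∩ fs S c) + Pool.Agent.Helper59.RF.xN (np78 N x c) T :=
    fun T hTV => Pool.Agent.Helper59.RF.xN_union _ _ (Finset.disjoint_of_subset_right hTV hdis)
  have h1 : av hf V (fun T => e (f (y + ser N q (fun k => sel (c k) (decide (k ∈ T' ∪ T)))))) =
      av hf V (fun T => e (f ((base + Pool.Agent.Helper59.RF.xN (np78 N x c) (T' ∩ fs S c)) +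
        Pool.Agent.Helper59.RF.xN (np78 N x c) T))) := by
    refine Pool.Agent.Helper59.RE.av_congr _ _ _ _ fun T hTV => ?_
    rw [hred (T' ∪ T) (Finset.union_subset hT'S ((hTV.trans hVU).trans hUS)), hint T hTV,
      hval _ (hsub T hTV), hxu T hTV, add_assoc]
  rw [h1]
  have hsub0 : T' ∩ fs S c ⊆ fs S c := Finset.inter_subset_right
  refine hV _ ?_ ?_
  · rw [← hval _ hsub0]
    have := (abs_le.1 (hab (T' ∩ fs S c))).1
    linarith
  · rw [add_assoc, ← hxu V (Finset.Subset.refl V), ← hval _ (hsub V (Finset.Subset.refl V))]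
    have := (abs_le.1 (hab ((T' ∩ fs S c) ∪ V))).2
    linarith

end Pool.Agent.Helper59.PQ
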