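import Pool.Agent.Helper59.PQ.DefsQ

/-!
# Block PQ-QPF: the polynomial `P(x) ∑ w_l x^(a_l)`

PROOF.  `R = ∑_(l ≤ n) C (w l) X^(a l)`: `a` is strictly increasing, so `R` has degree `a n` and leading coefficient `w n` (`Finset.sum_range_succ`, the other terms have smaller
degree: `natDegree_add_eq_right_of_natDegree_lt` or `degree_sum_..`, or `coeff` computations: `R.coeff j = ∑ if j = a l then w l else 0`); `natDegree_mul`, `leadingCoeff_mul`.
* `qp_card`: `(P * R).support ⊆ P.support + R.support` (`support_mul`?), or: `P * R = ∑_(l, w l ≠ 0) C (w l) (P * X^(a l))`, each with support the shift of the support of `P`, which has at most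
  `natDegree P + 1` elements (`card_support_le_natDegree_succ` / `supp_subset_range`); `support_add`, `card_biUnion_le`.
* `l1_*`: `l1 (Q + R) ≤ l1 Q + l1 R`, `l1 (C c * (P * X^k)) = |c| l1 P` (coefficients: `coeff_mul_X_pow'`), `l1` of a finite sum.
* `l1_nonneg`, `dq_le`: `|Q.eval x| ≤ l1 Q x^T` for `x ≥ 1`, `natDegree Q ≤ T` (`eval_eq_sum`, `sum_def`); `l1 (derivative Q) ≤ T l1 Q` for `natDegree Q ≤ T` (`coeff_derivative`:
  the coefficient of `X^(j-1)` is `j` times that of `X^j`, `j ≤ T`), and `natDegree (derivative^[i] Q) ≤ natDegree Q`; induction on `i`.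
* `dq_iter`: `Function.iterate_add_apply`.
* `derv_*`: the coefficient of `X^(T - r)` of `derivative^[r] Q` is `T.descFactorial r * leadingCoeff Q` (`coeff_iterate_derivative`), `T.descFactorial r ≥ 1` for `r ≤ T = natDegree Q`;
  the degree is `T - r`; `support (derivative^[r] Q)` has at most as many elements as `support Q` (the map `j ↦ j + r` is injective from `support (derivative^[r] Q)` to `support Q`).
-/

namespace Pool.Agent.Helper59.PQ

open Finset Polynomial

private theorem l1_eq46 {Q : ℝ[X]} {S : Finset ℕ} (h : Q.support ⊆ S) :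
    l1 Q = ∑ i ∈ S, |Q.coeff i| := by
  unfold l1
  refine Finset.sum_subset h fun i _ hi => ?_
  rw [notMem_support_iff.1 hi, abs_zero]

private theorem l1_add46 (Q R : ℝ[X]) : l1 (Q + R) ≤ l1 Q + l1 R := by
  rw [l1_eq46 (support_add (p := Q) (q := R)), l1_eq46 (S := Q.support ∪ R.support) subset_union_left,
    l1_eq46 (Q := R) (S := Q.support ∪ R.support) subset_union_right, ← Finset.sum_add_distrib]
  refine Finset.sum_le_sum fun i _ => ?_
  rw [coeff_add]
  exact abs_add_le _ _

private theorem l1_zero46 : l1 (0 : ℝ[X]) = 0 := by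
  unfold l1
  rw [support_zero, Finset.sum_empty]

private theorem l1_sum46 {ι : Type*} (s : Finset ι) (f : ι → ℝ[X]) :
    l1 (∑ l ∈ s, f l) ≤ ∑ l ∈ s, l1 (f l) := by
  classical
  induction s using Finset.induction_on with
  | empty => rw [Finset.sum_empty, Finset.sum_empty, l1_zero46]
  | insert a s ha ih =>
    rw [Finset.sum_insert ha, Finset.sum_insert ha]
    exact (l1_add46 _ _).trans (by linarith)

private theorem coeff46 (P : ℝ[X]) (c : ℝ) (k i : ℕ) :
    (P * (C c * X ^ k)).coeff i = if k ≤ i then P.coeff (i - k) * c else 0 := by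
  rw [← mul_assoc, coeff_mul_X_pow', coeff_mul_C]

private theorem supp46 (P : ℝ[X]) (c : ℝ) (k : ℕ) :
    (P * (C c * X ^ k)).support ⊆ P.support.image (fun j => j + k) := by
  intro i hi
  rw [mem_support_iff, coeff46] at hi
  split_ifs at hi with h
  · rw [Finset.mem_image]
    refine ⟨i - k, ?_, by omega⟩
    rw [mem_support_iff]
    exact fun h0 => hi (by rw [h0, zero_mul])
  · exact absurd rfl hi

private theorem l1_shift46 (P : ℝ[X]) (c : ℝ) (k : ℕ) : l1 (P * (C c * X ^ k)) = |c| * l1 P := by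
  rw [l1_eq46 (supp46 P c k), Finset.sum_image (fun x _ y _ h => by simpa using h)]
  unfold l1
  rw [Finset.mul_sum]
  refine Finset.sum_congr rfl fun j _ => ?_
  rw [coeff46, if_pos (Nat.le_add_left k j), Nat.add_sub_cancel, abs_mul, mul_comm]

private theorem qp_eq46 (P : ℝ[X]) (a : ℕ → ℕ) (w : ℕ → ℤ) (n : ℕ) :
    Qp P a w n = ∑ l ∈ range (n + 1), P * (C (w l : ℝ) * X ^ a l) := by
  unfold Qp
  rw [Finset.mul_sum]

theorem qp_deg (P : ℝ[X]) (hP : P ≠ 0) (a : ℕ → ℕ) (ha : StrictMono a) (w : ℕ → ℤ) (n : ℕ)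
    (hw : w n ≠ 0) : (Qp P a w n).natDegree = a n + P.natDegree ∧
      (Qp P a w n).leadingCoeff = w n * P.leadingCoeff := by
  set R : ℝ[X] := ∑ l ∈ range (n + 1), C (w l : ℝ) * X ^ a l with hR
  have hc : R.coeff (a n) = (w n : ℝ) := by
    rw [hR, finsetSum_coeff, Finset.sum_eq_single n]
    · rw [coeff_C_mul_X_pow, if_pos rfl]
    · intro l _ hl
      rw [coeff_C_mul_X_pow, if_neg fun h => hl (ha.injective h).symm]
    · intro h
      exact absurd (Finset.mem_range.2 (Nat.lt_succ_self n)) h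
  have hle : R.natDegree ≤ a n := by
    rw [hR]
    refine natDegree_sum_le_of_forall_le _ _ fun l hl => ?_
    refine (natDegree_C_mul_X_pow_le _ _).trans (ha.monotone ?_)
    exact Nat.lt_succ_iff.1 (Finset.mem_range.1 hl)
  have hwr : (w n : ℝ) ≠ 0 := Int.cast_ne_zero.2 hw
  have hdeg : R.natDegree = a n :=
    natDegree_eq_of_le_of_coeff_ne_zero hle (by rw [hc]; exact hwr)
  have hR0 : R ≠ 0 := by
    intro h
    rw [h, coeff_zero] at hc
    exact hwr hc.symm
  have hlc : R.leadingCoeff = w n := by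
    rw [leadingCoeff, hdeg, hc]
  have e : Qp P a w n = P * R := rfl
  rw [e, natDegree_mul hP hR0, leadingCoeff_mul, hdeg, hlc]
  exact ⟨Nat.add_comm _ _, mul_comm _ _⟩

theorem qp_card (P : ℝ[X]) (a : ℕ → ℕ) (w : ℕ → ℤ) (n : ℕ) : (Qp P a w n).support.card ≤
    (P.natDegree + 1) * ((range (n + 1)).filter (fun l => w l ≠ 0)).card := by
  have h1 : (Qp P a w n).support ⊆ ((range (n + 1)).filter (fun l => w l ≠ 0)).biUnion
      (fun l => P.support.image (fun j => j + a l)) := by
    intro i hi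
    rw [mem_support_iff, qp_eq46, finsetSum_coeff] at hi
    obtain ⟨l, hl, hne⟩ := Finset.exists_ne_zero_of_sum_ne_zero hi
    rw [Finset.mem_biUnion]
    refine ⟨l, Finset.mem_filter.2 ⟨hl, ?_⟩, supp46 P _ _ (mem_support_iff.2 hne)⟩
    intro h0
    rw [h0] at hne
    simp at hne
  refine (Finset.card_le_card h1).trans (Finset.card_biUnion_le.trans ?_)
  have h2 : ∀ l ∈ (range (n + 1)).filter (fun l => w l ≠ 0),
      (P.support.image (fun j => j + a l)).card ≤ P.natDegree + 1 := by
    intro l _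
    refine Finset.card_image_le.trans ?_
    have := Finset.card_le_card (supp_subset_range_natDegree_succ (p := P))
    rwa [Finset.card_range] at this
  refine (Finset.sum_le_card_nsmul _ _ _ h2).trans ?_
  rw [smul_eq_mul, mul_comm]

theorem qp_l1 (P : ℝ[X]) (a : ℕ → ℕ) (w : ℕ → ℤ) (n : ℕ) (M : ℝ)
    (hM : ∀ l, |(w l : ℝ)| ≤ M) : l1 (Qp P a w n) ≤
    l1 P * (((range (n + 1)).filter (fun l => w l ≠ 0)).card * M) := by
  have hP : 0 ≤ l1 P := Finset.sum_nonneg fun i _ => abs_nonneg _
  rw [qp_eq46]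
  refine (l1_sum46 _ _).trans ?_
  have h1 : ∑ l ∈ range (n + 1), l1 (P * (C (w l : ℝ) * X ^ a l)) =
      ∑ l ∈ (range (n + 1)).filter (fun l => w l ≠ 0), |(w l : ℝ)| * l1 P := by
    rw [Finset.sum_filter]
    refine Finset.sum_congr rfl fun l _ => ?_
    rw [l1_shift46]
    split_ifs with h
    · rfl
    · push Not at h
      rw [h, Int.cast_zero, abs_zero, zero_mul]
  rw [h1, ← Finset.sum_mul, mul_comm]
  refine mul_le_mul_of_nonneg_left ?_ hP
  refine (Finset.sum_le_card_nsmul _ _ M fun l _ => hM l).trans ?_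
  rw [nsmul_eq_mul]

theorem l1_nonneg (Q : ℝ[X]) : 0 ≤ l1 Q := by
  unfold l1
  exact Finset.sum_nonneg fun i _ => abs_nonneg _

private theorem l1_der46 (Q : ℝ[X]) (T : ℕ) (hT : Q.natDegree ≤ T) :
    l1 (derivative Q) ≤ T * l1 Q := by
  have h1 : (derivative Q).support ⊆ range (T + 1) := by
    refine supp_subset_range_natDegree_succ.trans (Finset.range_subset_range.2 ?_)
    have := natDegree_derivative_le Q
    omega
  have h2 : Q.support ⊆ range (T + 1 + 1) :=
    supp_subset_range_natDegree_succ.trans (Finset.range_subset_range.2 (by omega))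
  rw [l1_eq46 h1, l1_eq46 h2, Finset.sum_range_succ' (fun i => |Q.coeff i|) (T + 1), mul_add,
    Finset.mul_sum]
  have h3 : 0 ≤ (T : ℝ) * |Q.coeff 0| := by positivity
  have h4 : ∑ i ∈ range (T + 1), |(derivative Q).coeff i| ≤
      ∑ i ∈ range (T + 1), (T : ℝ) * |Q.coeff (i + 1)| := by
    refine Finset.sum_le_sum fun i hi => ?_
    rw [coeff_derivative, abs_mul, mul_comm]
    by_cases hiT : i + 1 ≤ T
    · refine mul_le_mul_of_nonneg_right ?_ (abs_nonneg _)
      rw [abs_of_nonneg (by positivity)]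
      exact_mod_cast hiT
    · rw [coeff_eq_zero_of_natDegree_lt (by omega), abs_zero, mul_zero, mul_zero]
  linarith

private theorem l1_iter46 (i : ℕ) : ∀ (Q : ℝ[X]) (T : ℕ), Q.natDegree ≤ T →
    l1 (derivative^[i] Q) ≤ (T : ℝ) ^ i * l1 Q ∧ (derivative^[i] Q).natDegree ≤ T := by
  induction i with
  | zero =>
    intro Q T hT
    simpa using hT
  | succ i ih =>
    intro Q T hT
    have hd : (derivative Q).natDegree ≤ T := (natDegree_derivative_le Q).trans (by omega)
    have h1 := ih (derivative Q) T hd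
    rw [Function.iterate_succ_apply]
    refine ⟨h1.1.trans ?_, h1.2⟩
    rw [pow_succ, mul_assoc]
    exact mul_le_mul_of_nonneg_left (l1_der46 Q T hT) (by positivity)

theorem dq_le (Q : ℝ[X]) (T : ℕ) (hT : Q.natDegree ≤ T) (i : ℕ) (x : ℝ) (hx : 1 ≤ x) :
    |Dq Q i x| ≤ l1 Q * (T : ℝ) ^ i * x ^ T := by
  obtain ⟨h1, h2⟩ := l1_iter46 i Q T hT
  have h3 : ∀ R : ℝ[X], R.natDegree ≤ T → |R.eval x| ≤ l1 R * x ^ T := by
    intro R hR
    rw [eval_eq_sum, Polynomial.sum_def]
    unfold l1
    rw [Finset.sum_mul]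
    refine (Finset.abs_sum_le_sum_abs _ _).trans (Finset.sum_le_sum fun e he => ?_)
    rw [abs_mul, abs_of_nonneg (show 0 ≤ x ^ e by positivity)]
    refine mul_le_mul_of_nonneg_left ?_ (abs_nonneg _)
    exact pow_le_pow_right₀ hx ((le_natDegree_of_mem_supp e he).trans hR)
  unfold Dq
  refine (h3 _ h2).trans ?_
  refine mul_le_mul_of_nonneg_right ?_ (by positivity)
  rw [mul_comm (l1 Q)]
  exact h1

theorem dq_iter (Q : ℝ[X]) (r i : ℕ) (x : ℝ) : Dq (derivative^[r] Q) i x = Dq Q (r + i) x := by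
  unfold Dq
  rw [Nat.add_comm r i, Function.iterate_add_apply]

theorem derv_deg (Q : ℝ[X]) (r : ℕ) (hr : r ≤ Q.natDegree) (hQ : Q ≠ 0) :
    (derivative^[r] Q).natDegree = Q.natDegree - r ∧
      |Q.leadingCoeff| ≤ |(derivative^[r] Q).leadingCoeff| := by
  have h1 : (derivative^[r] Q).coeff (Q.natDegree - r) =
      (Q.natDegree.descFactorial r : ℝ) * Q.leadingCoeff := by
    rw [coeff_iterate_derivative, Nat.sub_add_cancel hr, nsmul_eq_mul]
    rfl
  have h2 : 1 ≤ Q.natDegree.descFactorial r := by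
    rw [Nat.one_le_iff_ne_zero]
    intro h
    rw [Nat.descFactorial_eq_zero_iff_lt] at h
    omega
  have h3 : (1 : ℝ) ≤ (Q.natDegree.descFactorial r : ℝ) := by exact_mod_cast h2
  have h4 : Q.leadingCoeff ≠ 0 := leadingCoeff_ne_zero.2 hQ
  have h5 : (derivative^[r] Q).natDegree = Q.natDegree - r := by
    refine natDegree_eq_of_le_of_coeff_ne_zero (natDegree_iterate_derivative Q r) ?_
    rw [h1]
    exact mul_ne_zero (by linarith) h4
  refine ⟨h5, ?_⟩
  have h7 : (derivative^[r] Q).leadingCoeff =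
      (Q.natDegree.descFactorial r : ℝ) * Q.leadingCoeff := by
    rw [leadingCoeff, h5, h1]
  have h8 : |(Q.natDegree.descFactorial r : ℝ)| = (Q.natDegree.descFactorial r : ℝ) :=
    abs_of_nonneg (by linarith)
  rw [h7, abs_mul, h8]
  have h6 : 0 ≤ |Q.leadingCoeff| := abs_nonneg _
  nlinarith

theorem derv_card (Q : ℝ[X]) (r : ℕ) : (derivative^[r] Q).support.card ≤ Q.support.card := by
  refine Finset.card_le_card_of_injOn (fun j => j + r) (fun j hj => ?_)
    (fun x _ y _ h => by simpa using h)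
  have h1 : (derivative^[r] Q).coeff j ≠ 0 := mem_support_iff.1 hj
  rw [coeff_iterate_derivative] at h1
  have h2 : Q.coeff (j + r) ≠ 0 := fun h => h1 (by rw [h, smul_zero])
  exact mem_support_iff.2 h2

end Pool.Agent.Helper59.PQ
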