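import Pool.Agent.Helper59.PQ.Qpf
import Pool.Agent.Helper59.PQ.Derl
import Pool.Agent.Helper59.PQ.Rolle

/-!
# Block PQ-SUBA: the derivative is rarely small

Notation: `T = Q.natDegree`, `ρ = exp (- m^(1/5))`, `η = exp (- m^(1/4) / 4)`.

PROOF of `suba`.  `K1 = 2 J + B + d + 6`, `ℓ = 1 / m^K1`.  Let `R = derivative^[d+1] Q` (`derv_deg`, `derv_card`, `dq_iter`; `m ≥ d + 1`): `R ≠ 0`, `natDegree R = T - (d+1)`,
`|lc R| ≥ c0`, at most `J` terms.  `rolle` with `F i = Dq R i` (`dq_hasDeriv`), `k = J`: for every `i < J` there is `ξ ∈ [x0, x0 + ℓ]` with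
`|Dq R i ξ| ≤ η x0^T (2/ρ)^i ≤ η x0^T (2/ρ)^J`.  By the mean value theorem and `dq_le` (`l1 Q ≤ m^B`, `T ≤ 2 m`)
`|Dq R i x0| ≤ |Dq R i ξ| + ℓ sup |Dq Q (d+2+i)| ≤ (η (2/ρ)^J + ℓ m^B (2m)^(d+2+J) 3) x0^T`,
because `(x0 + ℓ)^T ≤ x0^T (1 + ℓ)^T ≤ x0^T exp (2 m ℓ) ≤ 3 x0^T`.  `derl` at `x0`:
`c0 x0^(T-d-1) ≤ (2 (X1 + 2m + J))^J J (η (2/ρ)^J + 3 ℓ m^B (2m)^(d+2+J)) x0^T`, and `x0^T ≤ X1^(d+1) x0^(T-d-1)`; so
`c0 ≤ (2 (X1 + 2m + J))^J J X1^(d+1) (η (2/ρ)^J + 3 (2m)^(d+2+J) m^B / m^K1)`, and the right side tends to `0` as `m → ∞`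
(`η (2/ρ)^J = 2^J exp (J m^(1/5) - m^(1/4)/4)` is smaller than every power of `1/m`).  Contradiction for `m ≥ m₁`.
-/

namespace Pool.Agent.Helper59.PQ

open Finset Polynomial

open Filter Topology in
private theorem asym1_h5 (J : ℕ) : Tendsto (fun m : ℕ => (m : ℝ) ^ J *
    Real.exp (J * (m : ℝ) ^ (1 / 5 : ℝ) - (m : ℝ) ^ (1 / 4 : ℝ) / 4)) atTop (𝓝 0) := by
  have hx : Tendsto (fun m : ℕ => (m : ℝ) ^ (1 / 20 : ℝ) / 8) atTop atTop :=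
    ((tendsto_rpow_atTop (by norm_num)).comp tendsto_natCast_atTop_atTop).atTop_div_const (by norm_num)
  have h1 : Tendsto (fun m : ℕ => (8 : ℝ) ^ (20 * J) * (((m : ℝ) ^ (1 / 20 : ℝ) / 8) ^ (20 * J) *
      Real.exp (-((m : ℝ) ^ (1 / 20 : ℝ) / 8)))) atTop (𝓝 0) := by
    have h2 := ((Real.tendsto_pow_mul_exp_neg_atTop_nhds_zero (20 * J)).comp hx).const_mul
      ((8 : ℝ) ^ (20 * J))
    rw [mul_zero] at h2
    exact h2
  refine squeeze_zero' (Eventually.of_forall fun m => by positivity) ?_ h1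
  filter_upwards [hx.eventually_ge_atTop (J + 1 : ℝ)] with m hm
  obtain ⟨u, hu⟩ : ∃ u : ℝ, u = (m : ℝ) ^ (1 / 20 : ℝ) := ⟨_, rfl⟩
  have hm0 : (0 : ℝ) ≤ m := Nat.cast_nonneg m
  have e1 : (m : ℝ) ^ (1 / 5 : ℝ) = u ^ 4 := by
    rw [hu, ← Real.rpow_natCast, ← Real.rpow_mul hm0]
    norm_num
  have e2 : (m : ℝ) ^ (1 / 4 : ℝ) = u ^ 5 := by
    rw [hu, ← Real.rpow_natCast, ← Real.rpow_mul hm0]
    norm_num
  have e3 : (m : ℝ) ^ J = u ^ (20 * J) := by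
    rw [hu, pow_mul, ← Real.rpow_natCast ((m : ℝ) ^ (1 / 20 : ℝ)), ← Real.rpow_mul hm0]
    norm_num
  rw [e1, e2, e3, ← hu]
  rw [← hu] at hm
  have hu8 : 8 * ((J : ℝ) + 1) ≤ u := by linarith
  have hJ : (0 : ℝ) ≤ J := Nat.cast_nonneg J
  have hu1 : 1 ≤ u := by linarith
  have e4 : (8 : ℝ) ^ (20 * J) * ((u / 8) ^ (20 * J) * Real.exp (-(u / 8))) =
      u ^ (20 * J) * Real.exp (-(u / 8)) := by
    rw [div_pow]
    field_simp
  rw [e4]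
  refine mul_le_mul_of_nonneg_left (Real.exp_le_exp.2 ?_) (by positivity)
  have h5 : 8 * J * u ^ 4 ≤ u * u ^ 4 := mul_le_mul_of_nonneg_right (by linarith) (by positivity)
  have h6 : u ≤ u ^ 5 := le_self_pow₀ hu1 (by norm_num)
  have h7 : u * u ^ 4 = u ^ 5 := by ring
  linarith

open Filter Topology in
private theorem asym2_h5 (J d : ℕ) (X1 c0 : ℝ) (hc0 : 0 < c0) : ∃ m₁ : ℕ, ∀ m : ℕ, m₁ ≤ m →
    (2 * (X1 + 2 + J)) ^ J * J * X1 ^ (d + 1) * (2 ^ J * ((m : ℝ) ^ J *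
      Real.exp (J * (m : ℝ) ^ (1 / 5 : ℝ) - (m : ℝ) ^ (1 / 4 : ℝ) / 4)) +
      3 * 2 ^ (d + 2 + J) * (1 / (m : ℝ) ^ 4)) < c0 := by
  have h1 := (asym1_h5 J).const_mul (2 ^ J : ℝ)
  have h2 : Tendsto (fun m : ℕ => 3 * 2 ^ (d + 2 + J) * (1 / (m : ℝ) ^ 4)) atTop (𝓝 0) := by
    have h3 : Tendsto (fun m : ℕ => (m : ℝ) ^ 4) atTop atTop :=
      (tendsto_pow_atTop (by norm_num)).comp tendsto_natCast_atTop_atTop
    have h4 := ((tendsto_const_nhds (x := (1 : ℝ))).div_atTop h3).const_mul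
      (3 * 2 ^ (d + 2 + J) : ℝ)
    rwa [mul_zero] at h4
  have h5 := (h1.add h2).const_mul ((2 * (X1 + 2 + J)) ^ J * J * X1 ^ (d + 1))
  rw [mul_zero, add_zero, mul_zero] at h5
  exact eventually_atTop.1 (h5.eventually_lt_const hc0)

theorem suba (J B d : ℕ) (c0 X1 : ℝ) (hc0 : 0 < c0) :
    ∃ K1 m₁ : ℕ, 2 ≤ K1 ∧ ∀ m : ℕ, m₁ ≤ m → ∀ Q : ℝ[X], QC J B m c0 Q → ∀ x0 : ℝ, 1 ≤ x0 → x0 ≤ X1 →
      ∀ t : ℕ → ℝ, (∀ j < 2 ^ J, t j ∈ Set.Icc x0 (x0 + 1 / (m : ℝ) ^ K1) ∧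
        |Dq Q (d + 1) (t j)| ≤ Real.exp (-(m : ℝ) ^ (1 / 4 : ℝ) / 4) * x0 ^ Q.natDegree) →
      (∀ j, j + 1 < 2 ^ J → t j + Real.exp (-(m : ℝ) ^ (1 / 5 : ℝ)) ≤ t (j + 1)) → False := by
  obtain ⟨m₁, hm₁⟩ := asym2_h5 J d X1 c0 hc0
  refine ⟨2 * J + B + d + 6, max m₁ (d + 2), by omega, ?_⟩
  intro m hm Q hQ x0 hx0 hx1 t ht hsep
  have hm1 := hm₁ m ((le_max_left _ _).trans hm)
  have hmd : d + 2 ≤ m := (le_max_right _ _).trans hm
  have hm2 : (2 : ℝ) ≤ m := by exact_mod_cast (by omega : 2 ≤ m)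
  have hm0 : (0 : ℝ) < m := by linarith
  obtain ⟨T, hT⟩ : ∃ T, T = Q.natDegree := ⟨_, rfl⟩
  have hT1 : m ≤ T := hT ▸ hQ.d1
  have hT2 : T ≤ 2 * m := hT ▸ hQ.d2
  have hT2r : (T : ℝ) ≤ 2 * m := by exact_mod_cast hT2
  rw [← hT] at ht
  have hQ0 : Q ≠ 0 := by
    intro h
    have h1 := hQ.lc
    rw [h, leadingCoeff_zero, abs_zero] at h1
    linarith
  obtain ⟨hRdeg, hRlc⟩ := derv_deg Q (d + 1) (by omega) hQ0
  obtain ⟨R, hR⟩ : ∃ R, R = derivative^[d + 1] Q := ⟨_, rfl⟩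
  rw [← hR, ← hT] at hRdeg
  rw [← hR] at hRlc
  have hRlc' : c0 ≤ |R.leadingCoeff| := hQ.lc.trans hRlc
  have hR0 : R ≠ 0 := by
    intro h
    rw [h, leadingCoeff_zero, abs_zero] at hRlc'
    linarith
  have hRc : R.support.card ≤ J := by
    rw [hR]
    exact (derv_card Q (d + 1)).trans hQ.sc
  obtain ⟨ρ, hρ⟩ : ∃ ρ, ρ = Real.exp (-(m : ℝ) ^ (1 / 5 : ℝ)) := ⟨_, rfl⟩
  obtain ⟨η, hη⟩ : ∃ η, η = Real.exp (-(m : ℝ) ^ (1 / 4 : ℝ) / 4) := ⟨_, rfl⟩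
  obtain ⟨l, hl⟩ : ∃ l, l = 1 / (m : ℝ) ^ (2 * J + B + d + 6) := ⟨_, rfl⟩
  rw [← hρ] at hsep
  rw [← hη, ← hl] at ht
  have hρ0 : 0 < ρ := by
    rw [hρ]
    exact Real.exp_pos _
  have hη0 : 0 < η := by
    rw [hη]
    exact Real.exp_pos _
  have hl0 : 0 < l := by
    rw [hl]
    positivity
  have hρ1 : ρ ≤ 1 := by
    rw [hρ, Real.exp_le_one_iff]
    have : 0 ≤ (m : ℝ) ^ (1 / 5 : ℝ) := by positivity
    linarith
  have h2ρ : 1 ≤ 2 / ρ := by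
    rw [le_div_iff₀ hρ0]
    linarith
  have hx00 : 0 < x0 := by linarith
  have hTl : (T : ℝ) * l ≤ 1 := by
    have h1 : (m : ℝ) ^ 2 ≤ (m : ℝ) ^ (2 * J + B + d + 6) :=
      pow_le_pow_right₀ (by linarith) (by omega)
    rw [hl, mul_one_div, div_le_one (by positivity)]
    calc (T : ℝ) ≤ 2 * m := hT2r
      _ ≤ m * m := mul_le_mul_of_nonneg_right hm2 hm0.le
      _ = (m : ℝ) ^ 2 := by ring
      _ ≤ _ := h1
  have h3 : (x0 + l) ^ T ≤ 3 * x0 ^ T := by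
    have h4 : x0 + l ≤ x0 * (1 + l) := by
      have := mul_le_mul_of_nonneg_right hx0 hl0.le
      linarith
    calc (x0 + l) ^ T ≤ (x0 * (1 + l)) ^ T := pow_le_pow_left₀ (by positivity) h4 T
      _ = (1 + l) ^ T * x0 ^ T := by rw [mul_pow, mul_comm]
      _ ≤ 3 * x0 ^ T := by
          refine mul_le_mul_of_nonneg_right ?_ (by positivity)
          have h5 : 1 + l ≤ Real.exp l := by
            rw [add_comm]
            exact Real.add_one_le_exp l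
          calc (1 + l) ^ T ≤ Real.exp l ^ T := pow_le_pow_left₀ (by positivity) h5 T
            _ = Real.exp (T * l) := by rw [← Real.exp_nat_mul]
            _ ≤ Real.exp 1 := Real.exp_le_exp.2 hTl
            _ ≤ 3 := by
                have := Real.exp_one_lt_d9
                linarith
  obtain ⟨E, hE⟩ : ∃ E, E = η * (2 / ρ) ^ J + 3 * (l * ((m : ℝ) ^ B * (2 * m) ^ (d + 2 + J))) := ⟨_, rfl⟩
  have hpoint : ∀ i < J, |Dq Q (d + 1 + i) x0| ≤ E * x0 ^ T := by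
    intro i hi
    obtain ⟨ξ, hξ, hξ2⟩ := rolle i J hi.le (fun i => Dq Q (d + 1 + i))
      (fun i z => dq_hasDeriv Q (d + 1 + i) z) x0 (x0 + l) ρ (η * x0 ^ T) hρ0 (by positivity) t ht hsep
    have hmv : ‖Dq Q (d + 1 + i) x0 - Dq Q (d + 1 + i) ξ‖ ≤
        ((m : ℝ) ^ B * (2 * m) ^ (d + 2 + J) * (3 * x0 ^ T)) * ‖x0 - ξ‖ := by
      refine Convex.norm_image_sub_le_of_norm_hasDerivWithin_le (s := Set.Icc x0 (x0 + l))
        (fun x _ => (dq_hasDeriv Q (d + 1 + i) x).hasDerivWithinAt) ?_ (convex_Icc _ _) hξ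
        ⟨le_rfl, by linarith⟩
      intro x hx
      have h5 := dq_le Q T hT.ge (d + 1 + i + 1) x (hx0.trans hx.1)
      rw [Real.norm_eq_abs]
      refine h5.trans ?_
      have h6 : (T : ℝ) ^ (d + 1 + i + 1) ≤ (2 * m) ^ (d + 2 + J) :=
        (pow_le_pow_left₀ (Nat.cast_nonneg _) hT2r _).trans
          (pow_le_pow_right₀ (by linarith) (by omega))
      have h7 : x ^ T ≤ 3 * x0 ^ T :=
        (pow_le_pow_left₀ (by linarith [hx.1]) hx.2 T).trans h3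
      have hx0' : 0 ≤ x := by linarith [hx.1]
      refine mul_le_mul (mul_le_mul hQ.cf h6 (by positivity) (by positivity)) h7 (by positivity)
        (by positivity)
    have h8 : ‖x0 - ξ‖ ≤ l := by
      rw [Real.norm_eq_abs, abs_sub_comm, abs_of_nonneg (by linarith [hξ.1])]
      linarith [hξ.2]
    have h9 : |Dq Q (d + 1 + i) x0| ≤ |Dq Q (d + 1 + i) ξ| +
        ((m : ℝ) ^ B * (2 * m) ^ (d + 2 + J) * (3 * x0 ^ T)) * l := by
      have h10 := hmv.trans (mul_le_mul_of_nonneg_left h8 (by positivity))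
      rw [Real.norm_eq_abs] at h10
      have h11 := abs_add_le (Dq Q (d + 1 + i) x0 - Dq Q (d + 1 + i) ξ) (Dq Q (d + 1 + i) ξ)
      rw [sub_add_cancel] at h11
      linarith
    have h12 : η * x0 ^ T * (2 / ρ) ^ i ≤ η * x0 ^ T * (2 / ρ) ^ J :=
      mul_le_mul_of_nonneg_left (pow_le_pow_right₀ h2ρ hi.le) (by positivity)
    have hξ3 : |Dq Q (d + 1 + i) ξ| ≤ η * x0 ^ T * (2 / ρ) ^ i := hξ2
    calc |Dq Q (d + 1 + i) x0| ≤ η * x0 ^ T * (2 / ρ) ^ J +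
          ((m : ℝ) ^ B * (2 * m) ^ (d + 2 + J) * (3 * x0 ^ T)) * l := by linarith
      _ = E * x0 ^ T := by
          rw [hE]
          ring
  have hE0 : 0 ≤ E := by
    rw [hE]
    positivity
  have hder := derl J R hR0 hRc x0 hx0
  have hsum : ∑ i ∈ range J, |Dq R i x0| ≤ J * (E * x0 ^ T) := by
    calc ∑ i ∈ range J, |Dq R i x0| ≤ ∑ _i ∈ range J, E * x0 ^ T := by
          refine Finset.sum_le_sum fun i hi => ?_
          rw [hR, dq_iter]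
          exact hpoint i (Finset.mem_range.1 hi)
      _ = J * (E * x0 ^ T) := by rw [Finset.sum_const, card_range, nsmul_eq_mul]
  have hX1 : 1 ≤ X1 := hx0.trans hx1
  have hbase : 2 * (x0 + (R.natDegree : ℝ) + J) ≤ 2 * (X1 + 2 + J) * m := by
    have h1 : (R.natDegree : ℝ) ≤ 2 * m := by
      have h2 : R.natDegree ≤ 2 * m := by omega
      exact_mod_cast h2
    have hJ : (0 : ℝ) ≤ J := Nat.cast_nonneg J
    have h2 : X1 * 1 ≤ X1 * m := mul_le_mul_of_nonneg_left (by linarith) (by linarith)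
    have h3 : (J : ℝ) * 1 ≤ J * m := mul_le_mul_of_nonneg_left (by linarith) hJ
    nlinarith
  have hfin : c0 * x0 ^ (T - (d + 1)) ≤
      ((2 * (X1 + 2 + J) * m) ^ J * (J * E) * X1 ^ (d + 1)) * x0 ^ (T - (d + 1)) := by
    have hsplit : x0 ^ T = x0 ^ (T - (d + 1)) * x0 ^ (d + 1) := by
      rw [← pow_add]
      congr 1
      omega
    have hxp : x0 ^ (d + 1) ≤ X1 ^ (d + 1) := pow_le_pow_left₀ hx00.le hx1 _
    calc c0 * x0 ^ (T - (d + 1)) ≤ |R.leadingCoeff| * x0 ^ R.natDegree := by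
          rw [hRdeg]
          exact mul_le_mul_of_nonneg_right hRlc' (by positivity)
      _ ≤ (2 * (x0 + R.natDegree + J)) ^ J * ∑ i ∈ range J, |Dq R i x0| := hder
      _ ≤ (2 * (X1 + 2 + J) * m) ^ J * (J * (E * x0 ^ T)) :=
          mul_le_mul (pow_le_pow_left₀ (by positivity) hbase J) hsum
            (Finset.sum_nonneg fun _ _ => abs_nonneg _) (by positivity)
      _ = (2 * (X1 + 2 + J) * m) ^ J * (J * E) * x0 ^ (d + 1) * x0 ^ (T - (d + 1)) := by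
          rw [hsplit]
          ring
      _ ≤ _ := by
          refine mul_le_mul_of_nonneg_right (mul_le_mul_of_nonneg_left hxp ?_) (by positivity)
          positivity
  have hfin2 : c0 ≤ (2 * (X1 + 2 + J) * m) ^ J * (J * E) * X1 ^ (d + 1) :=
    le_of_mul_le_mul_right hfin (by positivity)
  have hid : (2 * (X1 + 2 + J) * m) ^ J * (J * E) * X1 ^ (d + 1) =
      (2 * (X1 + 2 + J)) ^ J * J * X1 ^ (d + 1) * (2 ^ J * ((m : ℝ) ^ J *
      Real.exp (J * (m : ℝ) ^ (1 / 5 : ℝ) - (m : ℝ) ^ (1 / 4 : ℝ) / 4)) +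
      3 * 2 ^ (d + 2 + J) * (1 / (m : ℝ) ^ 4)) := by
    have e1 : η * (2 / ρ) ^ J =
        2 ^ J * Real.exp (J * (m : ℝ) ^ (1 / 5 : ℝ) - (m : ℝ) ^ (1 / 4 : ℝ) / 4) := by
      have e2 : 2 / ρ = 2 * Real.exp ((m : ℝ) ^ (1 / 5 : ℝ)) := by
        rw [hρ, Real.exp_neg, div_inv_eq_mul]
      rw [e2, mul_pow, ← Real.exp_nat_mul, hη, mul_left_comm, ← Real.exp_add]
      congr 2
      ring
    have e3 : (m : ℝ) ^ J * (l * ((m : ℝ) ^ B * (2 * m) ^ (d + 2 + J))) =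
        2 ^ (d + 2 + J) * (1 / (m : ℝ) ^ 4) := by
      have e4 : (m : ℝ) ^ (2 * J + B + d + 6) = (m : ℝ) ^ J * (m : ℝ) ^ B * (m : ℝ) ^ (d + 2 + J) * (m : ℝ) ^ 4 := by
        rw [← pow_add, ← pow_add, ← pow_add]
        congr 1
        omega
      rw [hl, e4, mul_pow]
      field_simp
    calc (2 * (X1 + 2 + J) * m) ^ J * (J * E) * X1 ^ (d + 1) =
          (2 * (X1 + 2 + J)) ^ J * J * X1 ^ (d + 1) * ((m : ℝ) ^ J * (η * (2 / ρ) ^ J) +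
            3 * ((m : ℝ) ^ J * (l * ((m : ℝ) ^ B * (2 * m) ^ (d + 2 + J))))) := by
          rw [mul_pow, hE]
          ring
      _ = _ := by
          rw [e1, e3]
          ring
  rw [hid] at hfin2
  linarith

end Pool.Agent.Helper59.PQ
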